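import Pool.Agent.Lib.MP_98022b_h66.Tree
import Pool.Agent.Lib.MP_140312_al_SG.BSTree

/-!
# Adjacent vertex stabilizers, collapsed forests
-/

set_option autoImplicit false

namespace Pool.Agent.TreeCl

open SimpleGraph Pool.Agent.Lib.MP_140312_al_SG

section Paths

variable {V : Type} {T : SimpleGraph V}

theorem isPath_cons_of_ne (hT : T.IsAcyclic) {u v w : V} (h : T.Adj u v) (p : T.Walk v w)
    (hp : p.IsPath) (hs : 0 < p.length → p.snd ≠ u) : (Walk.cons h p).IsPath := by
  rw [hT.isPath_iff_isChain] at hp ⊢
  rw [Walk.edges_cons]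
  cases p with
  | nil => simp
  | cons h' q =>
    rw [Walk.edges_cons] at hp ⊢
    rw [List.isChain_cons_cons]
    refine ⟨?_, hp⟩
    intro he
    have h1 := hs (by simp)
    rw [Walk.snd_cons] at h1
    rcases Sym2.eq_iff.1 he with ⟨h2, -⟩ | ⟨h2, -⟩
    · exact h.ne h2
    · exact h1 h2.symm

variable {G : Type} [Group G] [MulAction G V]

theorem exists_path_of_wd (hT : T.IsAcyclic)
    (hadj : ∀ (g : G) u v, T.Adj u v → T.Adj (g • u) (g • v)) {ν : Bool → V}
    (hν : ∀ i, T.Adj (ν (!i)) (ν i)) {i : Bool} {n : ℕ} {g : G}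
    (h : Wd (fun i => MulAction.stabilizer G (ν i)) i n g) :
    ∃ (k : Bool) (p : T.Walk (ν (!i)) (g • ν k)), p.IsPath ∧ p.length = n + 1 ∧ p.snd = ν i := by
  induction h with
  | @one i x h1 h2 =>
    have h1' : x • ν i = ν i := h1
    have h2' : x • ν (!i) ≠ ν (!i) := h2
    have h3 : T.Adj (ν i) (x • ν (!i)) := by
      have := hadj x _ _ (hν i).symm
      rw [h1'] at this
      exact this
    refine ⟨!i, Walk.cons (hν i) (Walk.cons h3 Walk.nil), ?_, rfl, ?_⟩
    · refine isPath_cons_of_ne hT _ _ ?_ ?_
      · exact isPath_cons_of_ne hT _ _ Walk.IsPath.nil (fun h => by simp at h)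
      · intro _
        rw [Walk.snd_cons]
        exact h2'
    · rw [Walk.snd_cons]
  | @cons i x n g h1 h2 h3 ih =>
    have h1' : x • ν i = ν i := h1
    have h2' : x • ν (!i) ≠ ν (!i) := h2
    obtain ⟨k, p, hp, hl, hs⟩ := ih
    have hx : x • ν (!(!i)) = ν i := by rw [Bool.not_not, h1']
    let q : T.Walk (ν i) ((x * g) • ν k) :=
      (p.map (FJ.actHom T hadj x)).copy hx (mul_smul x g (ν k)).symm
    refine ⟨k, Walk.cons (hν i) q, ?_, ?_, ?_⟩
    · refine isPath_cons_of_ne hT _ _ ?_ ?_
      · show ((p.map (FJ.actHom T hadj x)).copy hx (mul_smul x g (ν k)).symm).IsPath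
        rw [Walk.isPath_copy]
        exact hp.map (MulAction.injective x)
      · intro _
        show ((p.map (FJ.actHom T hadj x)).copy hx (mul_smul x g (ν k)).symm).snd ≠ _
        have : ((p.map (FJ.actHom T hadj x)).copy hx (mul_smul x g (ν k)).symm).snd =
            x • p.snd := by
          rw [Walk.snd, Walk.getVert_copy, Walk.getVert_map]
          rfl
        rw [this, hs]
        exact h2'
    · rw [Walk.length_cons]
      show ((p.map (FJ.actHom T hadj x)).copy hx (mul_smul x g (ν k)).symm).length + 1 = _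
      rw [Walk.length_copy, Walk.length_map, hl]
    · rw [Walk.snd_cons]

/-- The stabilizers of two adjacent vertices of an acyclic graph generate their amalgam. -/
theorem altFree_stabilizer (hT : T.IsAcyclic)
    (hadj : ∀ (g : G) u v, T.Adj u v → T.Adj (g • u) (g • v)) {ν : Bool → V}
    (hν : T.Adj (ν false) (ν true)) : AltFree (fun i => MulAction.stabilizer G (ν i)) := by
  have hν' : ∀ i, T.Adj (ν (!i)) (ν i) := by
    intro i
    cases i
    · exact hν.symm
    · exact hν
  refine altFree_iff.2 fun i n g h hg => ?_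
  obtain ⟨k, p, hp, hl, hs⟩ := exists_path_of_wd hT hadj hν' h
  have hn := h.pos
  subst hg
  by_cases hk : k = i
  · subst hk
    have h1 : (Walk.cons (hν' k) Walk.nil).IsPath :=
      isPath_cons_of_ne hT _ _ Walk.IsPath.nil (fun h => by simp at h)
    let q : T.Walk (ν (!k)) (ν k) := p.copy rfl (one_smul G (ν k))
    have hq : q.IsPath := by
      show (p.copy rfl (one_smul G (ν k))).IsPath
      rw [Walk.isPath_copy]
      exact hp
    have h2 := (hT.subsingleton_path (ν (!k)) (ν k)).elim ⟨q, hq⟩ ⟨_, h1⟩
    have h3 : q = Walk.cons (hν' k) Walk.nil := congrArg Subtype.val h2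
    have h4 : q.length = n + 1 := by
      show (p.copy rfl (one_smul G (ν k))).length = _
      rw [Walk.length_copy, hl]
    rw [h3] at h4
    simp only [Walk.length_cons, Walk.length_nil] at h4
    omega
  · have hk' : k = !i := by
      revert hk
      cases k <;> cases i <;> simp
    subst hk'
    let q : T.Walk (ν (!i)) (ν (!i)) := p.copy rfl (one_smul G (ν (!i)))
    have hq : q.IsPath := by
      show (p.copy rfl (one_smul G (ν (!i)))).IsPath
      rw [Walk.isPath_copy]
      exact hp
    have h2 := (hT.subsingleton_path (ν (!i)) (ν (!i))).elim ⟨q, hq⟩ ⟨_, Walk.IsPath.nil⟩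
    have h3 : q = Walk.nil := congrArg Subtype.val h2
    have h4 : q.length = n + 1 := by
      show (p.copy rfl (one_smul G (ν (!i)))).length = _
      rw [Walk.length_copy, hl]
    rw [h3] at h4
    simp at h4

end Paths

section Collapse

variable {V : Type}

/-- The graph obtained from `F` by collapsing the components of `F'`. -/
def coll (F F' : SimpleGraph V) : SimpleGraph F'.ConnectedComponent where
  Adj c d := c ≠ d ∧ ∃ u v, F'.connectedComponentMk u = c ∧ F'.connectedComponentMk v = d ∧
    F.Adj u v
  symm := ⟨fun c d ⟨h, u, v, h1, h2, h3⟩ => ⟨h.symm, v, u, h2, h1, h3.symm⟩⟩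
  loopless := ⟨fun c h => h.1 rfl⟩

theorem coll_adj {F F' : SimpleGraph V} {u v : V} (h : F.Adj u v) (h' : ¬ F'.Reachable u v) :
    (coll F F').Adj (F'.connectedComponentMk u) (F'.connectedComponentMk v) :=
  ⟨fun h1 => h' (ConnectedComponent.exact h1), u, v, rfl, rfl, h⟩

theorem coll_reachable {F F' : SimpleGraph V} {u v : V} (h : F.Reachable u v) :
    (coll F F').Reachable (F'.connectedComponentMk u) (F'.connectedComponentMk v) := by
  obtain ⟨p⟩ := h
  induction p with
  | nil => exact Reachable.refl _
  | @cons u v w h p ih =>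
    by_cases h' : F'.Reachable u v
    · rw [ConnectedComponent.sound h']
      exact ih
    · exact (coll_adj h h').reachable.trans ih

theorem coll_connected {F F' : SimpleGraph V} (h : F.Connected) : (coll F F').Connected := by
  have := h.nonempty
  refine { preconnected := fun c d => ?_, nonempty := ⟨F'.connectedComponentMk (Classical.arbitrary V)⟩ }
  induction c using ConnectedComponent.ind with
  | _ u =>
    induction d using ConnectedComponent.ind with
    | _ v => exact coll_reachable (h.preconnected u v)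

theorem coll_acyclic {F F' : SimpleGraph V} (hF : F.IsAcyclic) (hle : F' ≤ F) :
    (coll F F').IsAcyclic := by
  rw [isAcyclic_iff_forall_adj_isBridge]
  rintro c d ⟨hcd, u, v, rfl, rfl, huv⟩
  rw [isBridge_iff]
  intro hr
  have hF2 := isAcyclic_iff_forall_adj_isBridge.1 hF huv
  rw [isBridge_iff] at hF2
  apply hF2
  have hle' : F' ≤ F.deleteEdges {s(u, v)} := by
    intro x y hxy
    rw [deleteEdges_adj]
    refine ⟨hle hxy, fun h => ?_⟩
    rcases Sym2.eq_iff.1 (Set.mem_singleton_iff.1 h) with ⟨rfl, rfl⟩ | ⟨rfl, rfl⟩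
    · exact hcd (ConnectedComponent.sound hxy.reachable)
    · exact hcd (ConnectedComponent.sound hxy.symm.reachable)
  have key : ∀ {c' d' : F'.ConnectedComponent}
      (_ : ((coll F F').deleteEdges
        {s(F'.connectedComponentMk u, F'.connectedComponentMk v)}).Walk c' d') (x y : V),
      F'.connectedComponentMk x = c' → F'.connectedComponentMk y = d' →
      (F.deleteEdges {s(u, v)}).Reachable x y := by
    intro c' d' p
    induction p with
    | nil =>
      intro x y hx hy
      exact (ConnectedComponent.exact (hx.trans hy.symm)).mono hle'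
    | @cons c' c'' d' h p ih =>
      intro x y hx hy
      rw [deleteEdges_adj] at h
      obtain ⟨⟨hne, x', y', hx', hy', hadj⟩, hnot⟩ := h
      have h1 : (F.deleteEdges {s(u, v)}).Reachable x x' :=
        (ConnectedComponent.exact (hx.trans hx'.symm)).mono hle'
      have h2 : (F.deleteEdges {s(u, v)}).Adj x' y' := by
        rw [deleteEdges_adj]
        refine ⟨hadj, fun h => hnot ?_⟩
        rw [Set.mem_singleton_iff] at h ⊢
        rw [← hx', ← hy']
        rcases Sym2.eq_iff.1 h with ⟨rfl, rfl⟩ | ⟨rfl, rfl⟩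
        · rfl
        · exact Sym2.eq_swap
      exact h1.trans (h2.reachable.trans (ih y' y hy' hy))
  obtain ⟨p⟩ := hr
  exact key p u v rfl rfl

end Collapse

end Pool.Agent.TreeCl
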