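import Pool.Agent.Lib.MP_98022b_ab.Closed

/-!
# Groups acting on trees, for classes closed under amalgams
-/

set_option autoImplicit false

namespace Pool.Agent.TreeCl

open SimpleGraph Pool.Agent.Lib.MP_140312_al_SG

variable {P Ed : ∀ (G : Type) [Group G], Prop}

theorem exists_adj_of_adj {V : Type} {T : SimpleGraph V} (hT : T.Connected) {x y : V}
    (hxy : T.Adj x y) (v : V) : ∃ v', T.Adj v' v := by
  obtain ⟨p⟩ := hT.preconnected v x
  cases p with
  | nil => exact ⟨y, hxy.symm⟩
  | cons h _ => exact ⟨_, h.symm⟩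

theorem last_adj {V : Type} {F : SimpleGraph V} {u v : V} (h : F.Reachable u v) (hne : u ≠ v) :
    ∃ v', F.Adj v' v := by
  obtain ⟨p⟩ := h.symm
  cases p with
  | nil => exact absurd rfl hne
  | cons h _ => exact ⟨_, h.symm⟩

/-- Actions with an invariant height of bounded range, transitive on the edges of each level. -/
theorem levels (hP : Closed P Ed) : ∀ (m : ℕ) {G V : Type} [Group G] [MulAction G V]
    {T : SimpleGraph V}, Act P Ed G T → ∀ (φ : V → ℤ), (∀ (g : G) v, φ (g • v) = φ v) →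
    (∀ u v, T.Adj u v → φ v = φ u + 1 ∨ φ u = φ v + 1) → (∀ v, 0 ≤ φ v ∧ φ v ≤ m) →
    (∀ x y x' y', T.Adj x y → T.Adj x' y' → φ y = φ x + 1 → φ y' = φ x' + 1 → φ x = φ x' →
      ∃ g : G, g • x = x' ∧ g • y = y') → P G := by
  intro m
  induction m with
  | zero =>
    intro G V _ _ T h φ _ h1 h0 _
    refine single hP h fun u v huv => ?_
    have a := h0 u
    have b := h0 v
    rcases h1 u v huv with h2 | h2 <;> push_cast at a b <;> omega
  | succ m ih =>
    intro G V _ _ T h φ hφ h1 h0 htr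
    by_cases hex : ∃ u w, T.Adj u w ∧ φ w = m + 1
    · obtain ⟨u, w, huw, hw⟩ := hex
      have hu : φ u = m := by
        have a := h0 u
        rcases h1 u w huw with h2 | h2
        · omega
        · push_cast at a
          omega
      let F : SimpleGraph V :=
        { Adj := fun x y => T.Adj x y ∧ φ x ≤ m ∧ φ y ≤ m
          symm := ⟨fun x y h => ⟨h.1.symm, h.2.2, h.2.1⟩⟩
          loopless := ⟨fun x h => T.loopless.irrefl x h.1⟩ }
      have hF : Inv G F := by
        rintro g x y ⟨h2, h3, h4⟩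
        refine ⟨h.adj g x y h2, ?_, ?_⟩
        · rw [hφ]; exact h3
        · rw [hφ]; exact h4
      have hle : F ≤ T := fun x y h => h.1
      have htop : ∀ x y, φ y = m + 1 → F.Reachable x y → x = y := by
        intro x y hy hr
        by_contra hne
        obtain ⟨v', -, -, h2⟩ := last_adj hr hne
        omega
      refine collapse_two hP h hF hle huw ?_ ?_ ?_ ?_ ?_
      · intro hr
        have := htop _ _ hw hr
        rw [this] at hu
        omega
      · intro x y hxy hn
        have h2 : ¬ (φ x ≤ m ∧ φ y ≤ m) := fun h2 => hn (Adj.reachable ⟨hxy, h2⟩)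
        have a := h0 x
        have b := h0 y
        push_cast at a b
        rcases h1 x y hxy with h3 | h3
        · obtain ⟨g, h4, h5⟩ := htr u w x y huw hxy (by omega) h3 (by omega)
          exact ⟨g, Or.inl ⟨h4, h5⟩⟩
        · obtain ⟨g, h4, h5⟩ := htr u w y x huw hxy.symm (by omega) h3 (by omega)
          exact ⟨g, Or.inr ⟨h4, h5⟩⟩
      · intro g hg
        have h2 := htop _ _ hw hg
        have h3 := hφ g u
        rw [h2] at h3
        omega
      · refine ih (h.sub hP hF hle u) (fun v => φ v.1) (fun g v => hφ (g : G) v.1)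
          (fun x y hxy => h1 x.1 y.1 (hle hxy)) (fun v => ⟨(h0 v.1).1, ?_⟩) ?_
        · by_cases hne : u = v.1
          · rw [← hne, hu]
          · obtain ⟨v', -, -, h2⟩ := last_adj v.2 hne
            exact h2
        · intro x y x' y' hxy hxy' h2 h3 h4
          obtain ⟨g, h5, h6⟩ := htr x.1 y.1 x'.1 y'.1 (hle hxy) (hle hxy') h2 h3 h4
          exact ⟨⟨g, mem_st_of_reach x.2 x'.2 (by rw [h5])⟩, Subtype.ext h5, Subtype.ext h6⟩
      · have h2 : st hF w = MulAction.stabilizer G w := by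
          ext g
          rw [mem_st, MulAction.mem_stabilizer_iff]
          constructor
          · intro h3
            exact (htop _ _ (by rw [hφ, hw]) h3).symm
          · intro h3
            rw [h3]
        rw [h2]
        exact h.vert w
    · by_cases hed : ∀ u v, ¬ T.Adj u v
      · exact single hP h hed
      · push Not at hed
        obtain ⟨x, y, hxy⟩ := hed
        refine ih h φ hφ h1 (fun v => ⟨(h0 v).1, ?_⟩) htr
        obtain ⟨v', hv'⟩ := exists_adj_of_adj h.tree.connected hxy v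
        have a := (h0 v).2
        push_cast at a
        by_contra h2
        exact hex ⟨v', v, hv', by omega⟩

/-- The subgraph of edges with bounded heights. -/
def band {V : Type} (T : SimpleGraph V) (φ : V → ℤ) (k : ℕ) : SimpleGraph V where
  Adj x y := T.Adj x y ∧ |φ x| ≤ k ∧ |φ y| ≤ k
  symm := ⟨fun x y h => ⟨h.1.symm, h.2.2, h.2.1⟩⟩
  loopless := ⟨fun x h => T.loopless.irrefl x h.1⟩

theorem band_mono {V : Type} (T : SimpleGraph V) (φ : V → ℤ) {k l : ℕ} (h : k ≤ l) :
    band T φ k ≤ band T φ l := by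
  rintro x y ⟨h1, h2, h3⟩
  have : (k : ℤ) ≤ l := by exact_mod_cast h
  exact ⟨h1, h2.trans this, h3.trans this⟩

theorem exists_band {V : Type} {T : SimpleGraph V} (φ : V → ℤ) {x y : V} (p : T.Walk x y) :
    ∃ k, (band T φ k).Reachable x y := by
  induction p with
  | nil => exact ⟨0, Reachable.refl _⟩
  | @cons x y z h p ih =>
    obtain ⟨k, hk⟩ := ih
    let l := max k (max |φ x|.toNat |φ y|.toNat)
    refine ⟨l, Reachable.trans (Adj.reachable ⟨h, ?_, ?_⟩)
      (hk.mono (band_mono T φ (le_max_left _ _)))⟩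
    · have h1 : |φ x|.toNat ≤ l := (le_max_left _ _).trans (le_max_right _ _)
      have h2 := Int.toNat_of_nonneg (abs_nonneg (φ x))
      omega
    · have h1 : |φ y|.toNat ≤ l := (le_max_right _ _).trans (le_max_right _ _)
      have h2 := Int.toNat_of_nonneg (abs_nonneg (φ y))
      omega

/-- One orbit of edges. -/
theorem one_orbit (hP : Closed P Ed) {G V : Type} [Group G] [MulAction G V] {T : SimpleGraph V}
    (h : Act P Ed G T) (hinv : NoInv G T) {u w : V}
    (htr : ∀ x y, T.Adj x y → ∃ g : G, (g • u = x ∧ g • w = y) ∨ (g • u = y ∧ g • w = x)) :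
    P G := by
  classical
  obtain ⟨v₀⟩ := h.tree.connected.nonempty
  let L : V → V → Multiplicative ℤ := fun x y =>
    if ∃ g : G, g • u = x ∧ g • w = y then Multiplicative.ofAdd 1 else Multiplicative.ofAdd (-1)
  have hL1 : ∀ x y, (∃ g : G, g • u = x ∧ g • w = y) → L x y = Multiplicative.ofAdd 1 :=
    fun x y h => if_pos h
  have hL2 : ∀ x y, T.Adj x y → (∃ g : G, g • u = y ∧ g • w = x) →
      L x y = Multiplicative.ofAdd (-1) := by
    rintro x y hxy ⟨g, h1, h2⟩
    refine if_neg ?_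
    rintro ⟨g', h3, h4⟩
    refine hinv (g' * g⁻¹) y x hxy.symm ?_ ?_
    · rw [mul_smul, ← h1, inv_smul_smul, h3]
    · rw [mul_smul, ← h2, inv_smul_smul, h4]
  have hL : ∀ x y, T.Adj x y → L y x = (L x y)⁻¹ := by
    intro x y hxy
    obtain ⟨g, h1 | h1⟩ := htr x y hxy
    · rw [hL1 x y ⟨g, h1⟩, hL2 y x hxy.symm ⟨g, h1⟩]
      rfl
    · rw [hL2 x y hxy ⟨g, h1⟩, hL1 y x ⟨g, h1⟩]
      rfl
  obtain ⟨φ, Φ, h0, hφ, -, hΦ⟩ := FJ.exists_rec (G := G) (M := Multiplicative ℤ) h.tree h.adj L hL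
    (fun _ _ => 1) (fun _ _ _ => (one_mul 1).symm) (by
      intro g x y hxy
      rw [one_mul, inv_one, mul_one]
      obtain ⟨g', h1 | h1⟩ := htr x y hxy
      · rw [hL1 x y ⟨g', h1⟩, hL1 _ _ ⟨g * g', by rw [mul_smul, h1.1], by rw [mul_smul, h1.2]⟩]
      · rw [hL2 x y hxy ⟨g', h1⟩, hL2 _ _ (h.adj g _ _ hxy)
          ⟨g * g', by rw [mul_smul, h1.1], by rw [mul_smul, h1.2]⟩]) v₀
  have hΦ' : ∀ (g : G) v, φ (g • v) = Φ g * φ v := fun g v => by
    have := hΦ g v
    rwa [mul_one] at this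
  let ht : V → ℤ := fun v => Multiplicative.toAdd (φ v)
  have hht : ∀ x y, T.Adj x y →
      (ht y = ht x + 1 ∧ ∃ g : G, g • u = x ∧ g • w = y) ∨
      (ht x = ht y + 1 ∧ ∃ g : G, g • u = y ∧ g • w = x) := by
    intro x y hxy
    have h1 := hφ x y hxy
    obtain ⟨g, h2 | h2⟩ := htr x y hxy
    · left
      rw [hL1 x y ⟨g, h2⟩] at h1
      exact ⟨congrArg Multiplicative.toAdd h1, g, h2⟩
    · right
      rw [hL2 x y hxy ⟨g, h2⟩] at h1
      have h3 : ht y = ht x + (-1) := congrArg Multiplicative.toAdd h1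
      exact ⟨by omega, g, h2⟩
  refine hP.extZ h hinv Φ ?_
  -- the kernel
  have hker : ∀ v : V, MulAction.stabilizer G v ≤ Φ.ker := by
    intro v g hg
    have h1 := hΦ' g v
    rw [show g • v = v from hg] at h1
    exact (mul_eq_right (b := φ v)).1 h1.symm
  have hN : Act P Ed Φ.ker T :=
    { tree := h.tree
      adj := fun g => h.adj (g : G)
      vert := fun v => hP.equiv (subEquiv _ _ (hker v) fun x => Iff.rfl) (h.vert v)
      edge := fun u v huv => hP.edEquiv (subEquiv _ _ (inf_le_left.trans (hker u)) fun x =>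
        Iff.rfl) (h.edge u v huv) }
  have hhtN : ∀ (n : Φ.ker) v, ht (n • v) = ht v := by
    intro n v
    have h1 := hΦ' (n : G) v
    rw [show Φ (n : G) = 1 from n.2, one_mul] at h1
    exact congrArg Multiplicative.toAdd h1
  have hb : ∀ k, Inv Φ.ker (band T ht k) := by
    rintro k g x y ⟨h1, h2, h3⟩
    refine ⟨h.adj (g : G) x y h1, ?_, ?_⟩
    · rw [hhtN]; exact h2
    · rw [hhtN]; exact h3
  refine hP.union (fun k : ℕ => st (hb k) v₀) ?_ ?_ ?_
  · intro i j
    refine ⟨max i j, fun g hg => ?_, fun g hg => ?_⟩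
    · exact Reachable.mono (band_mono T ht (le_max_left i j)) hg
    · exact Reachable.mono (band_mono T ht (le_max_right i j)) hg
  · intro g
    obtain ⟨p⟩ := h.tree.connected.preconnected v₀ (g • v₀)
    exact exists_band ht p
  · intro k
    have hle : band T ht k ≤ T := fun x y h => h.1
    have hbd : ∀ v : Wt (band T ht k) v₀, |ht v.1| ≤ k := by
      intro v
      by_cases hne : v₀ = v.1
      · have h1 : ht v₀ = 0 := congrArg Multiplicative.toAdd h0
        rw [← hne, h1]
        simp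
      · obtain ⟨v', -, -, h2⟩ := last_adj v.2 hne
        exact h2
    refine levels hP (2 * k) (hN.sub hP (hb k) hle v₀) (fun v => ht v.1 + k) ?_ ?_ ?_ ?_
    · intro g v
      show ht ((g : Φ.ker) • v.1) + k = ht v.1 + k
      rw [hhtN]
    · intro x y hxy
      show ht y.1 + k = ht x.1 + k + 1 ∨ ht x.1 + k = ht y.1 + k + 1
      rcases hht x.1 y.1 hxy.1 with ⟨h1, -⟩ | ⟨h1, -⟩ <;> omega
    · intro v
      have h1 := abs_le.1 (hbd v)
      push_cast
      constructor <;> omega
    · intro x y x' y' hxy hxy' h1 h2 h3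
      have h4 : ∃ g : G, g • u = x.1 ∧ g • w = y.1 := by
        rcases hht x.1 y.1 hxy.1 with ⟨-, h4⟩ | ⟨h4, -⟩
        · exact h4
        · omega
      have h5 : ∃ g : G, g • u = x'.1 ∧ g • w = y'.1 := by
        rcases hht x'.1 y'.1 hxy'.1 with ⟨-, h5⟩ | ⟨h5, -⟩
        · exact h5
        · omega
      obtain ⟨g, hg1, hg2⟩ := h4
      obtain ⟨g', hg3, hg4⟩ := h5
      have h6 : (g' * g⁻¹) • x.1 = x'.1 := by rw [mul_smul, ← hg1, inv_smul_smul, hg3]
      have h7 : (g' * g⁻¹) • y.1 = y'.1 := by rw [mul_smul, ← hg2, inv_smul_smul, hg4]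
      have h8 : g' * g⁻¹ ∈ Φ.ker := by
        have h9 := hΦ' (g' * g⁻¹) x.1
        rw [h6] at h9
        have h10 : φ x.1 = φ x'.1 := by
          apply Multiplicative.toAdd.injective
          show ht x.1 = ht x'.1
          omega
        rw [h10] at h9
        exact (mul_eq_right (b := φ x'.1)).1 h9.symm
      refine ⟨⟨⟨g' * g⁻¹, h8⟩, ?_⟩, Subtype.ext h6, Subtype.ext h7⟩
      refine mem_st_of_reach x.2 x'.2 ?_
      show (band T ht k).Reachable ((g' * g⁻¹) • x.1) x'.1
      rw [h6]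

/-- Collapsing components. -/
theorem Act.coll (hP : Closed P Ed) {G V : Type} [Group G] [MulAction G V] {T : SimpleGraph V}
    (h : Act P Ed G T) {F : SimpleGraph V} (hF : Inv G F) (hle : F ≤ T)
    (hst : ∀ v, P (st hF v)) :
    letI := compAct hF
    Act P Ed G (TreeCl.coll T F) := by
  letI := compAct hF
  have hsm : ∀ (g : G) (v : V), g • F.connectedComponentMk v = F.connectedComponentMk (g • v) :=
    fun g v => rfl
  have hst' : ∀ v : V, MulAction.stabilizer G (F.connectedComponentMk v) = st hF v := by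
    intro v
    ext g
    rw [MulAction.mem_stabilizer_iff, hsm, ConnectedComponent.eq]
    exact ⟨Reachable.symm, Reachable.symm⟩
  refine ⟨⟨coll_connected h.tree.connected, coll_acyclic h.tree.isAcyclic hle⟩, ?_, ?_, ?_⟩
  · rintro g c d ⟨hcd, x, y, rfl, rfl, hxy⟩
    refine ⟨fun he => hcd ?_, g • x, g • y, rfl, rfl, h.adj g x y hxy⟩
    exact MulAction.injective g he
  · intro c
    induction c using ConnectedComponent.ind with
    | _ v => rw [hst']; exact hst v
  · rintro c d ⟨hcd, u, w, rfl, rfl, huw⟩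
    have hn : ¬ F.Reachable u w := fun h1 => hcd (ConnectedComponent.sound h1)
    have h1 : (MulAction.stabilizer G (F.connectedComponentMk u) ⊓
        MulAction.stabilizer G (F.connectedComponentMk w) : Subgroup G) =
        MulAction.stabilizer G u ⊓ MulAction.stabilizer G w := by
      rw [hst', hst']
      ext g
      rw [Subgroup.mem_inf, Subgroup.mem_inf, mem_st, mem_st, MulAction.mem_stabilizer_iff,
        MulAction.mem_stabilizer_iff]
      constructor
      · rintro ⟨h2, h3⟩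
        exact edge_unique h.tree.isAcyclic hle huw (h.adj g _ _ huw) hn h2 h3
      · rintro ⟨h2, h3⟩
        rw [h2, h3]
        exact ⟨Reachable.refl _, Reachable.refl _⟩
    rw [h1]
    exact h.edge u w huw

theorem NoInv.coll {G V : Type} [Group G] [MulAction G V] {T : SimpleGraph V}
    (hT : T.IsAcyclic) (hadj : Inv G T) (h : NoInv G T) {F : SimpleGraph V} (hF : Inv G F)
    (hle : F ≤ T) :
    letI := compAct hF
    NoInv G (TreeCl.coll T F) := by
  letI := compAct hF
  rintro g c d ⟨hcd, u, w, rfl, rfl, huw⟩ h1 h2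
  have hn : ¬ F.Reachable u w := fun h1 => hcd (ConnectedComponent.sound h1)
  have h1' : F.Reachable (g • u) w := ConnectedComponent.exact h1
  have h2' : F.Reachable (g • w) u := ConnectedComponent.exact h2
  obtain ⟨h3, h4⟩ := edge_unique hT hle huw (hadj g _ _ huw).symm hn h2'.symm h1'.symm
  exact h g u w huw h4 h3

/-- `L` contains a representative of each orbit of edges. -/
def Cov (G : Type) [Group G] {V : Type} [MulAction G V] (T : SimpleGraph V) (L : List (V × V)) :
    Prop :=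
  ∀ x y, T.Adj x y → ∃ e ∈ L, ∃ g : G, (g • e.1 = x ∧ g • e.2 = y) ∨ (g • e.1 = y ∧ g • e.2 = x)

theorem Cov.sub {G V : Type} [Group G] [MulAction G V] {F : SimpleGraph V} (hF : Inv G F)
    {L : List (V × V)} (h : Cov G F L) (v₀ : V) :
    ∃ L' : List (Wt F v₀ × Wt F v₀), L'.length ≤ L.length ∧ Cov (st hF v₀) (gWt F v₀) L' := by
  classical
  let r : V × V → Option (Wt F v₀ × Wt F v₀) := fun e =>
    if h : ∃ a : Wt F v₀ × Wt F v₀, ∃ g : G, g • e.1 = a.1.1 ∧ g • e.2 = a.2.1 then
      some h.choose else none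
  refine ⟨L.filterMap r, List.length_filterMap_le _ _, ?_⟩
  intro x y hxy
  obtain ⟨e, he, g, hg⟩ := h x.1 y.1 hxy
  have hex : ∃ a : Wt F v₀ × Wt F v₀, ∃ g : G, g • e.1 = a.1.1 ∧ g • e.2 = a.2.1 := by
    rcases hg with hg | hg
    · exact ⟨(x, y), g, hg⟩
    · exact ⟨(y, x), g, hg⟩
  refine ⟨hex.choose, List.mem_filterMap.2 ⟨e, he, dif_pos hex⟩, ?_⟩
  obtain ⟨g', h1, h2⟩ := hex.choose_spec
  set a := hex.choose with ha
  rcases hg with ⟨hg1, hg2⟩ | ⟨hg1, hg2⟩
  · have h3 : (g * g'⁻¹) • a.1.1 = x.1 := by rw [mul_smul, ← h1, inv_smul_smul, hg1]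
    have h4 : (g * g'⁻¹) • a.2.1 = y.1 := by rw [mul_smul, ← h2, inv_smul_smul, hg2]
    exact ⟨⟨g * g'⁻¹, mem_st_of_reach a.1.2 x.2 (by rw [h3])⟩,
      Or.inl ⟨Subtype.ext h3, Subtype.ext h4⟩⟩
  · have h3 : (g * g'⁻¹) • a.1.1 = y.1 := by rw [mul_smul, ← h1, inv_smul_smul, hg1]
    have h4 : (g * g'⁻¹) • a.2.1 = x.1 := by rw [mul_smul, ← h2, inv_smul_smul, hg2]
    exact ⟨⟨g * g'⁻¹, mem_st_of_reach a.1.2 y.2 (by rw [h3])⟩,
      Or.inr ⟨Subtype.ext h3, Subtype.ext h4⟩⟩

theorem NoInv.sub {G V : Type} [Group G] [MulAction G V] {T : SimpleGraph V} (h : NoInv G T)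
    {F : SimpleGraph V} (hF : Inv G F) (hle : F ≤ T) (v₀ : V) :
    NoInv (st hF v₀) (gWt F v₀) := by
  intro g u v huv h1 h2
  exact h g u.1 v.1 (hle huv) (congrArg Subtype.val h1) (congrArg Subtype.val h2)

/-- Finitely many orbits of edges. -/
theorem finite_orbits (hP : Closed P Ed) : ∀ (n : ℕ) {G V : Type} [Group G] [MulAction G V]
    {T : SimpleGraph V}, Act P Ed G T → NoInv G T → ∀ L : List (V × V), L.length ≤ n →
    Cov G T L → P G := by
  intro n
  induction n with
  | zero =>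
    intro G V _ _ T h _ L hL hc
    refine single hP h fun u v huv => ?_
    obtain ⟨e, he, -⟩ := hc u v huv
    rw [List.length_eq_zero_iff.1 (Nat.le_zero.1 hL)] at he
    exact absurd he (List.not_mem_nil)
  | succ n ih =>
    intro G V _ _ T h hinv L hL hc
    classical
    by_cases hed : ∀ u v, ¬ T.Adj u v
    · exact single hP h hed
    push Not at hed
    obtain ⟨u, w, huw⟩ := hed
    let R : V → V → Prop := fun x y =>
      ∃ g : G, (g • u = x ∧ g • w = y) ∨ (g • u = y ∧ g • w = x)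
    have hR : ∀ (k : G) x y, R x y → R (k • x) (k • y) := by
      rintro k x y ⟨g, ⟨h1, h2⟩ | ⟨h1, h2⟩⟩
      · exact ⟨k * g, Or.inl ⟨by rw [mul_smul, h1], by rw [mul_smul, h2]⟩⟩
      · exact ⟨k * g, Or.inr ⟨by rw [mul_smul, h1], by rw [mul_smul, h2]⟩⟩
    have hRs : ∀ x y, R x y → R y x := fun x y ⟨g, h⟩ => ⟨g, h.symm⟩
    let F : SimpleGraph V :=
      { Adj := fun x y => T.Adj x y ∧ ¬ R x y
        symm := ⟨fun x y h => ⟨h.1.symm, fun h1 => h.2 (hRs _ _ h1)⟩⟩
        loopless := ⟨fun x h => T.loopless.irrefl x h.1⟩ }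
    have hF : Inv G F := by
      rintro g x y ⟨h1, h2⟩
      refine ⟨h.adj g x y h1, fun h3 => h2 ?_⟩
      have := hR g⁻¹ _ _ h3
      rwa [inv_smul_smul, inv_smul_smul] at this
    have hle : F ≤ T := fun x y h => h.1
    let L' := L.filter (fun e => decide (¬ R e.1 e.2))
    have hL' : L'.length ≤ n := by
      obtain ⟨e, he, g, hg⟩ := hc u w huw
      have h1 : R e.1 e.2 := by
        rcases hg with ⟨h1, h2⟩ | ⟨h1, h2⟩
        · exact ⟨g⁻¹, Or.inl ⟨by rw [← h1, inv_smul_smul], by rw [← h2, inv_smul_smul]⟩⟩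
        · exact ⟨g⁻¹, Or.inr ⟨by rw [← h2, inv_smul_smul], by rw [← h1, inv_smul_smul]⟩⟩
      have h2 : L'.length < L.length := by
        refine List.length_filter_lt_length_iff_exists.2 ⟨e, he, ?_⟩
        simp [h1]
      omega
    have hc' : Cov G F L' := by
      rintro x y ⟨h1, h2⟩
      obtain ⟨e, he, g, hg⟩ := hc x y h1
      refine ⟨e, List.mem_filter.2 ⟨he, ?_⟩, g, hg⟩
      rw [decide_eq_true_eq]
      intro h3
      apply h2
      have h4 := hR g _ _ h3
      rcases hg with ⟨h5, h6⟩ | ⟨h5, h6⟩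
      · rwa [h5, h6] at h4
      · rw [h5, h6] at h4
        exact hRs _ _ h4
    have hst : ∀ v, P (st hF v) := by
      intro v
      obtain ⟨L'', h1, h2⟩ := hc'.sub hF v
      exact ih (h.sub hP hF hle v) (hinv.sub hF hle v) L'' (h1.trans hL') h2
    letI := compAct hF
    refine one_orbit hP (h.coll hP hF hle hst) (hinv.coll h.tree.isAcyclic h.adj hF hle)
      (u := F.connectedComponentMk u) (w := F.connectedComponentMk w) ?_
    rintro c d ⟨hcd, x, y, rfl, rfl, hxy⟩
    have hn : ¬ F.Reachable x y := fun h1 => hcd (ConnectedComponent.sound h1)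
    have h1 : R x y := by
      by_contra h1
      exact hn (Adj.reachable ⟨hxy, h1⟩)
    obtain ⟨g, ⟨h2, h3⟩ | ⟨h2, h3⟩⟩ := h1
    · refine ⟨g, Or.inl ⟨?_, ?_⟩⟩
      · show F.connectedComponentMk (g • u) = _
        rw [h2]
      · show F.connectedComponentMk (g • w) = _
        rw [h3]
    · refine ⟨g, Or.inr ⟨?_, ?_⟩⟩
      · show F.connectedComponentMk (g • u) = _
        rw [h2]
      · show F.connectedComponentMk (g • w) = _
        rw [h3]

/-- **Groups acting on trees.** -/
theorem tree_mem (hP : Closed P Ed) {G V : Type} [Group G] [MulAction G V]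
    {T : SimpleGraph V} (h : Act P Ed G T) (hinv : NoInv G T) : P G := by
  classical
  obtain ⟨v₀⟩ := h.tree.connected.nonempty
  let F : Finset (V × V) → SimpleGraph V := fun E => FJ.subG G T (E : Set (V × V))
  have hF : ∀ E, Inv G (F E) := fun E g u v h1 => FJ.subG_smul T h.adj _ g h1
  have hle : ∀ E, F E ≤ T := fun E => FJ.subG_le T _
  have hmono : ∀ {E E' : Finset (V × V)}, E ⊆ E' → F E ≤ F E' := by
    rintro E E' hE x y ⟨h1, g, e, he, h2⟩
    exact ⟨h1, g, e, hE he, h2⟩
  refine hP.union (fun E => st (hF E) v₀) ?_ ?_ ?_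
  · intro E E'
    refine ⟨E ∪ E', fun g hg => ?_, fun g hg => ?_⟩
    · exact Reachable.mono (hmono Finset.subset_union_left) hg
    · exact Reachable.mono (hmono Finset.subset_union_right) hg
  · intro g
    obtain ⟨p⟩ := h.tree.connected.preconnected v₀ (g • v₀)
    refine ⟨(FJ.walkPairs p).toFinset, ?_⟩
    exact FJ.reachable_subG _ p fun e he => Finset.mem_coe.2 (List.mem_toFinset.2 he)
  · intro E
    have hc : Cov G (F E) E.toList := by
      rintro x y ⟨-, g, e, he, h1 | h1⟩
      · exact ⟨e, Finset.mem_toList.2 he, g, Or.inl ⟨congrArg Prod.fst h1, congrArg Prod.snd h1⟩⟩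
      · exact ⟨e, Finset.mem_toList.2 he, g, Or.inr ⟨congrArg Prod.fst h1, congrArg Prod.snd h1⟩⟩
    obtain ⟨L, -, hL⟩ := hc.sub (hF E) v₀
    exact finite_orbits hP L.length (h.sub hP (hF E) (hle E) v₀) (hinv.sub (hF E) (hle E) v₀) L
      le_rfl hL

end Pool.Agent.TreeCl
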