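import Pool.Agent.Lib.MP_98022b_ab.Lin
import Pool.Agent.Lib.MP_98022b_ab.TreeMem

/-!
# Affine actions of a group acting on a tree, from affine actions of the vertex stabilizers
-/

set_option autoImplicit false

namespace Pool.Agent.Biset



variable {M V W : Type} [Group M] [MulAction M V] [AddCommGroup W] [Module ℚ W]

/-- `b` is a cocycle on the subgroup `D`. -/
def Coc (ρ : M →* (W ≃ₗ[ℚ] W)) (D : Subgroup M) (b : M → W) : Prop :=
  ∀ x ∈ D, ∀ y ∈ D, b (x * y) = b x + ρ x (b y)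

section

variable {ρ : M →* (W ≃ₗ[ℚ] W)}

theorem rho_mul (x y : M) (w : W) : ρ (x * y) w = ρ x (ρ y w) := by
  rw [map_mul]
  rfl

theorem rho_one (w : W) : ρ 1 w = w := by
  rw [map_one]
  rfl

theorem rho_inv_cancel (x : M) (w : W) : ρ x⁻¹ (ρ x w) = w := by
  rw [← rho_mul, inv_mul_cancel, rho_one]

theorem rho_cancel_inv (x : M) (w : W) : ρ x (ρ x⁻¹ w) = w := by
  rw [← rho_mul, mul_inv_cancel, rho_one]

theorem Coc.one {D : Subgroup M} {b : M → W} (h : Coc ρ D b) : b 1 = 0 := by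
  have h1 := h 1 D.one_mem 1 D.one_mem
  rw [mul_one, rho_one] at h1
  exact left_eq_add.1 h1

/-- Cocycles of the stabilizers give a cocycle on the set of vertices. -/
theorem exists_beta (C : V → (M → W) → Prop)
    (hC : ∀ v b, C v b → Coc ρ (MulAction.stabilizer M v) b) (hne : ∀ v, ∃ b, C v b)
    (heq : ∀ v b (g : M), C v b → C (g • v) (fun x => ρ g (b (g⁻¹ * x * g)))) :
    ∃ β : M → V → W, (∀ g h v, β (g * h) v = β g (h • v) + ρ g (β h v)) ∧
      ∀ v, ∃ b, C v b ∧ ∀ g : M, g • v = v → β g v = b g := by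
  choose b hb using hne
  let m : M → V → M := fun g v => (FJ.tau M (g • v))⁻¹ * g * FJ.tau M v
  have hm : ∀ g v, m g v • FJ.rp M v = FJ.rp M v := by
    intro g v
    show ((FJ.tau M (g • v))⁻¹ * g * FJ.tau M v) • FJ.rp M v = FJ.rp M v
    rw [mul_smul, mul_smul, FJ.tau_smul, FJ.tau_inv_smul, FJ.rp_smul]
  have hmul : ∀ g h v, m (g * h) v = m g (h • v) * m h v := by
    intro g h v
    show (FJ.tau M ((g * h) • v))⁻¹ * (g * h) * FJ.tau M v =
      (FJ.tau M (g • h • v))⁻¹ * g * FJ.tau M (h • v) * ((FJ.tau M (h • v))⁻¹ * h * FJ.tau M v)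
    rw [mul_smul]
    group
  refine ⟨fun g v => ρ (FJ.tau M (g • v)) (b (FJ.rp M v) (m g v)), ?_, ?_⟩
  · intro g h v
    show ρ (FJ.tau M ((g * h) • v)) (b (FJ.rp M v) (m (g * h) v)) =
      ρ (FJ.tau M (g • h • v)) (b (FJ.rp M (h • v)) (m g (h • v))) +
        ρ g (ρ (FJ.tau M (h • v)) (b (FJ.rp M v) (m h v)))
    rw [FJ.rp_smul, hmul, hC _ _ (hb (FJ.rp M v)) _ ?_ _ (hm h v), map_add, mul_smul, ← rho_mul,
      ← rho_mul]
    · have h9 : FJ.tau M (g • h • v) * m g (h • v) = g * FJ.tau M (h • v) := by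
        show FJ.tau M (g • h • v) * ((FJ.tau M (g • h • v))⁻¹ * g * FJ.tau M (h • v)) = _
        group
      rw [h9]
    · have := hm g (h • v)
      rw [FJ.rp_smul] at this
      exact this
  · intro v
    refine ⟨fun x => ρ (FJ.tau M v) (b (FJ.rp M v) ((FJ.tau M v)⁻¹ * x * FJ.tau M v)), ?_, ?_⟩
    · have := heq (FJ.rp M v) (b (FJ.rp M v)) (FJ.tau M v) (hb _)
      rw [FJ.tau_smul] at this
      exact this
    · intro g hg
      show ρ (FJ.tau M (g • v)) (b (FJ.rp M v) ((FJ.tau M (g • v))⁻¹ * g * FJ.tau M v)) = _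
      rw [hg]

/-- Equivariant choice of the labels of the edges. -/
theorem exists_label {T : SimpleGraph V}
    (hadj : ∀ (g : M) (u v : V), T.Adj u v → T.Adj (g • u) (g • v))
    (hinv : TreeCl.NoInv M T) (β : M → V → W)
    (hβ : ∀ g h v, β (g * h) v = β g (h • v) + ρ g (β h v))
    (hloc : ∀ u v, T.Adj u v → ∃ w, ∀ g : M, g • u = u → g • v = v →
      β g u - β g v = w - ρ g w) :
    ∃ L : V → V → W, (∀ u v, T.Adj u v → L v u = -L u v) ∧
      ∀ (g : M) u v, T.Adj u v → L (g • u) (g • v) = β g u + ρ g (L u v) - β g v := by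
  classical
  have hloc' : ∀ e : V × V, ∃ w : W, T.Adj e.1 e.2 → ∀ g : M, g • e.1 = e.1 → g • e.2 = e.2 →
      β g e.1 - β g e.2 = w - ρ g w := by
    intro e
    by_cases he : T.Adj e.1 e.2
    · obtain ⟨w, hw⟩ := hloc e.1 e.2 he
      exact ⟨w, fun _ => hw⟩
    · exact ⟨0, fun h => absurd h he⟩
  choose w hw using hloc'
  let τ : V × V → M := fun e => FJ.tau M e
  let r : V × V → V × V := fun e => FJ.rp M e
  let L₀ : V × V → W := fun e => β (τ e) (r e).1 + ρ (τ e) (w (r e)) - β (τ e) (r e).2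
  have hτ : ∀ e, τ e • r e = e := fun e => FJ.tau_smul e
  have hr : ∀ (g : M) e, r (g • e) = r e := fun g e => FJ.rp_smul g e
  have hradj : ∀ e : V × V, T.Adj e.1 e.2 → T.Adj (r e).1 (r e).2 := by
    intro e he
    have h1 := hadj (τ e)⁻¹ _ _ he
    have h2 : (τ e)⁻¹ • e = r e := by rw [inv_smul_eq_iff, hτ]
    have h3 : ((τ e)⁻¹ • e.1, (τ e)⁻¹ • e.2) = r e := h2
    rw [← h3]
    exact h1
  have hL₀ : ∀ (g : M) (e : V × V), T.Adj e.1 e.2 →
      L₀ (g • e) = β g e.1 + ρ g (L₀ e) - β g e.2 := by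
    intro g e he
    set σ := τ (g • e) with hσ
    set t := τ e with ht
    set m : M := σ⁻¹ * g * t with hm
    have hmr : m • r e = r e := by
      have h1 : t • r e = e := hτ e
      have h2 : σ • r e = g • e := by
        have := hτ (g • e)
        rwa [hr] at this
      rw [hm, mul_smul, mul_smul, h1, inv_smul_eq_iff, h2]
    have hm1 : m • (r e).1 = (r e).1 := congrArg Prod.fst hmr
    have hm2 : m • (r e).2 = (r e).2 := congrArg Prod.snd hmr
    have h3 := hw (r e) (hradj e he) m hm1 hm2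
    have hgt : g * t = σ * m := by rw [hm]; group
    have he1 : t • (r e).1 = e.1 := congrArg Prod.fst (hτ e)
    have he2 : t • (r e).2 = e.2 := congrArg Prod.snd (hτ e)
    have h4 : β g e.1 + ρ g (β t (r e).1) = β σ (r e).1 + ρ σ (β m (r e).1) := by
      have a := hβ g t (r e).1
      have b := hβ σ m (r e).1
      rw [he1] at a
      rw [hm1] at b
      rw [← a, ← b, hgt]
    have h5 : β g e.2 + ρ g (β t (r e).2) = β σ (r e).2 + ρ σ (β m (r e).2) := by
      have a := hβ g t (r e).2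
      have b := hβ σ m (r e).2
      rw [he2] at a
      rw [hm2] at b
      rw [← a, ← b, hgt]
    have h6 : ρ g (ρ t (w (r e))) = ρ σ (ρ m (w (r e))) := by
      rw [← rho_mul, ← rho_mul, hgt]
    show β σ (r (g • e)).1 + ρ σ (w (r (g • e))) - β σ (r (g • e)).2 =
      β g e.1 + ρ g (β t (r e).1 + ρ t (w (r e)) - β t (r e).2) - β g e.2
    rw [hr, map_sub, map_add, h6]
    have h7 : β g e.1 + (ρ g (β t (r e).1) + ρ σ (ρ m (w (r e))) - ρ g (β t (r e).2)) - β g e.2 =
        (β g e.1 + ρ g (β t (r e).1)) + ρ σ (ρ m (w (r e))) -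
          (β g e.2 + ρ g (β t (r e).2)) := by abel
    rw [h7, h4, h5]
    have h8 : ρ σ (w (r e)) = ρ σ (β m (r e).1) - ρ σ (β m (r e).2) + ρ σ (ρ m (w (r e))) := by
      rw [← map_sub, h3, map_sub]
      abel
    rw [h8]
    abel
  let o : V → V → MulAction.orbitRel.Quotient M (V × V) := fun u v => FJ.cl M (u, v)
  have ho : ∀ (g : M) u v, o (g • u) (g • v) = o u v := fun g u v => FJ.cl_smul g (u, v)
  have hne : ∀ u v, T.Adj u v → o u v ≠ o v u := by
    intro u v huv h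
    have h1 : (MulAction.orbitRel M (V × V)).r (u, v) (v, u) := Quotient.exact h
    obtain ⟨g, hg⟩ := h1
    have h2 : g • v = u := congrArg Prod.fst hg
    have h3 : g • u = v := congrArg Prod.snd hg
    exact hinv g u v huv h3 h2
  let s : MulAction.orbitRel.Quotient M (V × V) → MulAction.orbitRel.Quotient M (V × V) → Prop :=
    WellOrderingRel
  refine ⟨fun u v => if s (o u v) (o v u) then L₀ (u, v) else -L₀ (v, u), ?_, ?_⟩
  · intro u v huv
    rcases trichotomous_of s (o u v) (o v u) with h | h | h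
    · have h' : ¬ s (o v u) (o u v) := fun h' => asymm_of s h h'
      simp only [if_pos h, if_neg h']
    · exact absurd h (hne u v huv)
    · have h' : ¬ s (o u v) (o v u) := fun h' => asymm_of s h h'
      simp only [if_pos h, if_neg h', neg_neg]
  · intro g u v huv
    simp only [ho]
    by_cases h : s (o u v) (o v u)
    · simp only [if_pos h]
      exact hL₀ g (u, v) huv
    · simp only [if_neg h]
      have h1 : L₀ (g • v, g • u) = β g v + ρ g (L₀ (v, u)) - β g u := hL₀ g (v, u) huv.symm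
      rw [h1, map_neg]
      abel

/-- **Affine actions.** -/
theorem exists_aff {T : SimpleGraph V} (hT : T.IsTree)
    (hadj : ∀ (g : M) (u v : V), T.Adj u v → T.Adj (g • u) (g • v))
    (hinv : TreeCl.NoInv M T) (ρ : M →* (W ≃ₗ[ℚ] W)) (C : V → (M → W) → Prop)
    (hC : ∀ v b, C v b → Coc ρ (MulAction.stabilizer M v) b) (hne : ∀ v, ∃ b, C v b)
    (heq : ∀ v b (g : M), C v b → C (g • v) (fun x => ρ g (b (g⁻¹ * x * g))))
    (hloc : ∀ u v, T.Adj u v → ∀ b b', C u b → C v b' → ∃ w, ∀ g : M, g • u = u → g • v = v →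
      b g - b' g = w - ρ g w) :
    ∃ Φ : M →* ((W × ℚ) ≃ₗ[ℚ] (W × ℚ)), ∀ v, ∃ b p, C v b ∧
      ∀ g : M, g • v = v → Φ g = aff (ρ g) (b g + p - ρ g p) := by
  obtain ⟨v₀⟩ := hT.connected.nonempty
  obtain ⟨β, hβ, hβ2⟩ := exists_beta C hC hne heq
  obtain ⟨L, hL1, hL2⟩ := exists_label hadj hinv β hβ (by
    intro u v huv
    obtain ⟨b, hb, hb2⟩ := hβ2 u
    obtain ⟨b', hb', hb2'⟩ := hβ2 v
    obtain ⟨w, hw⟩ := hloc u v huv b b' hb hb'
    exact ⟨w, fun g h1 h2 => by rw [hb2 g h1, hb2' g h2, hw g h1 h2]⟩)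
  obtain ⟨φ, Φ, h0, hφ, -, hΦ⟩ := FJ.exists_rec (G := M) (M := (W × ℚ) ≃ₗ[ℚ] (W × ℚ)) hT hadj
    (fun u v => aff 1 (L u v)) (by
      intro u v huv
      rw [eq_inv_iff_mul_eq_one, aff_mul, hL1 u v huv, mul_one]
      have : (1 : W ≃ₗ[ℚ] W) (L u v) + -L u v = 0 := add_neg_cancel (L u v)
      rw [this]
      exact (map_one (tau W)).symm ▸ rfl)
    (fun g v => aff (ρ g) (β g v)) (by
      intro g h v
      rw [aff_mul, hβ, map_mul, add_comm]) (by
      intro g u v huv
      rw [eq_mul_inv_iff_mul_eq, aff_mul, aff_mul, hL2 g u v huv, one_mul, mul_one]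
      congr 1
      show β g v + (β g u + ρ g (L u v) - β g v) = ρ g (L u v) + β g u
      abel) v₀
  have hp : ∀ v, ∃ p : W, φ v = aff 1 p := by
    intro v
    obtain ⟨q⟩ := hT.connected.preconnected v₀ v
    have key : ∀ {x y : V} (_ : T.Walk x y), (∃ p : W, φ x = aff 1 p) → ∃ p : W, φ y = aff 1 p := by
      intro x y q
      induction q with
      | nil => exact id
      | @cons x y z h _ ih =>
        rintro ⟨p, hp⟩
        apply ih
        refine ⟨L x y + p, ?_⟩
        rw [hφ x y h, hp, aff_mul, mul_one]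
        rfl
    refine key q ⟨0, ?_⟩
    rw [h0]
    exact (map_one (tau W)).symm
  refine ⟨Φ, fun v => ?_⟩
  obtain ⟨p, hp⟩ := hp v
  obtain ⟨b, hb, hb2⟩ := hβ2 v
  refine ⟨b, p, hb, fun g hg => ?_⟩
  have h1 := hΦ g v
  rw [hg, hb2 g hg, hp, ← mul_inv_eq_iff_eq_mul] at h1
  rw [← h1, mul_inv_eq_iff_eq_mul, aff_mul, aff_mul, one_mul, mul_one]
  congr 1
  show b g + p = ρ g p + (b g + p - ρ g p)
  abel

end

end Pool.Agent.Biset
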