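import Pool.Agent.Lib.MP_98022b_h66.Tree
import Pool.Agent.Lib.MP_140312_al_SG.BSTree

/-!
# Amalgams with a homomorphism that is injective on the amalgamated subgroup
-/

set_option autoImplicit false

namespace Pool.Agent.Biset

open Pool.Agent.Lib.MP_140312_al_SG

theorem altFree_mem {P : ∀ (G : Type) [Group G], Prop} (hP : FJ.IsFJClass P) {G Q : Type}
    [Group G] [Group Q] {A : Bool → Subgroup G} (hA : AltFree A) (hgen : A false ⊔ A true = ⊤)
    (hV : ∀ i, P (A i)) (f : G →* Q) (hQ : P Q)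
    (hf : ∀ g ∈ A false ⊓ A true, f g = 1 → g = 1) : P G := by
  have hst : ∀ (i : Bool) (a g : G), g • (⟨i, (a : G ⧸ A i)⟩ : Σ i : Bool, G ⧸ A i) =
      ⟨i, (a : G ⧸ A i)⟩ → a⁻¹ * g * a ∈ A i := by
    intro i a g h
    have h1 : ((g * a : G) : G ⧸ A i) = (a : G ⧸ A i) := by
      have h2 := (Sigma.mk.inj_iff.1 h).2
      exact eq_of_heq h2
    have h2 := (A i).inv_mem (QuotientGroup.eq.1 h1)
    have h3 : a⁻¹ * g * a = ((g * a)⁻¹ * a)⁻¹ := by group
    rw [h3]
    exact h2
  refine hP.tree_mem (T := BS A) (BS_isTree hA hgen) ?_ ?_ f hQ ?_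
  · rintro g u v ⟨h1, a, h2, h3⟩
    refine ⟨h1, g * a, ?_, ?_⟩
    · show g • u.2 = _
      rw [h2]
      rfl
    · show g • v.2 = _
      rw [h3]
      rfl
  · rintro ⟨i, x⟩
    induction x using QuotientGroup.induction_on with
    | H a =>
      refine hP.of_injective (H := A i)
        { toFun := fun g => ⟨a⁻¹ * (g : G) * a, hst i a g g.2⟩
          map_one' := by
            apply Subtype.ext
            show a⁻¹ * 1 * a = 1
            group
          map_mul' := fun g h => by
            apply Subtype.ext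
            show a⁻¹ * ((g : G) * (h : G)) * a = a⁻¹ * (g : G) * a * (a⁻¹ * (h : G) * a)
            group } ?_ (hV i)
      intro g h hgh
      apply Subtype.ext
      have h1 : a⁻¹ * (g : G) * a = a⁻¹ * (h : G) * a := congrArg Subtype.val hgh
      exact mul_left_cancel (mul_right_cancel h1)
  · rintro ⟨i, x⟩ ⟨j, y⟩ ⟨hij, a, hx, hy⟩ g hgx hgy hg
    have hx' : x = (a : G ⧸ A i) := hx
    have hy' : y = (a : G ⧸ A j) := hy
    subst hx' hy'
    have h1 := hst _ _ _ hgx
    have h2 := hst _ _ _ hgy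
    have h3 : a⁻¹ * g * a ∈ A false ⊓ A true := by
      have hij' : i ≠ j := hij
      cases i <;> cases j
      · exact absurd rfl hij'
      · exact ⟨h1, h2⟩
      · exact ⟨h2, h1⟩
      · exact absurd rfl hij'
    have h4 := hf _ h3 (by rw [map_mul, map_mul, hg, mul_one, ← map_mul, inv_mul_cancel, map_one])
    have h5 : g = a * (a⁻¹ * g * a) * a⁻¹ := by group
    rw [h5, h4]
    group

theorem amalgam_mem {P : ∀ (G : Type) [Group G], Prop} (hP : FJ.IsFJClass P) {H Q : Type}
    [Group H] [Group Q] {Γ : Bool → Type} [∀ i, Group (Γ i)] {φ : ∀ i, H →* Γ i}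
    (hφ : ∀ i, Function.Injective (φ i)) (hΓ : ∀ i, P (Γ i)) (hQ : P Q) {ι : H →* Q}
    (hι : Function.Injective ι) (r : ∀ i, Γ i →* Q) (hr : ∀ i h, r i (φ i h) = ι h) :
    P (Monoid.PushoutI φ) := by
  let f : Monoid.PushoutI φ →* Q := Monoid.PushoutI.lift r ι (fun i => MonoidHom.ext (hr i))
  refine altFree_mem hP (altFree_pushoutI φ hφ) (pushoutI_sup_range φ) (fun i => ?_) f hQ ?_
  · have e := MonoidHom.ofInjective (Monoid.PushoutI.of_injective (φ := φ) hφ i)
    exact hP.of_equiv e.symm (hΓ i)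
  · intro g hg h1
    rw [pushoutI_range_inf φ hφ] at hg
    obtain ⟨h, rfl⟩ := hg
    have h2 : f (Monoid.PushoutI.base φ h) = ι h := Monoid.PushoutI.lift_base _ _ _ _
    have h3 : h = 1 := hι (by rw [← h2, h1, map_one])
    rw [h3, map_one]

end Pool.Agent.Biset
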