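import Pool.Agent.Lib.MP_98022b_h66.Tree

/-!
# The Cayley tree of a free group, and free groups extended by groups permuting the basis
-/

set_option autoImplicit false

namespace Pool.Agent.Biset

open SimpleGraph

section Cayley

variable {E : Type}

theorem mk_ne_one {L : List (E × Bool)} (h : FreeGroup.IsReduced L) (hL : L ≠ []) :
    FreeGroup.mk L ≠ 1 := by
  classical
  intro h1
  have h2 := congrArg FreeGroup.toWord h1
  rw [FreeGroup.toWord_mk, h.reduce_eq, FreeGroup.toWord_one] at h2
  exact hL h2

theorem mk_mul_flip (a : E × Bool) : FreeGroup.mk [a] * FreeGroup.mk [(a.1, !a.2)] = 1 := by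
  have h1 : FreeGroup.mk [(a.1, !a.2)] = (FreeGroup.mk [a])⁻¹ := by
    rw [FreeGroup.inv_mk]
    rfl
  rw [h1, mul_inv_cancel]

/-- The Cayley graph of the free group. -/
def cay (E : Type) : SimpleGraph (FreeGroup E) where
  Adj u v := ∃ a : E × Bool, v = u * FreeGroup.mk [a]
  symm := ⟨fun u v ⟨a, h⟩ => ⟨(a.1, !a.2), by rw [h, mul_assoc, mk_mul_flip, mul_one]⟩⟩
  loopless := ⟨fun u ⟨a, h⟩ => by
    refine mk_ne_one (L := [a]) FreeGroup.IsReduced.singleton (by simp) ?_
    exact (mul_eq_left (a := u)).1 h.symm⟩

theorem exists_word : ∀ {x y : FreeGroup E} (p : (cay E).Walk x y), p.IsPath →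
    ∀ a : E × Bool, (0 < p.length → p.snd ≠ x * FreeGroup.mk [(a.1, !a.2)]) →
      ∃ L : List (E × Bool), L.length = p.length ∧ FreeGroup.IsReduced (a :: L) ∧
        y = x * FreeGroup.mk L := by
  intro x y p
  induction p with
  | nil =>
    intro _ a _
    exact ⟨[], rfl, FreeGroup.IsReduced.singleton, by
      rw [← FreeGroup.one_eq_mk, mul_one]⟩
  | @cons x x' y h p ih =>
    intro hp a ha
    have ha' := ha (by simp)
    rw [Walk.snd_cons] at ha'
    rw [Walk.cons_isPath_iff] at hp
    obtain ⟨b, hb⟩ : ∃ b : E × Bool, x' = x * FreeGroup.mk [b] := h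
    obtain ⟨L, h1, h2, h3⟩ := ih hp.1 b (by
      intro h0 hs
      apply hp.2
      have h7 : x' * FreeGroup.mk [(b.1, !b.2)] = x := by
        rw [hb, mul_assoc, mk_mul_flip, mul_one]
      rw [← h7, ← hs]
      exact Walk.getVert_mem_support _ 1)
    refine ⟨b :: L, by rw [List.length_cons, h1, Walk.length_cons], ?_, ?_⟩
    · rw [FreeGroup.isReduced_cons_cons]
      refine ⟨fun h4 => ?_, h2⟩
      by_contra h5
      apply ha'
      have h6 : b = (a.1, !a.2) := Prod.ext h4.symm (by
        have : b.2 = !a.2 := by
          revert h5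
          cases a.2 <;> cases b.2 <;> simp
        exact this)
      rw [← h6, hb]
    · rw [h3, hb, mul_assoc, FreeGroup.mul_mk]
      rfl

theorem cay_isAcyclic : (cay E).IsAcyclic := by
  intro v c hc
  cases c with
  | nil => exact hc.ne_nil rfl
  | @cons _ x _ hadj p =>
    have hp : p.IsPath := ((Walk.cons_isCycle_iff p hadj).1 hc).1
    have h3 := hc.three_le_length
    rw [Walk.length_cons] at h3
    obtain ⟨a, ha⟩ : ∃ a : E × Bool, x = v * FreeGroup.mk [a] := hadj
    obtain ⟨L, h1, h2, h4⟩ := exists_word p hp a (by
      intro _ hs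
      have h7 : x * FreeGroup.mk [(a.1, !a.2)] = v := by
        rw [ha, mul_assoc, mk_mul_flip, mul_one]
      have h1 : p.getVert 1 = p.getVert p.length := by
        rw [Walk.getVert_length]
        exact hs.trans h7
      have := hp.getVert_injOn (by simp; omega) (by simp) h1
      omega)
    refine mk_ne_one h2 (by simp) ?_
    rw [ha, mul_assoc, FreeGroup.mul_mk] at h4
    exact (mul_eq_left (a := v)).1 h4.symm

theorem cay_connected : (cay E).Connected := by
  have key : ∀ s a : FreeGroup E, (cay E).Reachable a (a * s) := by
    intro s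
    induction s using FreeGroup.induction_on with
    | C1 => intro a; simp
    | of x =>
      intro a
      exact Adj.reachable ⟨(x, true), rfl⟩
    | inv_of x h =>
      intro a
      have := (h (a * (FreeGroup.of x)⁻¹)).symm
      rw [inv_mul_cancel_right] at this
      exact this
    | mul x y hx hy =>
      intro a
      rw [← mul_assoc]
      exact (hx a).trans (hy _)
  refine { preconnected := fun a b => ?_, nonempty := ⟨1⟩ }
  have := key (a⁻¹ * b) a
  rw [mul_inv_cancel_left] at this
  exact this

theorem cay_isTree : (cay E).IsTree := ⟨cay_connected, cay_isAcyclic⟩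

end Cayley

section Semi

variable {E Q : Type} [Group Q] [MulAction Q E]

/-- The action on the free group that permutes the basis. -/
def permAut (E Q : Type) [Group Q] [MulAction Q E] : Q →* MulAut (FreeGroup E) where
  toFun q := FreeGroup.freeGroupCongr (MulAction.toPerm q)
  map_one' := by
    ext x
    show FreeGroup.map _ x = x
    have : ((MulAction.toPerm (1 : Q) : Equiv.Perm E) : E → E) = id := by
      funext e
      exact one_smul Q e
    rw [this, FreeGroup.map.id]
  map_mul' q r := by
    ext x
    show FreeGroup.map _ x = FreeGroup.map _ (FreeGroup.map _ x)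
    rw [FreeGroup.map.comp]
    congr 1
    congr 1
    funext e
    exact mul_smul q r e

theorem permAut_mk (q : Q) (L : List (E × Bool)) : permAut E Q q (FreeGroup.mk L) =
    FreeGroup.mk (L.map fun a => (q • a.1, a.2)) := rfl

theorem permAut_of (q : Q) (e : E) : permAut E Q q (FreeGroup.of e) = FreeGroup.of (q • e) := rfl

/-- The action of the semidirect product on the Cayley tree. -/
instance semiAct : MulAction (FreeGroup E ⋊[permAut E Q] Q) (FreeGroup E) where
  smul x v := x.left * permAut E Q x.right v
  one_smul v := by
    show (1 : FreeGroup E) * permAut E Q 1 v = v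
    rw [map_one, one_mul]
    rfl
  mul_smul x y v := by
    show x.left * permAut E Q x.right y.left * permAut E Q (x.right * y.right) v =
      x.left * permAut E Q x.right (y.left * permAut E Q y.right v)
    rw [map_mul, map_mul, mul_assoc]
    rfl

theorem semi_smul (x : FreeGroup E ⋊[permAut E Q] Q) (v : FreeGroup E) :
    x • v = x.left * permAut E Q x.right v := rfl

/-- A free group extended by a group of the class that permutes the basis is in the class. -/
theorem semi_mem {P : ∀ (G : Type) [Group G], Prop} (hP : FJ.IsFJClass P) (hQ : P Q) :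
    P (FreeGroup E ⋊[permAut E Q] Q) := by
  refine hP.tree_mem (T := cay E) cay_isTree ?_ ?_ SemidirectProduct.rightHom hQ ?_
  · rintro x u v ⟨a, rfl⟩
    refine ⟨(x.right • a.1, a.2), ?_⟩
    rw [semi_smul, semi_smul, map_mul, mul_assoc, permAut_mk]
    rfl
  · intro v
    refine hP.of_injective
      (SemidirectProduct.rightHom.comp
        (MulAction.stabilizer (FreeGroup E ⋊[permAut E Q] Q) v).subtype) ?_ hQ
    intro x y hxy
    have hx : x.1.left * permAut E Q x.1.right v = v := x.2
    have hy : y.1.left * permAut E Q y.1.right v = v := y.2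
    have hxy' : x.1.right = y.1.right := hxy
    apply Subtype.ext
    apply SemidirectProduct.ext
    · rw [hxy'] at hx
      exact mul_right_cancel (hx.trans hy.symm)
    · exact hxy'
  · intro u v _ x hx _ h1
    have hx : x.left * permAut E Q x.right u = u := hx
    have h1' : x.right = 1 := h1
    rw [h1', map_one] at hx
    apply SemidirectProduct.ext
    · exact (mul_eq_right (b := u)).1 hx
    · exact h1'

end Semi

end Pool.Agent.Biset
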