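import Pool.Agent.Lib.MP_98022b_ab.Acyc

/-!
# Classes of groups closed under tree constructions
-/

set_option autoImplicit false

namespace Pool.Agent.TreeCl

open SimpleGraph Pool.Agent.Lib.MP_140312_al_SG

/-- An action on a tree with vertex stabilizers in `P` and edge stabilizers in `Ed`. -/
structure Act (P Ed : ∀ (G : Type) [Group G], Prop) (G : Type) [Group G] {V : Type}
    [MulAction G V] (T : SimpleGraph V) : Prop where
  tree : T.IsTree
  adj : ∀ (g : G) u v, T.Adj u v → T.Adj (g • u) (g • v)
  vert : ∀ v : V, P (MulAction.stabilizer G v)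
  edge : ∀ u v : V, T.Adj u v →
    Ed (MulAction.stabilizer G u ⊓ MulAction.stabilizer G v : Subgroup G)

/-- The action has no inversions. -/
def NoInv (G : Type) [Group G] {V : Type} [MulAction G V] (T : SimpleGraph V) : Prop :=
  ∀ (g : G) (u v : V), T.Adj u v → g • u = v → g • v = u → False

/-- The closure properties used for trees: isomorphisms, directed unions, extensions with infinite
cyclic quotient of groups acting on trees, amalgams over edge groups in `Ed`. -/
structure Closed (P Ed : ∀ (G : Type) [Group G], Prop) : Prop where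
  equiv : ∀ {G H : Type} [Group G] [Group H], G ≃* H → P G → P H
  edEquiv : ∀ {G H : Type} [Group G] [Group H], G ≃* H → Ed G → Ed H
  union : ∀ {G : Type} [Group G] {ι : Type} [Nonempty ι] (K : ι → Subgroup G),
    (∀ i j, ∃ k, K i ≤ K k ∧ K j ≤ K k) → (∀ g, ∃ i, g ∈ K i) → (∀ i, P (K i)) → P G
  extZ : ∀ {G V : Type} [Group G] [MulAction G V] {T : SimpleGraph V}, Act P Ed G T → NoInv G T →
    ∀ f : G →* Multiplicative ℤ, P f.ker → P G
  amal : ∀ {G : Type} [Group G] (A : Bool → Subgroup G), AltFree A → A false ⊔ A true = ⊤ →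
    (∀ i, P (A i)) → Ed (A false ⊓ A true : Subgroup G) → P G

section Comp

variable {G V : Type} [Group G] [MulAction G V] {F : SimpleGraph V}

/-- The invariance of a graph. -/
def Inv (G : Type) [Group G] {V : Type} [MulAction G V] (F : SimpleGraph V) : Prop :=
  ∀ (g : G) (u v : V), F.Adj u v → F.Adj (g • u) (g • v)

theorem Inv.reach (hF : Inv G F) (g : G) {u v : V} (h : F.Reachable u v) :
    F.Reachable (g • u) (g • v) := h.map (FJ.actHom F hF g)

/-- The stabilizer of the component of `v₀`. -/
def st (hF : Inv G F) (v₀ : V) : Subgroup G where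
  carrier := {g | F.Reachable v₀ (g • v₀)}
  one_mem' := by
    show F.Reachable v₀ ((1 : G) • v₀)
    rw [one_smul]
  mul_mem' := by
    intro a b ha hb
    show F.Reachable v₀ ((a * b) • v₀)
    rw [mul_smul]
    exact Reachable.trans ha (hF.reach a hb)
  inv_mem' := by
    intro a ha
    have h1 := hF.reach a⁻¹ (show F.Reachable v₀ (a • v₀) from ha)
    rw [inv_smul_smul] at h1
    exact h1.symm

theorem mem_st {hF : Inv G F} {v₀ : V} {g : G} : g ∈ st hF v₀ ↔ F.Reachable v₀ (g • v₀) := Iff.rfl

theorem mem_st_of_reach {hF : Inv G F} {v₀ u v : V} {g : G} (hu : F.Reachable v₀ u)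
    (hv : F.Reachable v₀ v) (hg : F.Reachable (g • u) v) : g ∈ st hF v₀ :=
  (hv.trans hg.symm).trans (hF.reach g hu.symm)

/-- The component of `v₀`. -/
def Wt (F : SimpleGraph V) (v₀ : V) : Type := {v : V // F.Reachable v₀ v}

instance actWt (hF : Inv G F) (v₀ : V) : MulAction (st hF v₀) (Wt F v₀) where
  smul g v := ⟨(g : G) • v.1, Reachable.trans g.2 (hF.reach g v.2)⟩
  one_smul v := Subtype.ext (one_smul G v.1)
  mul_smul g h v := Subtype.ext (mul_smul (g : G) (h : G) v.1)

theorem coe_smul_Wt {hF : Inv G F} {v₀ : V} (g : st hF v₀) (v : Wt F v₀) :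
    (g • v).1 = (g : G) • v.1 := rfl

/-- The graph on the component. -/
def gWt (F : SimpleGraph V) (v₀ : V) : SimpleGraph (Wt F v₀) := F.comap Subtype.val

theorem gWt_adj {v₀ : V} {u v : Wt F v₀} : (gWt F v₀).Adj u v ↔ F.Adj u.1 v.1 := Iff.rfl

theorem gWt_isTree (hac : F.IsAcyclic) (v₀ : V) : (gWt F v₀).IsTree := by
  let C : F.ConnectedComponent := F.connectedComponentMk v₀
  have hCmem : ∀ v : V, v ∈ C.supp ↔ F.Reachable v₀ v := by
    intro v
    rw [ConnectedComponent.mem_supp_iff, ConnectedComponent.eq]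
    exact ⟨Reachable.symm, Reachable.symm⟩
  have h1 := hac.isTree_connectedComponent C
  let e : gWt F v₀ ≃g C.toSimpleGraph :=
    { toFun := fun w => ⟨w.1, (hCmem _).2 w.2⟩
      invFun := fun w => ⟨w.1, (hCmem _).1 w.2⟩
      left_inv := fun w => rfl
      right_inv := fun w => rfl
      map_rel_iff' := Iff.rfl }
  exact e.isTree_iff.2 h1

/-- Subgroups of a group that contain a subgroup. -/
def subEquiv {G : Type} [Group G] {K : Subgroup G} (A : Subgroup G) (B : Subgroup K)
    (hAK : A ≤ K) (h : ∀ x : K, x ∈ B ↔ (x : G) ∈ A) : A ≃* B where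
  toFun a := ⟨⟨a, hAK a.2⟩, (h _).2 a.2⟩
  invFun b := ⟨b.1.1, (h _).1 b.2⟩
  left_inv _ := rfl
  right_inv _ := rfl
  map_mul' _ _ := rfl

theorem stab_le_st {hF : Inv G F} {v₀ v : V} (hv : F.Reachable v₀ v) :
    MulAction.stabilizer G v ≤ st hF v₀ := by
  intro g hg
  have hg' : g • v = v := hg
  exact mem_st_of_reach hv hv (by rw [hg'])

theorem Act.sub {P Ed : ∀ (G : Type) [Group G], Prop} (hP : Closed P Ed) {T : SimpleGraph V}
    (h : Act P Ed G T) (hF : Inv G F) (hle : F ≤ T) (v₀ : V) :
    Act P Ed (st hF v₀) (gWt F v₀) where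
  tree := gWt_isTree (h.tree.isAcyclic.anti hle) v₀
  adj g u v huv := hF g u.1 v.1 huv
  vert v := by
    refine hP.equiv (subEquiv _ _ (stab_le_st (hF := hF) v.2) fun x => ?_) (h.vert v.1)
    rw [MulAction.mem_stabilizer_iff, MulAction.mem_stabilizer_iff]
    exact Subtype.ext_iff
  edge u v huv := by
    refine hP.edEquiv (subEquiv _ _ (inf_le_left.trans (stab_le_st (hF := hF) u.2)) fun x => ?_)
      (h.edge u.1 v.1 (hle huv))
    rw [Subgroup.mem_inf, Subgroup.mem_inf, MulAction.mem_stabilizer_iff,
      MulAction.mem_stabilizer_iff, MulAction.mem_stabilizer_iff, MulAction.mem_stabilizer_iff]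
    exact and_congr Subtype.ext_iff Subtype.ext_iff

/-- The action on the components. -/
def compAct (hF : Inv G F) : MulAction G F.ConnectedComponent where
  smul g c := c.map (FJ.actHom F hF g)
  one_smul c := by
    induction c using ConnectedComponent.ind with
    | _ v =>
      show F.connectedComponentMk ((1 : G) • v) = _
      rw [one_smul]
  mul_smul g h c := by
    induction c using ConnectedComponent.ind with
    | _ v =>
      show F.connectedComponentMk ((g * h) • v) = F.connectedComponentMk (g • h • v)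
      rw [mul_smul]

/-- Edges between two components are unique. -/
theorem edge_unique {T : SimpleGraph V} (hT : T.IsAcyclic) (hle : F ≤ T) {u w u' w' : V}
    (h : T.Adj u w) (h' : T.Adj u' w') (hn : ¬ F.Reachable u w) (hu : F.Reachable u u')
    (hw : F.Reachable w w') : u' = u ∧ w' = w := by
  have hb := isAcyclic_iff_forall_adj_isBridge.1 hT h
  rw [isBridge_iff] at hb
  have hle' : F ≤ T.deleteEdges {s(u, w)} := by
    intro x y hxy
    rw [deleteEdges_adj]
    refine ⟨hle hxy, fun h => ?_⟩
    rcases Sym2.eq_iff.1 (Set.mem_singleton_iff.1 h) with ⟨rfl, rfl⟩ | ⟨rfl, rfl⟩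
    · exact hn hxy.reachable
    · exact hn hxy.symm.reachable
  by_cases he : s(u', w') = s(u, w)
  · rcases Sym2.eq_iff.1 he with h1 | ⟨rfl, rfl⟩
    · exact h1
    · exact absurd hu hn
  · exfalso
    apply hb
    refine (hu.mono hle').trans (Reachable.trans (Adj.reachable ?_) (hw.symm.mono hle'))
    rw [deleteEdges_adj]
    exact ⟨h', he⟩

end Comp

section Amal

variable {P Ed : ∀ (G : Type) [Group G], Prop} {G V : Type} [Group G] [MulAction G V]
  {T : SimpleGraph V}

/-- A single vertex. -/
theorem single (hP : Closed P Ed) (h : Act P Ed G T) (hE : ∀ u v, ¬ T.Adj u v) : P G := by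
  obtain ⟨v₀⟩ := h.tree.connected.nonempty
  have h1 : ∀ v, v = v₀ := by
    intro v
    obtain ⟨p⟩ := h.tree.connected.preconnected v v₀
    cases p with
    | nil => rfl
    | cons h' _ => exact absurd h' (hE _ _)
  have h2 : MulAction.stabilizer G v₀ = ⊤ := by
    rw [eq_top_iff]
    intro g _
    exact h1 _
  have h3 := h.vert v₀
  rw [h2] at h3
  exact hP.equiv Subgroup.topEquiv h3

/-- One orbit of edges, two orbits of vertices. -/
theorem two_orbits (hP : Closed P Ed) (hT : T.IsTree) (hadj : Inv G T) {u w : V}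
    (huw : T.Adj u w) (hu : P (MulAction.stabilizer G u)) (hw : P (MulAction.stabilizer G w))
    (he : Ed (MulAction.stabilizer G u ⊓ MulAction.stabilizer G w : Subgroup G))
    (htr : ∀ x y, T.Adj x y → ∃ g : G, (g • u = x ∧ g • w = y) ∨ (g • u = y ∧ g • w = x))
    (hne : ∀ g : G, g • u ≠ w) : P G := by
  let ν : Bool → V := fun i => if i then w else u
  have hA : AltFree (fun i => MulAction.stabilizer G (ν i)) :=
    altFree_stabilizer hT.isAcyclic hadj (ν := ν) huw
  refine hP.amal (fun i => MulAction.stabilizer G (ν i)) hA ?_ ?_ he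
  · show MulAction.stabilizer G u ⊔ MulAction.stabilizer G w = ⊤
    set K := MulAction.stabilizer G u ⊔ MulAction.stabilizer G w with hK
    have hKu : MulAction.stabilizer G u ≤ K := le_sup_left
    have hKw : MulAction.stabilizer G w ≤ K := le_sup_right
    have hmu : ∀ g k : G, k ∈ K → g • u = k • u → g ∈ K := by
      intro g k hk h
      have h1 : k⁻¹ * g ∈ K := hKu (by
        rw [MulAction.mem_stabilizer_iff, mul_smul, h, inv_smul_smul])
      have h2 := K.mul_mem hk h1
      rwa [mul_inv_cancel_left] at h2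
    have hmw : ∀ g k : G, k ∈ K → g • w = k • w → g ∈ K := by
      intro g k hk h
      have h1 : k⁻¹ * g ∈ K := hKw (by
        rw [MulAction.mem_stabilizer_iff, mul_smul, h, inv_smul_smul])
      have h2 := K.mul_mem hk h1
      rwa [mul_inv_cancel_left] at h2
    have hne' : ∀ g k : G, g • u ≠ k • w := by
      intro g k h
      exact hne (k⁻¹ * g) (by rw [mul_smul, h, inv_smul_smul])
    have key : ∀ {x y : V} (_ : T.Walk x y), (∃ k ∈ K, k • u = x ∨ k • w = x) →
        ∃ k ∈ K, k • u = y ∨ k • w = y := by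
      intro x y p
      induction p with
      | nil => exact id
      | @cons x y z h _ ih =>
        rintro ⟨k, hk, hx⟩
        apply ih
        obtain ⟨g, ⟨h1, h2⟩ | ⟨h1, h2⟩⟩ := htr x y h
        · rcases hx with hx | hx
          · exact ⟨g, hmu g k hk (h1.trans hx.symm), Or.inr h2⟩
          · exact absurd (h1.trans hx.symm) (hne' g k)
        · rcases hx with hx | hx
          · exact absurd (hx.trans h2.symm) (hne' k g)
          · exact ⟨g, hmw g k hk (h2.trans hx.symm), Or.inl h1⟩
    rw [eq_top_iff]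
    intro g _
    obtain ⟨p⟩ := hT.connected.preconnected u (g • u)
    obtain ⟨k, hk, h | h⟩ := key p ⟨1, K.one_mem, Or.inl (one_smul _ _)⟩
    · exact hmu g k hk h.symm
    · exact absurd h.symm (hne' g k)
  · intro i
    cases i
    · exact hu
    · exact hw

/-- Collapsing: one orbit of edges outside of `F`, the ends of which are in different orbits of
components. -/
theorem collapse_two (hP : Closed P Ed) (h : Act P Ed G T) {F : SimpleGraph V} (hF : Inv G F)
    (hle : F ≤ T) {u w : V} (huw : T.Adj u w) (hn : ¬ F.Reachable u w)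
    (htr : ∀ x y, T.Adj x y → ¬ F.Reachable x y →
      ∃ g : G, (g • u = x ∧ g • w = y) ∨ (g • u = y ∧ g • w = x))
    (hne : ∀ g : G, ¬ F.Reachable (g • u) w) (hu : P (st hF u)) (hw : P (st hF w)) : P G := by
  letI := compAct hF
  have hsm : ∀ (g : G) (v : V), g • F.connectedComponentMk v = F.connectedComponentMk (g • v) :=
    fun g v => rfl
  have hst : ∀ v : V, MulAction.stabilizer G (F.connectedComponentMk v) = st hF v := by
    intro v
    ext g
    rw [MulAction.mem_stabilizer_iff, hsm, ConnectedComponent.eq]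
    exact ⟨Reachable.symm, Reachable.symm⟩
  refine two_orbits hP (T := coll T F) (u := F.connectedComponentMk u)
    (w := F.connectedComponentMk w)
    ⟨coll_connected h.tree.connected, coll_acyclic h.tree.isAcyclic hle⟩ ?_ ?_ ?_ ?_ ?_ ?_ ?_
  · rintro g c d ⟨hcd, x, y, rfl, rfl, hxy⟩
    refine ⟨fun he => hcd ?_, g • x, g • y, rfl, rfl, h.adj g x y hxy⟩
    exact MulAction.injective g he
  · exact coll_adj huw hn
  · rw [hst]; exact hu
  · rw [hst]; exact hw
  · have h1 : (MulAction.stabilizer G (F.connectedComponentMk u) ⊓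
        MulAction.stabilizer G (F.connectedComponentMk w) : Subgroup G) =
        MulAction.stabilizer G u ⊓ MulAction.stabilizer G w := by
      rw [hst, hst]
      ext g
      rw [Subgroup.mem_inf, Subgroup.mem_inf, mem_st, mem_st, MulAction.mem_stabilizer_iff,
        MulAction.mem_stabilizer_iff]
      constructor
      · rintro ⟨h2, h3⟩
        exact edge_unique h.tree.isAcyclic hle huw (h.adj g _ _ huw) hn h2 h3
      · rintro ⟨h2, h3⟩
        rw [h2, h3]
        exact ⟨Reachable.refl _, Reachable.refl _⟩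
    rw [h1]
    exact h.edge u w huw
  · rintro c d ⟨hcd, x, y, rfl, rfl, hxy⟩
    obtain ⟨g, ⟨h1, h2⟩ | ⟨h1, h2⟩⟩ := htr x y hxy fun h1 => hcd (ConnectedComponent.sound h1)
    · exact ⟨g, Or.inl ⟨by rw [hsm, h1], by rw [hsm, h2]⟩⟩
    · exact ⟨g, Or.inr ⟨by rw [hsm, h1], by rw [hsm, h2]⟩⟩
  · intro g hg
    rw [hsm, ConnectedComponent.eq] at hg
    exact hne g hg

end Amal

end Pool.Agent.TreeCl
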