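import Pool.Agent.Lib.MP_98022b_ab.Cayley

/-!
# Embedding a group with a subgroup, as a biset with involution, into a group of the class
-/

set_option autoImplicit false

namespace Pool.Agent.Biset

variable {G H Q : Type} [Group G] [Group H] [Group Q]

/-- A map `f : G → Q` that is equivariant for the actions of `H` from both sides and compatible
with the inversions. -/
structure IsBisetMap (ψ : H →* G) (ι : H →* Q) (f : G → Q) : Prop where
  sub : ∀ h, f (ψ h) = ι h
  left : ∀ h g, f (ψ h * g) = ι h * f g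
  right : ∀ g h, f (g * ψ h) = f g * ι h
  inv : ∀ g, f g⁻¹ = (f g)⁻¹

/-- The balanced product `Q ×_H G/H`. -/
def edgeSetoid (ψ : H →* G) (ι : H →* Q) : Setoid (Q × G) where
  r a b := ∃ h k : H, b.1 = a.1 * ι h ∧ a.2 = ψ h * b.2 * ψ k
  iseqv :=
    { refl := fun a => ⟨1, 1, by simp, by simp⟩
      symm := by
        rintro a b ⟨h, k, h1, h2⟩
        refine ⟨h⁻¹, k⁻¹, ?_, ?_⟩
        · rw [h1, mul_assoc, ← map_mul, mul_inv_cancel, map_one, mul_one]
        · rw [h2, map_inv, map_inv]
          group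
      trans := by
        rintro a b c ⟨h, k, h1, h2⟩ ⟨h', k', h3, h4⟩
        refine ⟨h * h', k' * k, ?_, ?_⟩
        · rw [h3, h1, map_mul, mul_assoc]
        · rw [h2, h4, map_mul, map_mul]
          group }

/-- The edges. -/
def Edge (ψ : H →* G) (ι : H →* Q) : Type := Quotient (edgeSetoid ψ ι)

/-- The class of a pair. -/
def ed (ψ : H →* G) (ι : H →* Q) (q : Q) (g : G) : Edge ψ ι :=
  Quotient.mk (edgeSetoid ψ ι) (q, g)

section

variable {ψ : H →* G} {ι : H →* Q}

theorem ed_eq_iff {q q' : Q} {g g' : G} : ed ψ ι q g = ed ψ ι q' g' ↔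
    ∃ h k : H, q' = q * ι h ∧ g = ψ h * g' * ψ k :=
  Quotient.eq (r := edgeSetoid ψ ι)

theorem ed_right (q : Q) (g : G) (k : H) : ed ψ ι q (g * ψ k) = ed ψ ι q g :=
  ed_eq_iff.2 ⟨1, k, by simp, by simp⟩

theorem ed_left (q : Q) (h : H) (g : G) : ed ψ ι q (ψ h * g) = ed ψ ι (q * ι h) g :=
  ed_eq_iff.2 ⟨h, 1, rfl, by simp⟩

instance edgeAct : MulAction Q (Edge ψ ι) where
  smul q := Quotient.map' (s₁ := edgeSetoid ψ ι) (s₂ := edgeSetoid ψ ι)
    (fun a => (q * a.1, a.2)) (by
    rintro a b ⟨h, k, h1, h2⟩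
    exact ⟨h, k, by simp only [h1, mul_assoc], h2⟩)
  one_smul := by
    intro x
    induction x using Quotient.inductionOn with
    | h a =>
      show ed ψ ι (1 * a.1) a.2 = _
      rw [one_mul]
      rfl
  mul_smul := by
    intro q r x
    induction x using Quotient.inductionOn with
    | h a =>
      show ed ψ ι (q * r * a.1) a.2 = ed ψ ι (q * (r * a.1)) a.2
      rw [mul_assoc]

theorem smul_ed (q r : Q) (g : G) : q • ed ψ ι r g = ed ψ ι (q * r) g := rfl

variable {f : G → Q}

/-- The value in the free group. -/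
def yy (ψ : H →* G) (ι : H →* Q) (f : G → Q) (g : G) : FreeGroup (Edge ψ ι) :=
  FreeGroup.of (ed ψ ι 1 g) * (FreeGroup.of (ed ψ ι (f g) g⁻¹))⁻¹

/-- The biset embedding. -/
def ss (ψ : H →* G) (ι : H →* Q) (f : G → Q) (g : G) :
    FreeGroup (Edge ψ ι) ⋊[permAut (Edge ψ ι) Q] Q := ⟨yy ψ ι f g, f g⟩

theorem yy_right (hf : IsBisetMap ψ ι f) (g : G) (h : H) : yy ψ ι f (g * ψ h) = yy ψ ι f g := by
  unfold yy
  rw [ed_right, hf.right, mul_inv_rev, ← map_inv, ed_left, mul_assoc, ← map_mul, mul_inv_cancel,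
    map_one, mul_one]

theorem yy_left (hf : IsBisetMap ψ ι f) (h : H) (g : G) :
    yy ψ ι f (ψ h * g) = permAut (Edge ψ ι) Q (ι h) (yy ψ ι f g) := by
  unfold yy
  rw [map_mul, map_inv, permAut_of, permAut_of, smul_ed, smul_ed, ed_left, hf.left, mul_inv_rev,
    ← map_inv, ed_right, one_mul, mul_one]

theorem yy_sub (hf : IsBisetMap ψ ι f) (h : H) : yy ψ ι f (ψ h) = 1 := by
  have h1 : yy ψ ι f (ψ h) = yy ψ ι f 1 := by
    have := yy_right hf 1 h
    rw [one_mul] at this
    exact this
  have h2 : f 1 = 1 := by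
    have := hf.sub 1
    rw [map_one, map_one] at this
    exact this
  rw [h1]
  unfold yy
  rw [h2, inv_one, mul_inv_cancel]

theorem ss_left (hf : IsBisetMap ψ ι f) (h : H) (g : G) :
    ss ψ ι f (ψ h * g) = ss ψ ι f (ψ h) * ss ψ ι f g := by
  apply SemidirectProduct.ext
  · show yy ψ ι f (ψ h * g) = yy ψ ι f (ψ h) * permAut (Edge ψ ι) Q (f (ψ h)) (yy ψ ι f g)
    rw [yy_left hf, yy_sub hf, one_mul, hf.sub]
  · show f (ψ h * g) = f (ψ h) * f g
    rw [hf.left, hf.sub]

theorem ss_right (hf : IsBisetMap ψ ι f) (g : G) (h : H) :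
    ss ψ ι f (g * ψ h) = ss ψ ι f g * ss ψ ι f (ψ h) := by
  apply SemidirectProduct.ext
  · show yy ψ ι f (g * ψ h) = yy ψ ι f g * permAut (Edge ψ ι) Q (f g) (yy ψ ι f (ψ h))
    rw [yy_right hf, yy_sub hf, map_one, mul_one]
  · show f (g * ψ h) = f g * f (ψ h)
    rw [hf.right, hf.sub]

theorem ss_mul_inv (hf : IsBisetMap ψ ι f) (g : G) : ss ψ ι f g * ss ψ ι f g⁻¹ = 1 := by
  apply SemidirectProduct.ext
  · show yy ψ ι f g * permAut (Edge ψ ι) Q (f g) (yy ψ ι f g⁻¹) = 1
    unfold yy
    rw [map_mul, map_inv, permAut_of, permAut_of, smul_ed, smul_ed, hf.inv, inv_inv,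
      mul_inv_cancel, mul_one]
    group
  · show f g * f g⁻¹ = 1
    rw [hf.inv, mul_inv_cancel]

theorem ss_inv (hf : IsBisetMap ψ ι f) (g : G) : ss ψ ι f g⁻¹ = (ss ψ ι f g)⁻¹ :=
  eq_inv_of_mul_eq_one_right (ss_mul_inv hf g)

/-- The restriction of `ss` to `H`. -/
def sH (hf : IsBisetMap ψ ι f) : H →* FreeGroup (Edge ψ ι) ⋊[permAut (Edge ψ ι) Q] Q where
  toFun h := ss ψ ι f (ψ h)
  map_one' := by
    have h := ss_mul_inv hf 1
    have h1 := ss_left hf 1 1
    rw [map_one, one_mul] at h1
    rw [inv_one, ← h1] at h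
    rw [map_one, h]
  map_mul' h k := by rw [map_mul, ss_left hf]

theorem sH_apply (hf : IsBisetMap ψ ι f) (h : H) : sH hf h = ss ψ ι f (ψ h) := rfl

/-- If `a * b` is in `H`, then the product of the values is the value of the product. -/
theorem ss_mul_of_mem (hf : IsBisetMap ψ ι f) {a b : G} (h : a * b ∈ ψ.range) :
    ss ψ ι f a * ss ψ ι f b = ss ψ ι f (a * b) := by
  obtain ⟨k, hk⟩ := h
  have h1 : b = a⁻¹ * ψ k := by rw [hk]; group
  rw [← hk, h1, ss_right hf, ← mul_assoc, ss_mul_inv hf, one_mul]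

/-- The word of a product. -/
def wd (ψ : H →* G) (ι : H →* Q) (f : G → Q) : List G → List (Edge ψ ι × Bool)
  | [] => []
  | g :: l => (ed ψ ι 1 g, true) :: (ed ψ ι (f g) g⁻¹, false) ::
      (wd ψ ι f l).map fun a => (f g • a.1, a.2)

/-- The product of the values. -/
def pr (ψ : H →* G) (ι : H →* Q) (f : G → Q) (l : List G) :
    FreeGroup (Edge ψ ι) ⋊[permAut (Edge ψ ι) Q] Q := (l.map (ss ψ ι f)).prod

theorem pr_nil : pr ψ ι f [] = 1 := rfl

theorem pr_cons (g : G) (l : List G) : pr ψ ι f (g :: l) = ss ψ ι f g * pr ψ ι f l := by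
  rw [pr, List.map_cons, List.prod_cons]
  rfl

theorem pr_append (l m : List G) : pr ψ ι f (l ++ m) = pr ψ ι f l * pr ψ ι f m := by
  rw [pr, List.map_append, List.prod_append]
  rfl

theorem pr_left (l : List G) : (pr ψ ι f l).left = FreeGroup.mk (wd ψ ι f l) := by
  induction l with
  | nil => rfl
  | cons g l ih =>
    rw [pr_cons, SemidirectProduct.mul_left, ih]
    show yy ψ ι f g * permAut (Edge ψ ι) Q (f g) _ = _
    rw [permAut_mk]
    unfold yy
    show FreeGroup.mk [(ed ψ ι 1 g, true)] * (FreeGroup.mk [(ed ψ ι (f g) g⁻¹, true)])⁻¹ *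
      FreeGroup.mk _ = FreeGroup.mk ((ed ψ ι 1 g, true) :: (ed ψ ι (f g) g⁻¹, false) ::
      (wd ψ ι f l).map fun a => (f g • a.1, a.2))
    rw [FreeGroup.inv_mk, FreeGroup.mul_mk, FreeGroup.mul_mk]
    rfl

/-- Reduced lists. -/
def Rd (ψ : H →* G) (l : List G) : Prop :=
  (∀ a ∈ l, a ∉ ψ.range) ∧ l.IsChain fun a b => a * b ∉ ψ.range

theorem ed_ne (hf : IsBisetMap ψ ι f) (hι : Function.Injective ι)
    (h2 : ∀ g : G, g * g = 1 → g = 1) {g : G} (hg : g ∉ ψ.range) :
    ed ψ ι 1 g ≠ ed ψ ι (f g) g⁻¹ := by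
  intro h
  obtain ⟨h, k, h3, h4⟩ := ed_eq_iff.1 h
  rw [one_mul] at h3
  set x : G := ψ h⁻¹ * g with hx
  have hx1 : x = x⁻¹ * ψ (h⁻¹ * k) := by
    have : x⁻¹ = g⁻¹ * ψ h := by rw [hx, map_inv]; group
    rw [this, hx]
    nth_rw 1 [h4]
    rw [map_mul, map_inv]
    group
  have hx2 : f x = 1 := by
    rw [hx, hf.left, h3, ← map_mul, inv_mul_cancel, map_one]
  have hx3 : h⁻¹ * k = 1 := by
    have := hf.right x⁻¹ (h⁻¹ * k)
    rw [← hx1, hf.inv, hx2, inv_one, one_mul] at this
    exact hι (this.symm.trans (map_one ι).symm)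
  rw [hx3, map_one, mul_one] at hx1
  have hx4 : x = 1 := h2 x (by nth_rw 1 [hx1]; exact inv_mul_cancel x)
  apply hg
  refine ⟨h, ?_⟩
  rw [hx, map_inv] at hx4
  exact (inv_mul_eq_one.1 hx4)

theorem wd_reduced (hf : IsBisetMap ψ ι f) (hι : Function.Injective ι)
    (h2 : ∀ g : G, g * g = 1 → g = 1) : ∀ l : List G, Rd ψ l → FreeGroup.IsReduced (wd ψ ι f l) := by
  intro l
  induction l with
  | nil => intro _; exact FreeGroup.IsReduced.nil
  | cons g l ih =>
    intro hl
    have hg : g ∉ ψ.range := hl.1 g List.mem_cons_self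
    have hl' : Rd ψ l := ⟨fun a ha => hl.1 a (List.mem_cons_of_mem _ ha), hl.2.tail⟩
    have h1 := ih hl'
    show FreeGroup.IsReduced ((ed ψ ι 1 g, true) :: (ed ψ ι (f g) g⁻¹, false) ::
      (wd ψ ι f l).map fun a => (f g • a.1, a.2))
    rw [FreeGroup.isReduced_cons_cons]
    refine ⟨fun h => absurd h (ed_ne hf hι h2 hg), ?_⟩
    have h3 : FreeGroup.IsReduced ((wd ψ ι f l).map fun a => (f g • a.1, a.2)) := by
      unfold FreeGroup.IsReduced at h1 ⊢
      rw [List.isChain_map]
      refine h1.imp fun a b hab h => hab ?_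
      exact MulAction.injective (f g) h
    cases l with
    | nil => exact FreeGroup.IsReduced.singleton
    | cons b l =>
      have hgb : g * b ∉ ψ.range := by
        have := hl.2
        rw [List.isChain_cons_cons] at this
        exact this.1
      change FreeGroup.IsReduced ((f g • ed ψ ι 1 b, true) :: _) at h3
      show FreeGroup.IsReduced ((ed ψ ι (f g) g⁻¹, false) :: (f g • ed ψ ι 1 b, true) :: _)
      rw [FreeGroup.isReduced_cons_cons]
      refine ⟨fun h => ?_, h3⟩
      exfalso
      rw [smul_ed, mul_one] at h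
      obtain ⟨h, k, h4, h5⟩ := ed_eq_iff.1 h
      have h6 : h = 1 := by
        apply hι
        rw [map_one]
        exact (mul_eq_left (a := f g)).1 h4.symm
      rw [h6, map_one, one_mul] at h5
      apply hgb
      refine ⟨k⁻¹, ?_⟩
      have h7 : g = (b * ψ k)⁻¹ := by rw [← h5, inv_inv]
      rw [h7, map_inv]
      group

theorem pr_ne_one (hf : IsBisetMap ψ ι f) (hι : Function.Injective ι)
    (h2 : ∀ g : G, g * g = 1 → g = 1) {l : List G} (hl : Rd ψ l) (h0 : l ≠ []) :
    pr ψ ι f l ≠ 1 := by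
  intro h
  have h1 := congrArg SemidirectProduct.left h
  rw [pr_left] at h1
  refine mk_ne_one (wd_reduced hf hι h2 l hl) ?_ h1
  cases l with
  | nil => exact absurd rfl h0
  | cons a l => exact List.cons_ne_nil _ _

theorem sH_injective (hf : IsBisetMap ψ ι f) (hι : Function.Injective ι) :
    Function.Injective (sH hf) := by
  intro h k hk
  have h1 := congrArg SemidirectProduct.right hk
  have h2 : f (ψ h) = f (ψ k) := h1
  rw [hf.sub, hf.sub] at h2
  exact hι h2

theorem ss_injective (hf : IsBisetMap ψ ι f) (hι : Function.Injective ι)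
    (h2 : ∀ g : G, g * g = 1 → g = 1) : Function.Injective (ss ψ ι f) := by
  have key : ∀ g : G, ss ψ ι f g = 1 → g = 1 := by
    intro g hg
    by_cases h : g ∈ ψ.range
    · obtain ⟨k, rfl⟩ := h
      have : k = 1 := sH_injective hf hι (by rw [map_one]; exact hg)
      rw [this, map_one]
    · exfalso
      refine pr_ne_one hf hι h2 (l := [g]) ⟨by simpa using h, List.isChain_singleton _⟩ (by simp) ?_
      rw [pr_cons, pr_nil, mul_one, hg]
  intro a b hab
  have h3 : ss ψ ι f a⁻¹ * ss ψ ι f b = 1 := by rw [ss_inv hf, hab, inv_mul_cancel]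
  by_cases h : a⁻¹ * b ∈ ψ.range
  · rw [ss_mul_of_mem hf h] at h3
    exact inv_mul_eq_one.1 (key _ h3)
  · by_cases ha : a⁻¹ ∈ ψ.range
    · obtain ⟨k, hk⟩ := ha
      rw [← hk, ← ss_left hf, hk] at h3
      exact inv_mul_eq_one.1 (key _ h3)
    · by_cases hb : b ∈ ψ.range
      · obtain ⟨k, hk⟩ := hb
        rw [← hk, ← ss_right hf, hk] at h3
        exact inv_mul_eq_one.1 (key _ h3)
      · exfalso
        refine pr_ne_one hf hι h2 (l := [a⁻¹, b]) ⟨?_, ?_⟩ (by simp) ?_
        · intro c hc
          rcases List.mem_cons.1 hc with rfl | hc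
          · exact ha
          · rw [List.mem_singleton.1 hc]
            exact hb
        · rw [List.isChain_cons_cons]
          exact ⟨h, List.isChain_singleton _⟩
        · rw [pr_cons, pr_cons, pr_nil, mul_one, h3]

theorem pow_comm_one {M : Type} [Group M] {a b : M} {n : ℕ} (h : (a * b) ^ n = 1) :
    (b * a) ^ n = 1 := by
  have h1 : b * a = b * (a * b) * b⁻¹ := by group
  rw [h1, conj_pow, h, mul_one, mul_inv_cancel]

theorem comm_one {M : Type} [Group M] {a b : M} (h : a * b = 1) : b * a = 1 := by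
  have h1 := pow_comm_one (a := a) (b := b) (n := 1) (by rw [pow_one, h])
  rwa [pow_one] at h1

/-- Powers of cyclically reduced products are nontrivial. -/
theorem pr_pow_ne_one (hf : IsBisetMap ψ ι f) (hι : Function.Injective ι)
    (h2 : ∀ g : G, g * g = 1 → g = 1) {l : List G} (hl : Rd ψ l) (h0 : l ≠ [])
    (hc : ∀ a ∈ l.getLast?, ∀ b ∈ l.head?, a * b ∉ ψ.range) {n : ℕ} (hn : 0 < n) :
    pr ψ ι f l ^ n ≠ 1 := by
  have h1 : ∀ m : ℕ, pr ψ ι f (List.replicate m l).flatten = pr ψ ι f l ^ m := by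
    intro m
    induction m with
    | zero => rfl
    | succ m ih =>
      rw [List.replicate_succ, List.flatten_cons, pr_append, ih, pow_succ']
  rw [← h1]
  apply pr_ne_one hf hι h2
  · constructor
    · intro a ha
      rw [List.mem_flatten] at ha
      obtain ⟨m, hm, ha⟩ := ha
      rw [List.eq_of_mem_replicate hm] at ha
      exact hl.1 a ha
    · rw [List.isChain_flatten]
      · refine ⟨fun m hm => ?_, List.isChain_replicate_of_rel _ hc⟩
        rw [List.eq_of_mem_replicate hm]
        exact hl.2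
      · intro h3
        exact h0 (List.eq_of_mem_replicate h3).symm
  · intro h3
    rw [List.flatten_eq_nil_iff] at h3
    exact h0 (h3 l (List.mem_replicate.2 ⟨hn.ne', rfl⟩))

theorem torsion_free_aux (hf : IsBisetMap ψ ι f) (hι : Function.Injective ι)
    (h2 : ∀ g : G, g * g = 1 → g = 1) (hH : ∀ (h : H) (n : ℕ), 0 < n → h ^ n = 1 → h = 1)
    {n : ℕ} (hn : 0 < n) : ∀ (k : ℕ) (l : List G), l.length = k → pr ψ ι f l ^ n = 1 →
      pr ψ ι f l = 1 := by
  intro k
  induction k using Nat.strong_induction_on with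
  | _ k ih =>
    intro l hk hl
    -- rotations
    have rot : ∀ a b : List G, l = a ++ b →
        (pr ψ ι f (b ++ a) ^ n = 1 ∧ (pr ψ ι f (b ++ a) = 1 → pr ψ ι f l = 1)) := by
      intro a b hab
      rw [hab, pr_append] at hl
      rw [hab, pr_append, pr_append]
      exact ⟨pow_comm_one hl, comm_one⟩
    -- the case of a letter in the subgroup
    have case1 : ∀ (a b : List G) (x : G), l = a ++ x :: b → x ∈ ψ.range → pr ψ ι f l = 1 := by
      intro a b x hab hx
      obtain ⟨h1, h3⟩ := rot a (x :: b) hab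
      apply h3
      obtain ⟨c, hc⟩ := hx
      have hlen : (b ++ a).length + 1 = k := by
        rw [← hk, hab]
        simp only [List.length_append, List.length_cons]
        omega
      rw [List.cons_append, pr_cons] at h1 ⊢
      cases hm : b ++ a with
      | nil =>
        rw [hm, pr_nil, mul_one, ← hc, ← sH_apply hf, ← map_pow] at h1
        rw [pr_nil, mul_one, ← hc]
        have h4 : c ^ n = 1 := sH_injective hf hι (by rw [h1, map_one])
        have h5 := hH c n hn h4
        rw [h5, ← sH_apply hf, map_one]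
      | cons y m =>
        rw [hm] at h1 hlen
        rw [pr_cons, ← mul_assoc, ← hc, ← ss_left hf, ← pr_cons] at h1 ⊢
        refine ih ((ψ c * y) :: m).length ?_ _ rfl h1
        rw [← hlen]
        simp
    -- the case of two adjacent letters
    have case2 : ∀ (a b : List G) (x y : G), l = a ++ x :: y :: b → x * y ∈ ψ.range →
        pr ψ ι f l = 1 := by
      intro a b x y hab hxy
      obtain ⟨h1, h3⟩ := rot a (x :: y :: b) hab
      apply h3
      rw [List.cons_append, List.cons_append, pr_cons, pr_cons, ← mul_assoc,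
        ss_mul_of_mem hf hxy, ← pr_cons] at h1 ⊢
      refine ih ((x * y) :: (b ++ a)).length ?_ _ rfl h1
      rw [← hk, hab]
      simp only [List.length_append, List.length_cons]
      omega
    by_cases h0 : l = []
    · rw [h0]
      rfl
    by_cases hR : Rd ψ l
    · by_cases hc : ∀ a ∈ l.getLast?, ∀ b ∈ l.head?, a * b ∉ ψ.range
      · exact absurd hl (pr_pow_ne_one hf hι h2 hR h0 hc hn)
      · push Not at hc
        obtain ⟨a, ha, b, hb, hab⟩ := hc
        cases l with
        | nil => exact absurd rfl h0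
        | cons y m =>
          have hb' : y = b := by simpa using hb
          subst hb'
          rcases List.eq_nil_or_concat m with rfl | ⟨m', z, rfl⟩
          · have ha' : y = a := by simpa using ha
            subst ha'
            rw [pr_cons, pr_nil, mul_one] at hl ⊢
            have h3 := ss_mul_of_mem hf hab
            obtain ⟨c, hc⟩ := hab
            have h4 : sH hf c ^ n = 1 := by
              rw [sH_apply, hc, ← h3, ← pow_two, ← pow_mul, mul_comm, pow_mul, hl, one_pow]
            rw [← map_pow] at h4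
            have h5 : c = 1 := hH c n hn (sH_injective hf hι (by rw [h4, map_one]))
            rw [h5, map_one] at hc
            have h6 : y = 1 := h2 y hc.symm
            rw [h6, ← map_one ψ, ← sH_apply hf, map_one]
          · have ha' : z = a := by
              rw [List.concat_eq_append, ← List.cons_append, List.getLast?_append] at ha
              simpa using ha
            subst ha'
            rw [List.concat_eq_append, ← List.cons_append] at *
            obtain ⟨h1, h3⟩ := rot (y :: m') [z] rfl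
            apply h3
            rw [List.singleton_append, pr_cons, pr_cons, ← mul_assoc,
              ss_mul_of_mem hf hab, ← pr_cons] at h1 ⊢
            refine ih ((z * y) :: m').length ?_ _ rfl h1
            rw [← hk]
            simp
    · unfold Rd at hR
      rw [not_and_or] at hR
      rcases hR with hR | hR
      · push Not at hR
        obtain ⟨x, hx, hx'⟩ := hR
        obtain ⟨a, b, hab⟩ := List.append_of_mem hx
        exact case1 a b x hab hx'
      · rw [List.isChain_iff_forall_rel_of_append_cons_cons] at hR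
        push Not at hR
        obtain ⟨x, y, a, b, hab, hxy⟩ := hR
        exact case2 a b x y hab hxy

theorem exists_list_of_mem (hf : IsBisetMap ψ ι f)
    {x : FreeGroup (Edge ψ ι) ⋊[permAut (Edge ψ ι) Q] Q}
    (hx : x ∈ Subgroup.closure (Set.range (ss ψ ι f))) : ∃ l : List G, x = pr ψ ι f l := by
  induction hx using Subgroup.closure_induction with
  | mem x hx =>
    obtain ⟨g, rfl⟩ := hx
    exact ⟨[g], by rw [pr_cons, pr_nil, mul_one]⟩
  | one => exact ⟨[], rfl⟩
  | mul x y _ _ hx hy =>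
    obtain ⟨l, rfl⟩ := hx
    obtain ⟨m, rfl⟩ := hy
    exact ⟨l ++ m, (pr_append l m).symm⟩
  | inv x _ hx =>
    obtain ⟨l, rfl⟩ := hx
    refine ⟨(l.map fun g => g⁻¹).reverse, ?_⟩
    rw [pr, pr, List.prod_inv_reverse, List.map_reverse, List.map_map, List.map_map]
    congr 2
    refine List.map_congr_left fun a _ => ?_
    exact (ss_inv hf a).symm

end

/-- **Envelopes.** Let `f : G → Q` be a biset map with involution, for a torsion-free subgroup `H`
of the group `G` without involutions, injective on `H`, to a group `Q` of the class. Then `G`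
embeds, as a biset with involution, into a torsion-free group of the class. -/
theorem exists_envelope {P : ∀ (G : Type) [Group G], Prop} (hP : FJ.IsFJClass P) (hQ : P Q)
    {ψ : H →* G} {ι : H →* Q} (hι : Function.Injective ι) {f : G → Q} (hf : IsBisetMap ψ ι f)
    (h2 : ∀ g : G, g * g = 1 → g = 1) (hH : ∀ (h : H) (n : ℕ), 0 < n → h ^ n = 1 → h = 1) :
    ∃ (Γ : Type) (_ : Group Γ) (φ : H →* Γ) (s : G → Γ) (r : Γ →* Q), P Γ ∧
      Function.Injective φ ∧ Function.Injective s ∧
      (∀ (x : Γ) (n : ℕ), 0 < n → x ^ n = 1 → x = 1) ∧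
      (∀ h, s (ψ h) = φ h) ∧ (∀ h g, s (ψ h * g) = φ h * s g) ∧
      (∀ g h, s (g * ψ h) = s g * φ h) ∧ (∀ g, s g⁻¹ = (s g)⁻¹) ∧ ∀ g, r (s g) = f g := by
  let Γ := Subgroup.closure (Set.range (ss ψ ι f))
  have hm : ∀ g, ss ψ ι f g ∈ Γ := fun g => Subgroup.subset_closure ⟨g, rfl⟩
  refine ⟨Γ, inferInstance, (sH hf).codRestrict Γ fun h => hm (ψ h), fun g => ⟨_, hm g⟩,
    SemidirectProduct.rightHom.comp Γ.subtype, hP.subgroup _ (semi_mem hP hQ), ?_, ?_, ?_, ?_, ?_,
    ?_, ?_, ?_⟩
  · intro a b hab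
    exact sH_injective hf hι (congrArg Subtype.val hab)
  · intro a b hab
    exact ss_injective hf hι h2 (congrArg Subtype.val hab)
  · rintro ⟨x, hx⟩ n hn h
    obtain ⟨l, rfl⟩ := exists_list_of_mem hf hx
    apply Subtype.ext
    exact torsion_free_aux hf hι h2 hH hn _ l rfl (congrArg Subtype.val h)
  · intro h
    rfl
  · intro h g
    exact Subtype.ext (ss_left hf h g)
  · intro g h
    exact Subtype.ext (ss_right hf g h)
  · intro g
    exact Subtype.ext (ss_inv hf g)
  · intro g
    rfl

end Pool.Agent.Biset
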