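import Pool.Agent.Lib.MP_98022b_ab.Esp

/-!
# The action on the dual space of the space of virtual homomorphisms
-/

set_option autoImplicit false

namespace Pool.Agent.Biset

variable {M : Type} [Group M]

/-- The subgroup `B` is commensurated by the group. -/
def Cmd (B : Subgroup M) : Prop := ∀ g : M, (B.map (MulAut.conj g).toMonoidHom).relIndex B ≠ 0 ∧
  B.relIndex (B.map (MulAut.conj g).toMonoidHom) ≠ 0

section

variable {M : Type} [Group M]

/-- conjugation on the space of virtual homomorphisms -/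
private noncomputable def cj_r1 {B : Subgroup M} (hc : Cmd B) (g : M) : Es B →ₗ[ℚ] Es B where
  toFun f := ⟨fun x => f.1 (g⁻¹ * x * g), Es.conj_mem (hc g).1 (hc g).2 f.2⟩
  map_add' f f' := rfl
  map_smul' c f := rfl

private lemma cj_apply_r1 {B : Subgroup M} (hc : Cmd B) (g : M) (f : Es B) (x : M) :
    (cj_r1 hc g f).1 x = f.1 (g⁻¹ * x * g) := rfl

private lemma cj_one_r1 {B : Subgroup M} (hc : Cmd B) (f : Es B) : cj_r1 hc 1 f = f := by
  apply Subtype.ext
  funext x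
  rw [cj_apply_r1, inv_one, one_mul, mul_one]

private lemma cj_mul_r1 {B : Subgroup M} (hc : Cmd B) (g h : M) (f : Es B) :
    cj_r1 hc (g * h) f = cj_r1 hc g (cj_r1 hc h f) := by
  apply Subtype.ext
  funext x
  rw [cj_apply_r1, cj_apply_r1, cj_apply_r1]
  congr 1
  group

/-- conjugation as an equivalence -/
private noncomputable def cjE_r1 {B : Subgroup M} (hc : Cmd B) (g : M) : Es B ≃ₗ[ℚ] Es B :=
  LinearEquiv.ofLinear (cj_r1 hc g) (cj_r1 hc g⁻¹)
    (by
      ext1 f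
      rw [LinearMap.comp_apply, ← cj_mul_r1, mul_inv_cancel, cj_one_r1, LinearMap.id_apply])
    (by
      ext1 f
      rw [LinearMap.comp_apply, ← cj_mul_r1, inv_mul_cancel, cj_one_r1, LinearMap.id_apply])

private lemma cjE_apply_r1 {B : Subgroup M} (hc : Cmd B) (g : M) (f : Es B) :
    cjE_r1 hc g f = cj_r1 hc g f := rfl

/-- the action on the dual space -/
private noncomputable def rr_r1 {B : Subgroup M} (hc : Cmd B) :
    M →* (Module.Dual ℚ (Es B) ≃ₗ[ℚ] Module.Dual ℚ (Es B)) where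
  toFun g := (cjE_r1 hc g⁻¹).dualMap
  map_one' := by
    ext φ f
    show φ (cj_r1 hc 1⁻¹ f) = φ f
    rw [inv_one, cj_one_r1]
  map_mul' g h := by
    ext φ f
    show φ (cj_r1 hc (g * h)⁻¹ f) = φ (cj_r1 hc h⁻¹ (cj_r1 hc g⁻¹ f))
    rw [mul_inv_rev, cj_mul_r1]

private lemma rr_apply_r1 {B : Subgroup M} (hc : Cmd B) (g : M) (φ : Module.Dual ℚ (Es B))
    (f : Es B) : rr_r1 hc g φ f = φ (cj_r1 hc g⁻¹ f) := rfl

/-- R1 -/
theorem exists_rep {B : Subgroup M} [FiniteDimensional ℚ (Es B)] (hc : Cmd B) :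
    ∃ (ρ : M →* (Module.Dual ℚ (Es B) ≃ₗ[ℚ] Module.Dual ℚ (Es B)))
      (ev : M → Module.Dual ℚ (Es B)),
      (∀ x (f : Es B), ev x f = f.1 x) ∧
      (∀ (g : M) (φ : Module.Dual ℚ (Es B)) (f f' : Es B), (∀ y, f'.1 y = f.1 (g * y * g⁻¹)) →
        ρ g φ f = φ f') ∧
      (∀ g x, ev (g * x * g⁻¹) = ρ g (ev x)) ∧
      (∃ K : Subgroup M, K ≤ B ∧ K.relIndex B ≠ 0 ∧ (∀ k ∈ K, ρ k = 1) ∧
        ∀ a ∈ K, ∀ b ∈ K, ev (a * b) = ev a + ev b) ∧
      ∀ x : M, (∀ ψ ∈ Es B, (∀ y, ψ (x⁻¹ * y * x) = ψ y) → ψ = 0) → ∀ w, ρ x w = w → w = 0 := by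
  obtain ⟨K, hKB, hK, hadd⟩ := Es.exists_dom (B := B)
  let ev : M → Module.Dual ℚ (Es B) := fun x => (LinearMap.proj x).comp (Es B).subtype
  have hev : ∀ x (f : Es B), ev x f = f.1 x := fun x f => rfl
  refine ⟨rr_r1 hc, ev, hev, ?_, ?_, ⟨K, hKB, hK, ?_, ?_⟩, ?_⟩
  · intro g φ f f' h
    rw [rr_apply_r1]
    congr 1
    apply Subtype.ext
    funext y
    rw [cj_apply_r1, h, inv_inv]
  · intro g x
    ext f
    rw [rr_apply_r1, hev, hev, cj_apply_r1, inv_inv]
  · intro k hk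
    ext φ f
    rw [rr_apply_r1]
    show φ (cj_r1 hc k⁻¹ f) = φ f
    congr 1
    apply Subtype.ext
    funext y
    rw [cj_apply_r1, inv_inv]
    have hconj : ∀ n : ℕ, (k * y * k⁻¹) ^ n = k * y ^ n * k⁻¹ := fun n => conj_pow
    by_cases hy : ∃ m : ℕ, 0 < m ∧ y ^ m ∈ B
    · obtain ⟨m, hm, hym⟩ := hy
      obtain ⟨j, hj, hyj⟩ := exists_pow_mem_of_relIndex hK hym
      rw [← pow_mul] at hyj
      set n := m * j with hn
      have hn0 : 0 < n := Nat.mul_pos hm hj
      have hhom := f.2.2.1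
      have e1 := hhom (k * y * k⁻¹) (n : ℤ)
      have e2 := hhom y (n : ℤ)
      have e3 := hhom k (-1 : ℤ)
      rw [zpow_natCast] at e1 e2
      rw [zpow_neg_one] at e3
      rw [hconj, hadd f.1 f.2 _ (K.mul_mem hk hyj) _ (K.inv_mem hk), hadd f.1 f.2 _ hk _ hyj,
        e3, e2] at e1
      have hn' : ((n : ℤ) : ℚ) ≠ 0 := by exact_mod_cast hn0.ne'
      have e4 : ((n : ℤ) : ℚ) * f.1 (k * y * k⁻¹) = ((n : ℤ) : ℚ) * f.1 y := by
        rw [← e1]
        push_cast
        ring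
      exact mul_left_cancel₀ hn' e4
    · push Not at hy
      have h0 := f.2.1
      rw [h0 y hy, h0]
      intro m hm hmem
      rw [hconj] at hmem
      have h1 : k⁻¹ * (k * y ^ m * k⁻¹) * k ∈ B :=
        B.mul_mem (B.mul_mem (B.inv_mem (hKB hk)) hmem) (hKB hk)
      have h2 : k⁻¹ * (k * y ^ m * k⁻¹) * k = y ^ m := by group
      rw [h2] at h1
      exact hy m hm h1
  · intro a ha b hb
    ext f
    rw [LinearMap.add_apply, hev, hev, hev]
    exact hadd f.1 f.2 a ha b hb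
  · intro x hx w hw
    have hinj : Function.Injective (cj_r1 hc x - (LinearMap.id : Es B →ₗ[ℚ] Es B)) := by
      rw [injective_iff_map_eq_zero]
      intro f hf
      rw [LinearMap.sub_apply, LinearMap.id_apply, sub_eq_zero] at hf
      apply Subtype.ext
      refine hx f.1 f.2 fun y => ?_
      have h1 := congrFun (congrArg Subtype.val hf) y
      exact h1
    have hsurj := LinearMap.injective_iff_surjective.mp hinj
    ext f
    obtain ⟨f', hf'⟩ := hsurj f
    rw [← hf', LinearMap.sub_apply, LinearMap.id_apply, map_sub, LinearMap.zero_apply]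
    have h1 := congrArg (fun z : Module.Dual ℚ (Es B) => z (cj_r1 hc x f')) hw
    rw [rr_apply_r1, ← cj_mul_r1, inv_mul_cancel, cj_one_r1] at h1
    rw [h1, sub_self]

end

end Pool.Agent.Biset
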