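import Pool.Agent.Lib.MP_98022b_ab.VP

/-!
# Virtual homomorphisms of a subgroup to the rationals, as functions on the ambient group (task E)
-/

set_option autoImplicit false

namespace Pool.Agent.Biset

variable {M : Type} [Group M]

/-- The virtual homomorphisms of the subgroup `B` of `M` to the rationals, in homogeneous form:
functions on `M`, zero on the elements without powers in `B`, additive on some subgroup `K` such
that `K ∩ B` has finite index in `B`. -/
def Es (B : Subgroup M) : Submodule ℚ (M → ℚ) where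
  carrier := {f | (∀ x, (∀ m : ℕ, 0 < m → x ^ m ∉ B) → f x = 0) ∧
    (∀ x (m : ℤ), f (x ^ m) = m * f x) ∧
    ∃ K : Subgroup M, K.relIndex B ≠ 0 ∧ ∀ a ∈ K, ∀ b ∈ K, f (a * b) = f a + f b}
  zero_mem' := by
    refine ⟨fun _ _ => rfl, fun x m => by simp, ⊤, by simp, fun a _ b _ => by simp⟩
  add_mem' := by
    rintro f g ⟨hf0, hf, K, hK, hfK⟩ ⟨hg0, hg, L, hL, hgL⟩
    refine ⟨fun x hx => ?_, fun x m => ?_, K ⊓ L, Subgroup.relIndex_inf_ne_zero hK hL,
      fun a ha b hb => ?_⟩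
    · simp only [Pi.add_apply]
      rw [hf0 x hx, hg0 x hx, add_zero]
    · simp only [Pi.add_apply, hf, hg]
      ring
    · simp only [Pi.add_apply]
      rw [hfK a ha.1 b hb.1, hgL a ha.2 b hb.2]
      ring
  smul_mem' := by
    rintro c f ⟨hf0, hf, K, hK, hfK⟩
    refine ⟨fun x hx => ?_, fun x m => ?_, K, hK, fun a ha b hb => ?_⟩
    · simp only [Pi.smul_apply, smul_eq_mul]
      rw [hf0 x hx, mul_zero]
    · simp only [Pi.smul_apply, smul_eq_mul, hf]
      ring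
    · simp only [Pi.smul_apply, smul_eq_mul]
      rw [hfK a ha b hb]
      ring

/-- E1 -/
theorem exists_pow_mem_of_relIndex {K B : Subgroup M} (h : K.relIndex B ≠ 0) {x : M}
    (hx : x ∈ B) : ∃ m : ℕ, 0 < m ∧ x ^ m ∈ K := by
  obtain ⟨m, hm, -, hm'⟩ := Subgroup.exists_pow_mem_of_relIndex_ne_zero h hx
  exact ⟨m, hm, hm'.1⟩

/-- E2 -/
theorem Es.eq_zero {B : Subgroup M} {f : M → ℚ} (hf : f ∈ Es B) {K : Subgroup M}
    (hK : K.relIndex B ≠ 0) (h : ∀ k ∈ K, k ∈ B → f k = 0) : f = 0 := by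
  obtain ⟨h0, hhom, -⟩ := hf
  funext x
  by_cases hx : ∀ m : ℕ, 0 < m → x ^ m ∉ B
  · exact h0 x hx
  · push Not at hx
    obtain ⟨m, hm, hxm⟩ := hx
    obtain ⟨k, hk, hxk⟩ := exists_pow_mem_of_relIndex hK hxm
    have h1 : f ((x ^ m) ^ k) = 0 := h _ hxk (B.pow_mem hxm k)
    have h2 : f (x ^ ((m * k : ℕ) : ℤ)) = 0 := by
      rw [zpow_natCast, pow_mul]
      exact h1
    rw [hhom] at h2
    have h3 : (((m * k : ℕ) : ℤ) : ℚ) ≠ 0 := by
      have : (m * k : ℕ) ≠ 0 := Nat.mul_ne_zero hm.ne' hk.ne'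
      exact_mod_cast this
    exact (mul_eq_zero.mp h2).resolve_left h3

private theorem le_of_comm {B B' : Subgroup M} (h : B.relIndex B' ≠ 0) (h' : B'.relIndex B ≠ 0) :
    Es B ≤ Es B' := by
  rintro f ⟨h0, hhom, K, hK, hadd⟩
  refine ⟨?_, hhom, K, Subgroup.relIndex_ne_zero_trans hK h, hadd⟩
  intro x hx
  apply h0
  intro m hm hxm
  obtain ⟨k, hk, hxk⟩ := exists_pow_mem_of_relIndex h' hxm
  exact hx (m * k) (Nat.mul_pos hm hk) (by rw [pow_mul]; exact hxk)

/-- E3 -/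
theorem Es.congr {B B' : Subgroup M} (h : B.relIndex B' ≠ 0) (h' : B'.relIndex B ≠ 0) :
    Es B = Es B' :=
  le_antisymm (le_of_comm h h') (le_of_comm h' h)

/-- E4 -/
theorem Es.finiteDimensional {n : ℕ} {B : Subgroup M} (h : VP n B) :
    FiniteDimensional ℚ (Es B) := by
  have := VP.finiteDimensional h
  let r : Es B →ₗ[ℚ] VH B :=
    { toFun := fun f => ⟨fun b => f.1 b, by
        obtain ⟨f, h0, hhom, K, hK, hadd⟩ := f
        refine ⟨fun x m => ?_, K.subgroupOf B, ⟨hK⟩, fun a ha b hb => hadd a ha b hb⟩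
        exact hhom x m⟩
      map_add' := fun f g => rfl
      map_smul' := fun c f => rfl }
  refine FiniteDimensional.of_injective r ?_
  rw [← LinearMap.ker_eq_bot, LinearMap.ker_eq_bot']
  intro f hf
  apply Subtype.ext
  refine Es.eq_zero f.2 (K := B) (by simp) ?_
  intro k _ hk
  exact congrFun (congrArg Subtype.val hf) (⟨k, hk⟩ : B)

/-- E5: virtual homomorphisms of `B` extend to `M`. -/
theorem Es.exists_of_VH {B : Subgroup M} (f : B → ℚ) (hf : f ∈ VH B) :
    ∃ g ∈ Es B, ∀ b : B, g b = f b := by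
  obtain ⟨hhom, K, hK, hadd⟩ := hf
  classical
  let F : M → ℚ := fun x => if h : x ∈ B then f ⟨x, h⟩ else 0
  have hF : ∀ b : B, F b = f b := fun b => by
    show (if h : (b : M) ∈ B then f ⟨b, h⟩ else 0) = f b
    rw [dif_pos b.2]
  have hFz : ∀ x ∈ B, ∀ m : ℤ, F (x ^ m) = m * F x := by
    intro x hx m
    have h1 := hhom ⟨x, hx⟩ m
    have h2 := hF (⟨x, hx⟩ ^ m)
    rw [h1] at h2
    have h3 := hF ⟨x, hx⟩
    simp only at h3
    rw [h3]
    exact h2
  let g : M → ℚ := fun x => if h : ∃ m : ℕ, 0 < m ∧ x ^ m ∈ B then F (x ^ h.choose) / h.choose else 0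
  have hg : ∀ x : M, ∀ m : ℕ, 0 < m → x ^ m ∈ B → g x = F (x ^ m) / m := by
    intro x m hm hxm
    have hex : ∃ m : ℕ, 0 < m ∧ x ^ m ∈ B := ⟨m, hm, hxm⟩
    have h1 : g x = F (x ^ hex.choose) / hex.choose := dif_pos hex
    rw [h1]
    obtain ⟨hn, hxn⟩ := hex.choose_spec
    have e1 := hFz _ hxm (hex.choose : ℤ)
    have e2 := hFz _ hxn (m : ℤ)
    rw [zpow_natCast, ← pow_mul] at e1 e2
    rw [mul_comm] at e2
    rw [e1] at e2
    push_cast at e2
    have hm' : (m : ℚ) ≠ 0 := by exact_mod_cast hm.ne'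
    have hn' : ((hex.choose : ℕ) : ℚ) ≠ 0 := by exact_mod_cast hn.ne'
    rw [div_eq_div_iff hn' hm']
    linarith
  have hgb : ∀ x ∈ B, g x = F x := by
    intro x hx
    have := hg x 1 one_pos (by rwa [pow_one])
    rw [this, pow_one]
    simp
  refine ⟨g, ⟨?_, ?_, K.map B.subtype, ?_, ?_⟩, ?_⟩
  · intro x hx
    exact dif_neg (by push Not; exact hx)
  · intro x k
    by_cases hx : ∃ m : ℕ, 0 < m ∧ x ^ m ∈ B
    · obtain ⟨m, hm, hxm⟩ := hx
      have h1 : (x ^ k) ^ m = (x ^ m) ^ k := by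
        rw [← zpow_natCast (x ^ k), ← zpow_mul, mul_comm, zpow_mul, zpow_natCast]
      rw [hg x m hm hxm, hg (x ^ k) m hm (by rw [h1]; exact B.zpow_mem hxm k), h1, hFz _ hxm k]
      ring
    · have h0 : g x = 0 := dif_neg hx
      rw [h0, mul_zero]
      by_cases hk : k = 0
      · rw [hk, zpow_zero, hgb 1 B.one_mem]
        have := hFz 1 B.one_mem 0
        simpa using this
      · apply dif_neg
        rintro ⟨m, hm, hxm⟩
        apply hx
        refine ⟨k.natAbs * m, Nat.mul_pos (Int.natAbs_pos.mpr hk) hm, ?_⟩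
        rw [pow_mul]
        rcases Int.natAbs_eq k with h | h
        · rw [h] at hxm
          rw [zpow_natCast] at hxm
          exact hxm
        · rw [h, zpow_neg, zpow_natCast, inv_pow] at hxm
          exact (B.inv_mem_iff).mp hxm
  · have h1 : (K.map B.subtype).relIndex B = K.index := by
      show ((K.map B.subtype).subgroupOf B).index = K.index
      rw [Subgroup.subgroupOf, Subgroup.comap_map_eq_self_of_injective B.subtype_injective]
    rw [h1]
    exact hK.index_ne_zero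
  · rintro a ⟨a', ha', rfl⟩ b ⟨b', hb', rfl⟩
    have h1 := hadd a' ha' b' hb'
    rw [← hF, ← hF, ← hF] at h1
    have h2 : (B.subtype a') * (B.subtype b') = ((a' * b' : B) : M) := rfl
    rw [h2, hgb _ (a' * b').2, h1]
    have h3 : g (B.subtype a') = F a' := hgb _ a'.2
    have h4 : g (B.subtype b') = F b' := hgb _ b'.2
    rw [h3, h4]
  · intro b
    rw [hgb _ b.2, hF]

/-- E7: homomorphisms of commensurable subgroups extend. -/
theorem Es.exists_of_hom {B D : Subgroup M} (h : B.relIndex D ≠ 0) (h' : D.relIndex B ≠ 0)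
    (c : M → ℚ) (hc : ∀ a ∈ D, ∀ b ∈ D, c (a * b) = c a + c b) :
    ∃ g ∈ Es B, ∀ d ∈ D, g d = c d := by
  let φ : D →* Multiplicative ℚ :=
    { toFun := fun d => Multiplicative.ofAdd (c d)
      map_one' := by
        have := hc 1 D.one_mem 1 D.one_mem
        rw [mul_one] at this
        have h1 : c 1 = 0 := by linarith
        show Multiplicative.ofAdd (c 1) = 1
        rw [h1, ofAdd_zero]
      map_mul' := fun a b => by
        show Multiplicative.ofAdd (c (a * b)) = Multiplicative.ofAdd (c a) * Multiplicative.ofAdd (c b)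
        rw [hc a a.2 b b.2, ofAdd_add] }
  have hφ : (fun d : D => c d) ∈ VH D := by
    refine ⟨fun x m => ?_, ⊤, inferInstance, fun a _ b _ => hc a a.2 b b.2⟩
    have h1 : φ (x ^ m) = (φ x) ^ m := map_zpow φ x m
    have h2 := congrArg Multiplicative.toAdd h1
    rw [toAdd_zpow, zsmul_eq_mul] at h2
    exact h2
  obtain ⟨g, hg, hgc⟩ := Es.exists_of_VH (fun d : D => c d) hφ
  rw [Es.congr h' h] at hg
  exact ⟨g, hg, fun d hd => hgc ⟨d, hd⟩⟩

/-- E6: a common domain of additivity. -/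
theorem Es.exists_dom {B : Subgroup M} [FiniteDimensional ℚ (Es B)] :
    ∃ K : Subgroup M, K ≤ B ∧ K.relIndex B ≠ 0 ∧
      ∀ f ∈ Es B, ∀ a ∈ K, ∀ b ∈ K, f (a * b) = f a + f b := by
  classical
  set bs := Module.finBasis ℚ (Es B) with hbs
  have hd : ∀ i, ∃ K : Subgroup M, K.relIndex B ≠ 0 ∧
      ∀ a ∈ K, ∀ b ∈ K, (bs i : M → ℚ) (a * b) = (bs i : M → ℚ) a + (bs i : M → ℚ) b :=
    fun i => (bs i).2.2.2
  choose Kf hK1 hK2 using hd
  refine ⟨B ⊓ ⨅ i, Kf i, inf_le_left, Subgroup.relIndex_inf_ne_zero (by simp)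
    (Subgroup.relIndex_iInf_ne_zero hK1), fun f hf a ha b hb => ?_⟩
  have hsum : (f : M → ℚ) = ∑ i, bs.repr ⟨f, hf⟩ i • (bs i : M → ℚ) := by
    have h1 := congrArg (fun z : Es B => (z : M → ℚ)) (bs.sum_repr ⟨f, hf⟩)
    simp only [Submodule.coe_sum, Submodule.coe_smul] at h1
    exact h1.symm
  have hev : ∀ x, f x = ∑ i, bs.repr ⟨f, hf⟩ i * (bs i : M → ℚ) x := by
    intro x
    conv_lhs => rw [hsum]
    simp [Finset.sum_apply]
  rw [hev, hev, hev, ← Finset.sum_add_distrib]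
  refine Finset.sum_congr rfl fun i _ => ?_
  rw [hK2 i a ((Subgroup.mem_iInf.1 ha.2) i) b ((Subgroup.mem_iInf.1 hb.2) i), mul_add]

/-- E8: conjugation. -/
theorem Es.conj_mem {B : Subgroup M} {g : M}
    (h : (B.map (MulAut.conj g).toMonoidHom).relIndex B ≠ 0)
    (h' : B.relIndex (B.map (MulAut.conj g).toMonoidHom) ≠ 0) {f : M → ℚ} (hf : f ∈ Es B) :
    (fun x => f (g⁻¹ * x * g)) ∈ Es B := by
  obtain ⟨hf0, hf1, K, hK, hfK⟩ := hf
  have hconj : ∀ (x : M) (m : ℤ), (g⁻¹ * x * g) ^ m = g⁻¹ * x ^ m * g := by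
    intro x m
    have := conj_zpow (a := g⁻¹) (b := x) (i := m)
    rwa [inv_inv] at this
  refine ⟨fun x hx => ?_, fun x m => ?_, K.map (MulAut.conj g).toMonoidHom, ?_, ?_⟩
  · apply hf0
    intro m hm hmem
    have h1 : x ^ m ∈ B.map (MulAut.conj g).toMonoidHom := by
      refine ⟨(g⁻¹ * x * g) ^ m, hmem, ?_⟩
      have h2 := hconj x m
      rw [zpow_natCast, zpow_natCast] at h2
      change g * (g⁻¹ * x * g) ^ m * g⁻¹ = x ^ m
      rw [h2]
      group
    obtain ⟨k, hk, hk2⟩ := exists_pow_mem_of_relIndex h' h1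
    rw [← pow_mul] at hk2
    exact hx (m * k) (Nat.mul_pos hm hk) hk2
  · change f (g⁻¹ * x ^ m * g) = m * f (g⁻¹ * x * g)
    rw [← hconj, hf1]
  · refine Subgroup.relIndex_ne_zero_trans ?_ h
    rw [Subgroup.relIndex_map_map_of_injective _ _ (MulAut.conj g).injective]
    exact hK
  · rintro _ ⟨a, ha, rfl⟩ _ ⟨b, hb, rfl⟩
    change f (g⁻¹ * ((g * a * g⁻¹) * (g * b * g⁻¹)) * g) =
      f (g⁻¹ * (g * a * g⁻¹) * g) + f (g⁻¹ * (g * b * g⁻¹) * g)
    have e1 : g⁻¹ * ((g * a * g⁻¹) * (g * b * g⁻¹)) * g = a * b := by group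
    have e2 : ∀ a : M, g⁻¹ * (g * a * g⁻¹) * g = a := fun a => by group
    rw [e1, e2, e2]
    exact hfK a ha b hb

end Pool.Agent.Biset
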