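import Pool.Agent.Lib.MP_98022b_ab.Lin
import Pool.Agent.Lib.MP_98022b_ab.Amalgam

/-!
# Bisets over torsion-free abelian groups of finite rank
-/

set_option autoImplicit false

namespace Pool.Agent.Biset

/-- The criterion: biset maps to one group of the class. -/
theorem amalgam_envelope {P : ∀ (G : Type) [Group G], Prop} (hP : FJ.IsFJClass P)
    {H Q : Type} [Group H] [Group Q] (hQ : P Q) {G : Bool → Type} [∀ i, Group (G i)]
    {ψ : ∀ i, H →* G i} {ι : H →* Q} (hι : Function.Injective ι) {f : ∀ i, G i → Q}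
    (hf : ∀ i, IsBisetMap (ψ i) ι (f i)) (h2 : ∀ i (g : G i), g * g = 1 → g = 1)
    (hH : ∀ (h : H) (n : ℕ), 0 < n → h ^ n = 1 → h = 1) :
    ∃ (Γ : Bool → Type) (_ : ∀ i, Group (Γ i)) (φ : ∀ i, H →* Γ i) (s : ∀ i, G i → Γ i),
      P (Monoid.PushoutI φ) ∧ ∀ i, Function.Injective (φ i) ∧ Function.Injective (s i) ∧
        (∀ (x : Γ i) (n : ℕ), 0 < n → x ^ n = 1 → x = 1) ∧
        (∀ h, s i (ψ i h) = φ i h) ∧ (∀ h g, s i (ψ i h * g) = φ i h * s i g) ∧
        (∀ g h, s i (g * ψ i h) = s i g * φ i h) ∧ ∀ g, s i g⁻¹ = (s i g)⁻¹ := by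
  choose Γ inst φ s r h1 h3 h4 h5 h6 h7 h8 h9 h10 using fun i =>
    exists_envelope hP hQ hι (hf i) (h2 i) hH
  refine ⟨Γ, inst, φ, s, ?_, fun i => ⟨h3 i, h4 i, h5 i, h6 i, h7 i, h8 i, h9 i⟩⟩
  refine amalgam_mem hP h3 h1 hQ hι r fun i h => ?_
  rw [← h6, h10, (hf i).sub]

/-- The group of linear automorphisms of a finite-dimensional space is a general linear group. -/
theorem linearEquiv_mem {P : ∀ (G : Type) [Group G], Prop} (hP : FJ.IsFJClass P)
    (hGL : ∀ m : ℕ, P (Matrix.GeneralLinearGroup (Fin m) ℚ)) (W : Type) [AddCommGroup W]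
    [Module ℚ W] [FiniteDimensional ℚ W] : P (W ≃ₗ[ℚ] W) := by
  let b := Module.finBasis ℚ W
  let e : Matrix.GeneralLinearGroup (Fin (Module.finrank ℚ W)) ℚ ≃*
      LinearMap.GeneralLinearGroup ℚ W :=
    Units.mapEquiv (LinearMap.toMatrixAlgEquiv b).symm.toMulEquiv
  exact hP.of_equiv ((LinearMap.GeneralLinearGroup.generalLinearEquiv ℚ W).symm.trans e.symm)
    (hGL _)

theorem abelian_envelope {P : ∀ (G : Type) [Group G], Prop} (hP : FJ.IsFJClass P)
    (hGL : ∀ m : ℕ, P (Matrix.GeneralLinearGroup (Fin m) ℚ))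
    {H V : Type} [Group H] [AddCommGroup V] [Module ℚ V] [FiniteDimensional ℚ V]
    (ι : H →* Multiplicative V) (hι : Function.Injective ι)
    {G : Bool → Type} [∀ i, Group (G i)] (h2 : ∀ i (g : G i), g * g = 1 → g = 1)
    (ψ : ∀ i, H →* G i) (hψ : ∀ i, Function.Injective (ψ i)) :
    ∃ (Γ : Bool → Type) (_ : ∀ i, Group (Γ i)) (φ : ∀ i, H →* Γ i) (s : ∀ i, G i → Γ i),
      P (Monoid.PushoutI φ) ∧ ∀ i, Function.Injective (φ i) ∧ Function.Injective (s i) ∧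
        (∀ (x : Γ i) (n : ℕ), 0 < n → x ^ n = 1 → x = 1) ∧
        (∀ h, s i (ψ i h) = φ i h) ∧ (∀ h g, s i (ψ i h * g) = φ i h * s i g) ∧
        (∀ g h, s i (g * ψ i h) = s i g * φ i h) ∧ ∀ g, s i g⁻¹ = (s i g)⁻¹ := by
  have h3 := fun i => exists_bisetMap (Q := (V × ℚ) ≃ₗ[ℚ] (V × ℚ)) (hψ i)
    (exists_good (hψ i) hι)
  choose f hf using h3
  refine amalgam_envelope hP (linearEquiv_mem hP hGL (V × ℚ))
    (tau_injective.comp hι : Function.Injective ((tau V).comp ι)) hf h2 ?_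
  intro h n hn hh
  apply hι
  have h4 := congrArg (fun x => Multiplicative.toAdd (ι x)) hh
  simp only [map_pow, toAdd_pow, map_one, toAdd_one] at h4
  rw [← Nat.cast_smul_eq_nsmul ℚ] at h4
  rw [map_one]
  exact Multiplicative.toAdd.injective
    ((smul_eq_zero.1 h4).resolve_left (Nat.cast_ne_zero.2 hn.ne'))

end Pool.Agent.Biset
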