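import Pool.Agent.Lib.MP_98022b_ab.LHull
import Pool.Agent.Lib.MP_98022b_ab.TreeMem
import Pool.Agent.Lib.MP_98022b_ab.Main
import Pool.Agent.Lib.MP_140312_al_Neg.TreeAut

/-!
# Basic properties of the class `LHull`
-/

set_option autoImplicit false

namespace Pool.Agent.Biset

open Pool.Agent.FJ Pool.Agent.Lib.MP_140312_al_SG

theorem TorsionFree.of_injective {G H : Type} [Group G] [Group H] (f : G →* H)
    (hf : Function.Injective f) (h : TorsionFree H) : TorsionFree G := by
  intro g n hn hg
  apply hf
  rw [map_one]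
  exact h (f g) n hn (by rw [← map_pow, hg, map_one])

/-- A group acting on a tree, preserving a two-colouring, with torsion-free vertex stabilizers, is
torsion-free. -/
theorem torsionFree_of_tree {G V : Type} [Group G] [MulAction G V] {T : SimpleGraph V}
    (hT : T.IsTree) (hadj : ∀ (g : G) u v, T.Adj u v → T.Adj (g • u) (g • v)) (col : V → Bool)
    (hcol : ∀ (g : G) v, col (g • v) = col v) (hc : ∀ u v, T.Adj u v → col u ≠ col v)
    (hV : ∀ v : V, TorsionFree (MulAction.stabilizer G v)) : TorsionFree G := by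
  intro g n hn hg
  by_cases hfix : ∃ v : V, g • v = v
  · obtain ⟨v, hv⟩ := hfix
    have h1 := hV v ⟨g, hv⟩ n hn (Subtype.ext hg)
    exact congrArg Subtype.val h1
  · push Not at hfix
    obtain ⟨c, l, hl, hline, hgc⟩ := MP_140312_al_Neg.TA.exists_axis hT
      ⟨hadj, col, hcol, hc⟩ g hfix
    have h1 := MP_140312_al_Neg.TA.pow_line hgc n 0
    rw [hg, one_smul] at h1
    have h2 := hline.inj hT h1
    have h3 : 0 < (n : ℤ) * l := mul_pos (by exact_mod_cast hn) hl
    omega

theorem exists_colour {V : Type} {T : SimpleGraph V} (hT : T.IsTree) :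
    ∃ c : V → Bool, ∀ u v, T.Adj u v → c u ≠ c v := by
  obtain ⟨v₀⟩ := hT.connected.nonempty
  let _ : MulAction Unit V :=
    { smul := fun _ v => v
      one_smul := fun _ => rfl
      mul_smul := fun _ _ _ => rfl }
  obtain ⟨φ, Φ, h0, hφ, -, hΦ⟩ := FJ.exists_rec (G := Unit) (M := Multiplicative (ZMod 2)) hT
    (fun _ u v h => h) (fun _ _ => Multiplicative.ofAdd 1) (fun _ _ _ => by decide)
    (fun _ _ => 1) (fun _ _ _ => (one_mul 1).symm) (fun _ _ _ _ => by
      rw [one_mul, inv_one, mul_one]) v₀
  refine ⟨fun v => decide (φ v = 1), fun u v huv h => ?_⟩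
  have h1 := hφ u v huv
  have key : ∀ a b : Multiplicative (ZMod 2), b = a * Multiplicative.ofAdd 1 →
      decide (a = 1) ≠ decide (b = 1) := by
    decide
  exact key _ _ h1 h

theorem colour_walk {V : Type} {T : SimpleGraph V} {c : V → Bool}
    (hc : ∀ u v, T.Adj u v → c u ≠ c v) {x y : V} (p : T.Walk x y) :
    (c x = c y ↔ Even p.length) := by
  induction p with
  | nil => simp
  | @cons x y z h p ih =>
    rw [SimpleGraph.Walk.length_cons, Nat.even_add_one, ← ih]
    have h1 := hc x y h
    cases hx : c x <;> cases hy : c y <;> cases hz : c z <;> simp_all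

theorem torsionFree_of_noInv {G V : Type} [Group G] [MulAction G V] {T : SimpleGraph V}
    (hT : T.IsTree) (hadj : TreeCl.Inv G T) (hinv : TreeCl.NoInv G T)
    (hV : ∀ v : V, TorsionFree (MulAction.stabilizer G v)) : TorsionFree G := by
  obtain ⟨c, hc⟩ := exists_colour hT
  have hflip : ∀ (g : G) (u v : V), (c (g • u) = c (g • v) ↔ c u = c v) := by
    intro g u v
    obtain ⟨p⟩ := hT.connected.preconnected u v
    have h1 := colour_walk hc (p.map (FJ.actHom T hadj g))
    rw [SimpleGraph.Walk.length_map] at h1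
    rw [colour_walk hc p]
    exact h1
  -- elements that preserve the colours
  have key : ∀ (g : G) (n : ℕ), 0 < n → g ^ n = 1 → (∀ v, c (g • v) = c v) → g = 1 := by
    intro g n hn hg hcg
    have h1 : TorsionFree (Subgroup.zpowers g) := by
      refine torsionFree_of_tree (G := Subgroup.zpowers g) hT (fun x u v h => hadj (x : G) u v h)
        c ?_ hc ?_
      · rintro ⟨x, hx⟩ v
        have h2 : Subgroup.zpowers g ≤
            { carrier := {x : G | ∀ v, c (x • v) = c v}
              one_mem' := fun v => by rw [one_smul]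
              mul_mem' := fun {a b} ha hb v => by
                rw [mul_smul]
                exact (ha _).trans (hb v)
              inv_mem' := fun {a} ha v => by
                have := ha (a⁻¹ • v)
                rw [smul_inv_smul] at this
                exact this.symm : Subgroup G } := by
          rw [Subgroup.zpowers_le]
          exact hcg
        exact h2 hx v
      · intro v
        refine (hV v).of_injective (((Subgroup.zpowers g).subtype.comp
          (Subgroup.subtype _)).codRestrict _ fun x => x.2) ?_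
        intro a b hab
        have h3 := congrArg Subtype.val hab
        exact Subtype.ext (Subtype.ext h3)
    exact congrArg Subtype.val (h1 ⟨g, Subgroup.mem_zpowers g⟩ n hn (Subtype.ext hg))
  intro g n hn hg
  by_cases hpres : ∀ v, c (g • v) = c v
  · exact key g n hn hg hpres
  · push Not at hpres
    obtain ⟨v, hv⟩ := hpres
    have h2 : g ^ 2 = 1 := by
      refine key (g ^ 2) n hn (by rw [← pow_mul, mul_comm, pow_mul, hg, one_pow]) fun u => ?_
      have h3 : c (g • u) ≠ c u := by
        intro h4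
        have h5 := hflip g v (g • v)
        have h6 := hflip g u v
        have h7 : c (g • u) = c u := h4
        rcases Bool.eq_or_eq_not (c u) (c v) with h8 | h8
        · exact hv ((h6.2 h8).symm.trans (h7.trans h8))
        · have h9 : c (g • u) ≠ c (g • v) := fun h => by
            have := h6.1 h
            rw [h8] at this
            cases hcv : c v <;> simp_all
          cases h10 : c (g • u) <;> cases h11 : c (g • v) <;> cases h12 : c v <;>
            cases h13 : c u <;> simp_all
      have h4 := hflip g (g • u) u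
      rw [pow_two, mul_smul]
      cases h10 : c (g • g • u) <;> cases h11 : c (g • u) <;> cases h12 : c u <;> simp_all
    exfalso
    obtain ⟨p, hp⟩ := (hT.connected.preconnected v (g • v)).exists_isPath
    have hodd : ¬ Even p.length := fun h => hv ((colour_walk hc p).2 h).symm
    obtain ⟨k, hk⟩ := Nat.not_even_iff_odd.1 hodd
    have hgg : g • g • v = v := by rw [← mul_smul, ← pow_two, h2, one_smul]
    let q : T.Walk (g • v) v := (p.map (FJ.actHom T hadj g)).copy rfl hgg
    have hq : q.IsPath := by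
      show ((p.map (FJ.actHom T hadj g)).copy rfl hgg).IsPath
      rw [SimpleGraph.Walk.isPath_copy]
      exact hp.map (MulAction.injective g)
    have h3 : q = p.reverse := congrArg Subtype.val
      ((hT.isAcyclic.subsingleton_path _ _).elim ⟨q, hq⟩ ⟨p.reverse, hp.reverse⟩)
    have h4 : ∀ i, g • p.getVert i = p.getVert (p.length - i) := by
      intro i
      have h5 : q.getVert i = g • p.getVert i := by
        show ((p.map (FJ.actHom T hadj g)).copy rfl hgg).getVert i = _
        rw [SimpleGraph.Walk.getVert_copy, SimpleGraph.Walk.getVert_map]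
        rfl
      rw [← h5, h3, SimpleGraph.Walk.getVert_reverse]
    have h5 := h4 k
    have h6 := h4 (k + 1)
    rw [show p.length - k = k + 1 by omega] at h5
    rw [show p.length - (k + 1) = k by omega] at h6
    exact hinv g _ _ (p.adj_getVert_succ (by omega)) h5 h6

theorem bs_smul_adj {G : Type} [Group G] {A : Bool → Subgroup G} (g : G)
    (u v : Σ i : Bool, G ⧸ A i) (h : (BS A).Adj u v) : (BS A).Adj (g • u) (g • v) := by
  obtain ⟨h1, a, h2, h3⟩ := h
  refine ⟨h1, g * a, ?_, ?_⟩
  · show g • u.2 = _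
    rw [h2]
    rfl
  · show g • v.2 = _
    rw [h3]
    rfl

theorem torsionFree_of_altFree {G : Type} [Group G] {A : Bool → Subgroup G} (hA : AltFree A)
    (hgen : A false ⊔ A true = ⊤) (h : ∀ i, TorsionFree (A i)) : TorsionFree G := by
  refine torsionFree_of_tree (T := BS A) (BS_isTree hA hgen) bs_smul_adj (fun v => v.1)
    (fun g v => rfl) (fun u v h => h.1) ?_
  rintro ⟨i, x⟩ ⟨g, hg⟩ n hn hgn
  induction x using QuotientGroup.induction_on with
  | H a =>
    have h1 : ((g * a : G) : G ⧸ A i) = (a : G ⧸ A i) := eq_of_heq (Sigma.mk.inj_iff.1 hg).2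
    have h2 := (A i).inv_mem (QuotientGroup.eq.1 h1)
    have h3 : a⁻¹ * g * a = ((g * a)⁻¹ * a)⁻¹ := by group
    rw [← h3] at h2
    have h4 := h i ⟨a⁻¹ * g * a, h2⟩ n hn (by
      apply Subtype.ext
      have h5 : g ^ n = 1 := congrArg Subtype.val hgn
      have h6 : a⁻¹ * g * a = a⁻¹ * g * a⁻¹⁻¹ := by rw [inv_inv]
      show (a⁻¹ * g * a) ^ n = 1
      rw [h6, conj_pow, h5, mul_one, inv_inv, inv_mul_cancel])
    have h5 : a⁻¹ * g * a = 1 := congrArg Subtype.val h4
    apply Subtype.ext
    show g = 1
    have h6 : g = a * (a⁻¹ * g * a) * a⁻¹ := by group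
    rw [h6, h5]
    group

theorem torsionFree_pushoutI {H : Type} [Group H] {G : Bool → Type} [∀ i, Group (G i)]
    {ψ : ∀ i, H →* G i} (hψ : ∀ i, Function.Injective (ψ i)) (h : ∀ i, TorsionFree (G i)) :
    TorsionFree (Monoid.PushoutI ψ) := by
  refine torsionFree_of_altFree (altFree_pushoutI ψ hψ) (pushoutI_sup_range ψ) fun i => ?_
  exact (h i).of_injective
    (MonoidHom.ofInjective (Monoid.PushoutI.of_injective (φ := ψ) hψ i)).symm.toMonoidHom
    (MonoidHom.ofInjective (Monoid.PushoutI.of_injective (φ := ψ) hψ i)).symm.injective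

theorem IsBisetEmb.injective_sub {H G Γ : Type} [Group H] [Group G] [Group Γ] {ψ : H →* G}
    {φ : H →* Γ} {s : G → Γ} (h : IsBisetEmb ψ φ s) (hφ : Function.Injective φ) :
    Function.Injective ψ := by
  intro a b hab
  apply hφ
  rw [← h.sub, ← h.sub, hab]

variable {S : ∀ (G : Type) [Group G], Prop}

theorem torsionFree_int : TorsionFree (Multiplicative ℤ) := by
  intro g n hn hg
  have h1 : (n : ℤ) * Multiplicative.toAdd g = 0 := by
    have := congrArg Multiplicative.toAdd hg
    rwa [toAdd_pow, toAdd_one, nsmul_eq_mul] at this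
  have h2 : (n : ℤ) ≠ 0 := by exact_mod_cast hn.ne'
  exact Multiplicative.toAdd.injective ((mul_eq_zero.1 h1).resolve_left h2)

theorem LHull.torsionFree {G : Type} [Group G] (h : LHull S G) : TorsionFree G := by
  induction h with
  | base _ ht => exact ht
  | colimit G f g h1 h2 h3 h4 h5 _ ih =>
    intro y n hn hy
    obtain ⟨i, x, rfl⟩ := h4 y
    rw [← map_pow] at hy
    obtain ⟨j, hij, hj⟩ := h5 i _ hy
    rw [map_pow] at hj
    rw [← h3 i j hij, ih j _ n hn hj, map_one]
  | prodZ _ ih =>
    rintro ⟨a, b⟩ n hn hg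
    have h1 : a = 1 := ih a n hn (congrArg Prod.fst hg)
    have h2 : b = 1 := torsionFree_int b n hn (congrArg Prod.snd hg)
    rw [h1, h2]
    rfl
  | @hnn G V _ _ T hT hadj hinv u w huw hk htr _ _ Γ _ φ hφ s hs e he _ _ ih _ _ _ =>
    refine torsionFree_of_noInv hT hadj hinv fun v => ?_
    obtain ⟨k, hk⟩ := hk
    have h1 : ∃ g : G, g • u = v := by
      obtain ⟨v', hv'⟩ := TreeCl.exists_adj_of_adj hT.connected huw v
      obtain ⟨g, ⟨-, h2⟩ | ⟨h2, -⟩⟩ := htr v' v hv'
      · exact ⟨g * k, by rw [mul_smul, hk, h2]⟩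
      · exact ⟨g, h2⟩
    obtain ⟨g, rfl⟩ := h1
    rintro ⟨x, hx⟩ n hn hxn
    have hx' : x • g • u = g • u := hx
    have h2 : g⁻¹ * x * g ∈ MulAction.stabilizer G u := by
      rw [MulAction.mem_stabilizer_iff, mul_smul, mul_smul, hx', inv_smul_smul]
    have h3 := ih ⟨g⁻¹ * x * g, h2⟩ n hn (by
      apply Subtype.ext
      have h5 : x ^ n = 1 := congrArg Subtype.val hxn
      have h6 : g⁻¹ * x * g = g⁻¹ * x * g⁻¹⁻¹ := by rw [inv_inv]
      show (g⁻¹ * x * g) ^ n = 1
      rw [h6, conj_pow, h5, mul_one, inv_inv, inv_mul_cancel])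
    have h5 : g⁻¹ * x * g = 1 := congrArg Subtype.val h3
    apply Subtype.ext
    show x = 1
    have h6 : x = g * (g⁻¹ * x * g) * g⁻¹ := by group
    rw [h6, h5]
    group
  | tree _ _ _ _ _ f _ _ ih =>
    intro g n hn hg
    have h1 : f g = 1 := torsionFree_int (f g) n hn (by rw [← map_pow, hg, map_one])
    exact congrArg Subtype.val (ih ⟨g, h1⟩ n hn (Subtype.ext hg))
  | amalgam ψ φ s hφ hs _ _ _ _ _ ihG _ _ =>
    exact torsionFree_pushoutI (fun i => (hs i).injective_sub (hφ i)) ihG

theorem LHull.equiv {G H : Type} [Group G] [Group H] (e : G ≃* H) (h : LHull S G) :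
    LHull S H := by
  refine LHull.colimit (ι := Unit) (fun _ => G) (fun _ _ _ => MonoidHom.id G)
    (fun _ => e.toMonoidHom) (fun _ _ => rfl) (fun _ _ _ _ _ _ => rfl) (fun _ _ _ _ => rfl)
    (fun y => ⟨(), e.symm y, e.apply_symm_apply y⟩) ?_ (fun _ => h)
  intro i x hx
  exact ⟨(), le_rfl, e.injective (hx.trans (map_one e).symm)⟩

theorem LHull.union {G ι : Type} [Group G] [Nonempty ι] (K : ι → Subgroup G)
    (hd : ∀ i j, ∃ k, K i ≤ K k ∧ K j ≤ K k) (hm : ∀ g, ∃ i, g ∈ K i)
    (h : ∀ i, LHull S (K i)) : LHull S G := by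
  letI : Preorder ι := Preorder.lift K
  haveI : IsDirectedOrder ι := ⟨fun i j => by
    obtain ⟨k, h1, h2⟩ := hd i j
    exact ⟨k, h1, h2⟩⟩
  refine LHull.colimit (fun i => K i) (fun i j hij => Subgroup.inclusion hij)
    (fun i => (K i).subtype) (fun _ _ => rfl) (fun _ _ _ _ _ _ => rfl) (fun _ _ _ _ => rfl) ?_ ?_ h
  · intro g
    obtain ⟨i, hi⟩ := hm g
    exact ⟨i, ⟨g, hi⟩, rfl⟩
  · intro i x hx
    exact ⟨i, le_rfl, Subtype.ext hx⟩

/-- The group generated by an alternating-free pair is the amalgamated product. -/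
noncomputable def pushoutEquiv {G : Type} [Group G] (A : Bool → Subgroup G) (hA : AltFree A)
    (hgen : A false ⊔ A true = ⊤) (hC : ∀ i, A false ⊓ A true ≤ A i) :
    Monoid.PushoutI (fun i => Subgroup.inclusion (hC i)) ≃* G := by
  let φ : ∀ i, (A false ⊓ A true : Subgroup G) →* A i := fun i => Subgroup.inclusion (hC i)
  let f : Monoid.PushoutI φ →* G := Monoid.PushoutI.lift (fun i => (A i).subtype)
    (A false ⊓ A true).subtype (fun i => rfl)
  have hof : ∀ (i : Bool) (a : A i), f (Monoid.PushoutI.of i a) = a := fun i a =>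
    Monoid.PushoutI.lift_of _ _ _ _
  have hbase : ∀ c, f (Monoid.PushoutI.base φ c) = c := fun c =>
    Monoid.PushoutI.lift_base _ _ _ _
  refine MulEquiv.ofBijective f ⟨?_, ?_⟩
  · rw [injective_iff_map_eq_one]
    intro x hx
    have hmem : x ∈ (Monoid.PushoutI.of (φ := φ) false).range ⊔
        (Monoid.PushoutI.of (φ := φ) true).range := by
      rw [pushoutI_sup_range]
      trivial
    let R : Bool → Subgroup (Monoid.PushoutI φ) := fun i => (Monoid.PushoutI.of (φ := φ) i).range
    have key : ∀ i n y, Wd R i n y → Wd A i n (f y) := by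
      have hlet : ∀ (i : Bool) (y : Monoid.PushoutI φ), y ∈ R i → y ∉ R (!i) →
          f y ∈ A i ∧ f y ∉ A (!i) := by
        rintro i y ⟨a, rfl⟩ hy
        rw [hof]
        refine ⟨a.2, fun h => hy ?_⟩
        have hc : (a : G) ∈ A false ⊓ A true := by
          cases i
          · exact ⟨a.2, h⟩
          · exact ⟨h, a.2⟩
        refine ⟨φ (!i) ⟨a, hc⟩, ?_⟩
        exact (Monoid.PushoutI.of_apply_eq_base φ (!i) ⟨a, hc⟩).trans
          (Monoid.PushoutI.of_apply_eq_base φ i ⟨a, hc⟩).symm
      intro i n y h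
      induction h with
      | one h1 h2 =>
        obtain ⟨h3, h4⟩ := hlet _ _ h1 h2
        exact .one h3 h4
      | cons h1 h2 _ ih =>
        obtain ⟨h3, h4⟩ := hlet _ _ h1 h2
        rw [map_mul]
        exact .cons h3 h4 ih
    rcases mem_sup_cases (Q := R) hmem with h | ⟨i, n, h⟩
    · have h' : x ∈ (Monoid.PushoutI.base φ).range := by
        rw [← pushoutI_range_inf φ (fun i => Subgroup.inclusion_injective (hC i))]
        exact h
      obtain ⟨c, rfl⟩ := h'
      rw [hbase] at hx
      rw [show c = 1 from Subtype.ext hx, map_one]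
    · exact absurd hx (altFree_iff.1 hA i n _ (key i n x h))
  · intro g
    have hg : g ∈ f.range := by
      have h1 : A false ⊔ A true ≤ f.range := by
        refine sup_le (fun a ha => ?_) (fun a ha => ?_)
        · exact ⟨_, hof false ⟨a, ha⟩⟩
        · exact ⟨_, hof true ⟨a, ha⟩⟩
      rw [hgen] at h1
      exact h1 trivial
    exact hg

end Pool.Agent.Biset
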