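import Pool.Agent.Lib.MP_98022b_ab.Loc
import Pool.Agent.Lib.MP_98022b_ab.EsRep
import Pool.Agent.Lib.MP_98022b_ab.LBasic

/-!
# Groups acting on trees with commensurable virtually polycyclic stabilizers
-/

set_option autoImplicit false

namespace Pool.Agent.Biset

open MulAction Pool.Agent.FJ

section

variable {M V : Type} [Group M] [MulAction M V] {T : SimpleGraph V}

section

open MulAction Pool.Agent.FJ Pool.Agent.Biset

section

variable {M V : Type} [Group M] [MulAction M V] {T : SimpleGraph V}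

/-- F1a -/
theorem relIndex_inf_ne {A B : Subgroup M} (h : A.relIndex B ≠ 0) (N : Subgroup M) :
    (A ⊓ N).relIndex (B ⊓ N) ≠ 0 := by
  have h1 : (A ⊓ N).relIndex (B ⊓ N) = A.relIndex (B ⊓ N) := by
    rw [← Subgroup.inf_relIndex_right (A ⊓ N), ← Subgroup.inf_relIndex_right A]
    congr 1
    ext x
    simp only [Subgroup.mem_inf]
    tauto
  rw [h1]
  intro h0
  exact h (Subgroup.relIndex_eq_zero_of_le_right inf_le_left h0)

/-- F1b: all stabilizers are commensurable. -/
theorem comm_all (hT : T.Connected) (h : ∀ u v : V, T.Adj u v →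
      (stabilizer M u).relIndex (stabilizer M v) ≠ 0) (u v : V) :
    (stabilizer M u).relIndex (stabilizer M v) ≠ 0 := by
  obtain ⟨p⟩ := hT.preconnected u v
  induction p with
  | nil => simp
  | @cons x y z hxy _ ih => exact Subgroup.relIndex_ne_zero_trans (h x y hxy) ih

private theorem map_conj_stab_f1 (N : Subgroup M) [hN : N.Normal] (v : V) (g : M) :
    (stabilizer M v ⊓ N).map (MulAut.conj g).toMonoidHom = stabilizer M (g • v) ⊓ N := by
  ext x
  constructor
  · rintro ⟨y, ⟨hy1, hy2⟩, rfl⟩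
    refine ⟨?_, hN.conj_mem y hy2 g⟩
    have hy : y • v = v := hy1
    show (g * y * g⁻¹) • g • v = g • v
    rw [mul_smul, inv_smul_smul, mul_smul, hy]
  · rintro ⟨hx1, hx2⟩
    have hx : x • g • v = g • v := hx1
    refine ⟨g⁻¹ * x * g, ⟨?_, ?_⟩, ?_⟩
    · show (g⁻¹ * x * g) • v = v
      rw [mul_smul, mul_smul, hx, inv_smul_smul]
    · have h1 := hN.conj_mem x hx2 g⁻¹
      rwa [inv_inv] at h1
    · show g * (g⁻¹ * x * g) * g⁻¹ = x
      group

/-- F1c: the intersections of the stabilizers with a normal subgroup are commensurated. -/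
theorem cmd_stab (h : ∀ u v : V, (stabilizer M u).relIndex (stabilizer M v) ≠ 0)
    (N : Subgroup M) [N.Normal] (v : V) : Cmd (stabilizer M v ⊓ N) := by
  intro g
  rw [map_conj_stab_f1]
  exact ⟨relIndex_inf_ne (h _ _) N, relIndex_inf_ne (h _ _) N⟩

end

end

section

open MulAction Pool.Agent.FJ Pool.Agent.Biset

variable {M V : Type} [Group M] [MulAction M V] {T : SimpleGraph V}

/-- F3: no fixed virtual homomorphisms. -/
theorem fix_eq_zero (lam : M →* Multiplicative ℤ) {D : Subgroup M}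
    [FiniteDimensional ℚ (Es (D ⊓ lam.ker))] (hc : Cmd (D ⊓ lam.ker))
    (hB : ∀ f ∈ Es D, ∀ x ∈ D, lam x = 1 → f x = 0) {x : M} (hx : x ∈ D) (hlx : lam x ≠ 1)
    {ψ : M → ℚ} (hψ : ψ ∈ Es (D ⊓ lam.ker)) (hfix : ∀ y, ψ (x⁻¹ * y * x) = ψ y) : ψ = 0 := by
  obtain ⟨ρ, ev, hev, hρf, hevc, ⟨K, hKB, hKi, hKρ, hKa⟩, -⟩ := exists_rep hc
  obtain ⟨b, hb, K', hK'K, hK'i, hK'b⟩ := exists_coc_rel hevc lam hKi hKρ hKa
  let D' : Subgroup M :=
    { carrier := {d | d ∈ D ∧ ∀ y, ψ (d⁻¹ * y * d) = ψ y}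
      one_mem' := ⟨D.one_mem, fun y => by simp⟩
      mul_mem' := by
        rintro a c ⟨ha, ha'⟩ ⟨hc1, hc'⟩
        refine ⟨D.mul_mem ha hc1, fun y => ?_⟩
        have e : (a * c)⁻¹ * y * (a * c) = c⁻¹ * (a⁻¹ * y * a) * c := by group
        rw [e, hc', ha']
      inv_mem' := by
        rintro a ⟨ha, ha'⟩
        refine ⟨D.inv_mem ha, fun y => ?_⟩
        have h1 := ha' (a⁻¹⁻¹ * y * a⁻¹)
        have e : a⁻¹ * (a⁻¹⁻¹ * y * a⁻¹) * a = y := by group
        rw [e] at h1
        exact h1.symm }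
  have hD'D : D' ≤ D := fun d hd => hd.1
  have hKD' : K ≤ D' := by
    intro k hk
    refine ⟨(hKB hk).1, fun y => ?_⟩
    have h1 := hevc k⁻¹ y
    rw [hKρ _ (K.inv_mem hk)] at h1
    have h2 := congrArg (fun w => w ⟨ψ, hψ⟩) h1
    simp only [hev] at h2
    rw [inv_inv] at h2
    rw [h2]
    exact hev y ⟨ψ, hψ⟩
  have hxD' : x ∈ D' := ⟨hx, hfix⟩
  have hD'B : D'.relIndex (D ⊓ lam.ker) ≠ 0 := fun h0 =>
    hKi (Nat.eq_zero_of_zero_dvd (h0 ▸ Subgroup.relIndex_dvd_of_le_left (D ⊓ lam.ker) hKD'))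
  have hidx : D'.relIndex D ≠ 0 := by
    have h1 : (D'.subgroupOf D).relIndex (lam.comp D.subtype).ker ≠ 0 := by
      have e : (lam.comp D.subtype).ker = (D ⊓ lam.ker).subgroupOf D := by
        ext d
        simp [Subgroup.mem_subgroupOf, MonoidHom.mem_ker]
      rw [e, Subgroup.relIndex_subgroupOf inf_le_left]
      exact hD'B
    have h2 := finiteIndex_of_ker (lam.comp D.subtype) (D'.subgroupOf D) h1
      ⟨⟨x, hx⟩, Subgroup.mem_subgroupOf.2 hxD', hlx⟩
    exact h2.index_ne_zero
  obtain ⟨g, hg, hgc⟩ := Es.exists_of_hom (B := D) (D := D')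
    (by rw [Subgroup.relIndex_eq_one.2 hD'D]; exact one_ne_zero) hidx
    (fun d => b d ⟨ψ, hψ⟩) (fun d hd d' hd' => by
      have h1 := hb d hd.1 d' hd'.1
      rw [h1]
      simp only [LinearMap.add_apply]
      congr 1
      refine hρf d (b d') ⟨ψ, hψ⟩ ⟨ψ, hψ⟩ fun y => ?_
      have h2 := hd.2 (d * y * d⁻¹)
      have e : d⁻¹ * (d * y * d⁻¹) * d = y := by group
      rw [e] at h2
      exact h2)
  refine Es.eq_zero hψ hK'i fun k hk hkB => ?_
  have hkD : k ∈ D := hkB.1
  have hkl : lam k = 1 := hkB.2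
  have h1 : g k = b k ⟨ψ, hψ⟩ := hgc k (hKD' (hK'K hk))
  rw [hK'b k hk hkD hkl, hev] at h1
  have h2 : g k = ψ k := h1
  rw [← h2]
  exact hB g hg k hkD hkl

end

section

open MulAction Pool.Agent.FJ Pool.Agent.Biset

variable {M : Type} [Group M]

/-- F5: passage to a subgroup that meets `B` in a subgroup of finite index. -/
theorem vanish_subgroupOf {M' B : Subgroup M} (h : M'.relIndex B ≠ 0) {N : Subgroup M}
    (hB : ∀ f ∈ Es B, ∀ x ∈ B, x ∈ N → f x = 0) :
    ∀ f ∈ Es (B.subgroupOf M'), ∀ x ∈ B.subgroupOf M', (x : M) ∈ N → f x = 0 := by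
  classical
  rintro f ⟨-, hhom, K, hK, hadd⟩ x hx hxN
  set D : Subgroup M := (K ⊓ B.subgroupOf M').map M'.subtype with hD
  have hDB : D ≤ B := by
    rintro _ ⟨y, hy, rfl⟩
    exact hy.2
  have h1 : D.relIndex (B ⊓ M') ≠ 0 := by
    rw [← Subgroup.subgroupOf_map_subtype, hD,
      Subgroup.relIndex_map_map_of_injective _ _ M'.subtype_injective,
      Subgroup.inf_relIndex_right]
    exact hK
  have h2 : D.relIndex B ≠ 0 := by
    refine Subgroup.relIndex_ne_zero_trans h1 ?_
    rw [inf_comm, Subgroup.inf_relIndex_right]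
    exact h
  have h3 : B.relIndex D ≠ 0 := by
    rw [Subgroup.relIndex_eq_one.2 hDB]
    exact one_ne_zero
  let c : M → ℚ := fun y => if hy : y ∈ M' then f ⟨y, hy⟩ else 0
  have hc : ∀ y : M', c y = f y := fun y => dif_pos y.2
  obtain ⟨g, hg, hgc⟩ := Es.exists_of_hom h3 h2 c (by
    rintro _ ⟨a, ha, rfl⟩ _ ⟨b, hb, rfl⟩
    have e1 : M'.subtype a * M'.subtype b = ((a * b : M') : M) := rfl
    have e2 : c (M'.subtype a) = f a := hc a
    have e3 : c (M'.subtype b) = f b := hc b
    rw [e1, hc, e2, e3]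
    exact hadd a ha.1 b hb.1)
  obtain ⟨m, hm, hxm⟩ := exists_pow_mem_of_relIndex hK hx
  have h4 : (x ^ m : M') ∈ K ⊓ B.subgroupOf M' := ⟨hxm, (B.subgroupOf M').pow_mem hx m⟩
  have h5 : g ((x ^ m : M') : M) = f (x ^ m) := by
    have h9 : ((x ^ m : M') : M) ∈ D := ⟨x ^ m, h4, rfl⟩
    rw [hgc _ h9]
    exact hc _
  have h6 : g ((x ^ m : M') : M) = 0 := by
    refine hB g hg _ h4.2 ?_
    rw [Subgroup.coe_pow]
    exact N.pow_mem hxN m
  have h7 := hhom x (m : ℤ)
  rw [zpow_natCast, ← h5, h6] at h7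
  have h8 : ((m : ℤ) : ℚ) ≠ 0 := by
    have : m ≠ 0 := hm.ne'
    exact_mod_cast this
  exact (mul_eq_zero.1 h7.symm).resolve_left h8

end

end

variable {P : ∀ (G : Type) [Group G], Prop}

/-- The statement for Hirsch length at most `n`. -/
def FIn (P : ∀ (G : Type) [Group G], Prop) (n : ℕ) : Prop :=
  ∀ {M V : Type} [Group M] [MulAction M V] {T : SimpleGraph V}, T.IsTree → TreeCl.Inv M T →
    TreeCl.NoInv M T → TorsionFree M → (∀ v : V, VP n (stabilizer M v)) →
    (∀ u v : V, T.Adj u v → (stabilizer M u).relIndex (stabilizer M v) ≠ 0) → P M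

section

open MulAction Pool.Agent.FJ Pool.Agent.Biset

variable {P : ∀ (G : Type) [Group G], Prop}

/-- F2 -/
theorem fi_zero (hP : IsFJClass P) : FIn P 0 := by
  intro M V _ _ T hT hadj _ htf hV _
  have key : ∀ (v : V) (g : M), g • v = v → g = 1 := by
    intro v g hg
    have hfin : Finite (stabilizer M v) := hV v
    have h1 : (⟨g, hg⟩ : stabilizer M v) ^ Nat.card (stabilizer M v) = 1 := pow_card_eq_one'
    exact htf g _ Nat.card_pos (congrArg Subtype.val h1)
  refine hP.tree_mem hT hadj ?_ (1 : M →* Multiplicative ℤ) hP.int ?_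
  · intro v
    refine hP.of_injective (1 : stabilizer M v →* Multiplicative ℤ) ?_ hP.int
    intro a b _
    apply Subtype.ext
    rw [key v a a.2, key v b b.2]
  · intro u v _ g h1 _ _
    exact key u g h1

end

section

open MulAction Pool.Agent.FJ

variable {P : ∀ (G : Type) [Group G], Prop}

private theorem zpow_mul_ne_f4 {c : Multiplicative ℤ} {b : ℤ} (hc : c ≠ 1) (h : c ^ b = 1) : b = 0 := by
  have h1 : b * Multiplicative.toAdd c = 0 := by
    have h2 := congrArg Multiplicative.toAdd h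
    rw [toAdd_zpow, toAdd_one, smul_eq_mul] at h2
    exact h2
  rcases mul_eq_zero.1 h1 with h2 | h2
  · exact h2
  · exact absurd (Multiplicative.toAdd.injective h2) hc

private theorem pow_ne_one'_f4 {c : Multiplicative ℤ} {m : ℕ} (hm : 0 < m) (hc : c ≠ 1) :
    c ^ m ≠ 1 := by
  intro h
  have h1 : c ^ (m : ℤ) = 1 := by rw [zpow_natCast, h]
  have h2 := zpow_mul_ne_f4 hc h1
  omega

section

variable {M V : Type} [Group M] [MulAction M V]

private theorem stab_sub_f4 (M' : Subgroup M) (v : V) :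
    stabilizer M' v = (stabilizer M v).subgroupOf M' := by
  ext x
  rfl

private theorem relIndex_sub_f4 {A B : Subgroup M} (M' : Subgroup M) (h : A.relIndex B ≠ 0) :
    (A.subgroupOf M').relIndex (B.subgroupOf M') ≠ 0 := by
  rw [← Subgroup.inf_subgroupOf_right B M', Subgroup.relIndex_subgroupOf inf_le_right]
  intro h0
  exact h (Subgroup.relIndex_eq_zero_of_le_right inf_le_left h0)

/-- The stabilizers in a subgroup. -/
private theorem vp_or_f4 {n : ℕ} (M' : Subgroup M) {v : V} (h : VP (n + 1) (stabilizer M v)) :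
    VP n (stabilizer M' v) ∨ M'.relIndex (stabilizer M v) ≠ 0 := by
  rcases h.finiteIndex_or (M'.subgroupOf (stabilizer M v)) with h1 | h1
  · left
    let f : stabilizer M' v →* M'.subgroupOf (stabilizer M v) :=
      { toFun := fun x => ⟨⟨((x : M') : M), x.2⟩, (x : M').2⟩
        map_one' := rfl
        map_mul' := fun _ _ => rfl }
    refine VP.of_injective f ?_ h1
    intro x y hxy
    have h2 : ((x : M') : M) = ((y : M') : M) := congrArg (fun z => ((z : stabilizer M v) : M)) (congrArg Subtype.val hxy)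
    exact Subtype.ext (Subtype.ext h2)
  · right
    exact h1.index_ne_zero

end

theorem fi_bad (hP : IsFJClass P) (hGL : ∀ m : ℕ, P (Matrix.GeneralLinearGroup (Fin m) ℚ))
    {n : ℕ} (ih : FIn P n) {M V : Type} [Group M] [MulAction M V] {T : SimpleGraph V}
    (hT : T.IsTree) (hadj : TreeCl.Inv M T) (hinv : TreeCl.NoInv M T) (htf : TorsionFree M)
    (hV : ∀ v : V, VP (n + 1) (stabilizer M v))
    (hc : ∀ u v : V, (stabilizer M u).relIndex (stabilizer M v) ≠ 0)
    (lam : M →* Multiplicative ℤ) (hl : ∀ v : V, ∃ x ∈ stabilizer M v, lam x ≠ 1)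
    (hB : ∀ v : V, ∀ f ∈ Es (stabilizer M v), ∀ x ∈ stabilizer M v, lam x = 1 → f x = 0) :
    P M := by
  obtain ⟨v₀⟩ := hT.connected.nonempty
  set N : V → Subgroup M := fun v => stabilizer M v ⊓ lam.ker with hN
  have hNc : ∀ u v, (N u).relIndex (N v) ≠ 0 := fun u v => relIndex_inf_ne (hc u v) lam.ker
  have hEs : ∀ u v, Es (N u) = Es (N v) := fun u v => Es.congr (hNc u v) (hNc v u)
  have hcmd : ∀ v, Cmd (N v) := fun v => cmd_stab hc lam.ker v
  have hVN : ∀ v, VP (n + 1) (N v) := fun v =>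
    VP.of_injective (Subgroup.inclusion (inf_le_left : N v ≤ stabilizer M v))
      (Subgroup.inclusion_injective _) (hV v)
  have hfd : ∀ v, FiniteDimensional ℚ (Es (N v)) := fun v => Es.finiteDimensional (hVN v)
  have hfd0 := hfd v₀
  obtain ⟨ρ, ev, hev, -, hconj, ⟨K, hKN, hKi, hρK, hKadd⟩, hfix'⟩ := exists_rep (hcmd v₀)
  have hfix : ∀ v : V, ∀ x ∈ stabilizer M v, lam x ≠ 1 → ∀ w, ρ x w = w → w = 0 := by
    intro v x hx hlx
    refine hfix' x fun ψ hψ hψx => ?_
    have := hfd v
    refine fix_eq_zero lam (D := stabilizer M v) (hcmd v) (hB v) hx hlx ?_ hψx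
    have h1 : Es (N v₀) = Es (stabilizer M v ⊓ lam.ker) := hEs v₀ v
    rw [← h1]
    exact hψ
  have hKv : ∀ v : V, K.relIndex (stabilizer M v ⊓ lam.ker) ≠ 0 := fun v =>
    Subgroup.relIndex_ne_zero_trans hKi (hNc v₀ v)
  obtain ⟨Φ, hΦ⟩ := exists_Phi hT hadj hinv hconj lam hKv hρK hKadd hfix
  by_cases h0 : ∀ f ∈ Es (N v₀), f = 0
  · -- the kernels are trivial
    have htriv : ∀ v, ∀ x ∈ N v, x = 1 := by
      intro v x hx
      have h1 : Finite (N v) := by
        refine (hVN v).finite_of_VH fun f hf => ?_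
        obtain ⟨g, hg, hgf⟩ := Es.exists_of_VH f hf
        rw [← hEs v₀ v] at hg
        have h2 := h0 g hg
        funext b
        rw [← hgf b, h2]
        rfl
      obtain ⟨m, hm, hxm⟩ := isOfFinOrder_iff_pow_eq_one.1
        (isOfFinOrder_of_finite (⟨x, hx⟩ : N v))
      exact htf x m hm (congrArg Subtype.val hxm)
    refine hP.tree_mem hT hadj (fun v => ?_) lam hP.int ?_
    · refine hP.of_injective (lam.comp (stabilizer M v).subtype) ?_ hP.int
      rw [injective_iff_map_eq_one]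
      intro x hx
      exact Subtype.ext (htriv v x ⟨x.2, hx⟩)
    · intro u v _ g hgu _ hg
      exact htriv u g ⟨hgu, hg⟩
  · push Not at h0
    obtain ⟨f₀, hf₀, hf₀'⟩ := h0
    have hPW : P ((Module.Dual ℚ (Es (N v₀)) × ℚ) ≃ₗ[ℚ] (Module.Dual ℚ (Es (N v₀)) × ℚ)) :=
      linearEquiv_mem hP hGL _
    refine hP.extension (lam.prod Φ) (hP.prod hP.int hPW) fun q => ?_
    set M' : Subgroup M := (Subgroup.zpowers q).comap (lam.prod Φ) with hM'
    refine ih (M := M') (T := T) hT (fun g u v h => hadj (g : M) u v h)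
      (fun g u v h h1 h2 => hinv (g : M) u v h h1 h2)
      (TorsionFree.of_injective M'.subtype M'.subtype_injective htf) (fun v => ?_)
      (fun u v _ => ?_)
    · rcases vp_or_f4 M' (hV v) with h1 | h1
      · exact h1
      · exfalso
        obtain ⟨x, hx, hlx⟩ := hl v
        obtain ⟨m, hm, hxm⟩ := exists_pow_mem_of_relIndex h1 hx
        obtain ⟨K', -, hK'i, hK'⟩ := hΦ v
        have h2 : M'.relIndex (stabilizer M v ⊓ lam.ker) ≠ 0 := fun h3 =>
          h1 (Subgroup.relIndex_eq_zero_of_le_right inf_le_left h3)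
        have h3 : (K' ⊓ M').relIndex (stabilizer M v ⊓ lam.ker) ≠ 0 :=
          Subgroup.relIndex_inf_ne_zero hK'i h2
        have h4 : ∃ k ∈ K' ⊓ M', k ∈ N v ∧ ev k ≠ 0 := by
          by_contra hcon
          push Not at hcon
          apply hf₀'
          have h5 : f₀ ∈ Es (N v) := by
            rw [← hEs v₀ v]
            exact hf₀
          refine Es.eq_zero h5 h3 fun k hk hkv => ?_
          have h6 := hcon k hk hkv
          have h7 := hev k ⟨f₀, hf₀⟩
          rw [h6] at h7
          exact h7.symm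
        obtain ⟨k, ⟨hkK, hkM⟩, hkN, hkev⟩ := h4
        obtain ⟨a, ha⟩ := hxm
        obtain ⟨b, hb⟩ := hkM
        have ha1 : q.1 ^ a = lam (x ^ m) := congrArg Prod.fst ha
        have hb1 : q.1 ^ b = lam k := congrArg Prod.fst hb
        have hlk : lam k = 1 := hkN.2
        have hq1 : q.1 ≠ 1 := by
          intro h5
          rw [h5, one_zpow, map_pow] at ha1
          exact pow_ne_one'_f4 hm hlx ha1.symm
        rw [hlk] at hb1
        have hb0 := zpow_mul_ne_f4 hq1 hb1
        have hb2 : q.2 ^ b = Φ k := congrArg Prod.snd hb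
        rw [hb0, zpow_zero] at hb2
        have h6 := hK' k hkK hkN.1 hlk
        rw [← hb2] at h6
        have h7 := congrArg (fun e => (e ((0 : Module.Dual ℚ (Es (N v₀))), (1 : ℚ))).1) h6
        simp only [aff_apply, map_zero, one_smul, zero_add] at h7
        exact hkev h7.symm
    · have h1 := relIndex_sub_f4 M' (hc u v)
      exact h1

end

section

open MulAction Pool.Agent.FJ Pool.Agent.Biset

variable {P : ∀ (G : Type) [Group G], Prop}

private theorem vp_of_finite_f6 {G : Type} [Group G] (h : Finite G) (n : ℕ) : VP n G := by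
  induction n with
  | zero => exact h
  | succ n ih => exact ih.succ

private theorem vp_comm_f6 {n : ℕ} {M : Type} [Group M] {A B : Subgroup M} (h : A.relIndex B ≠ 0)
    (hA : VP n A) : VP n B := by
  refine VP.of_finiteIndex (A.subgroupOf B) ⟨h⟩ ?_
  let f : A.subgroupOf B →* A :=
    { toFun := fun x => ⟨((x : B) : M), x.2⟩
      map_one' := rfl
      map_mul' := fun a b => rfl }
  refine VP.of_injective f ?_ hA
  intro a b hab
  have h1 : (((a : B)) : M) = ((b : B) : M) := congrArg (fun z : A => (z : M)) hab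
  exact Subtype.ext (Subtype.ext h1)

private theorem vp_swap_f6 {n : ℕ} {M : Type} [Group M] {A B : Subgroup M}
    (hA : VP n (A.subgroupOf B)) : VP n (B.subgroupOf A) := by
  let f : B.subgroupOf A →* A.subgroupOf B :=
    { toFun := fun x => ⟨⟨((x : A) : M), x.2⟩, (x : A).2⟩
      map_one' := rfl
      map_mul' := fun a b => rfl }
  refine VP.of_injective f ?_ hA
  intro a b hab
  have h1 : (((a : A)) : M) = ((b : A) : M) :=
    congrArg (fun z : A.subgroupOf B => ((z : B) : M)) hab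
  exact Subtype.ext (Subtype.ext h1)

private theorem aff_one_eq_f6 {W : Type} [AddCommGroup W] [Module ℚ W] {u : W}
    (h : (1 : (W × ℚ) ≃ₗ[ℚ] (W × ℚ)) = aff (1 : W ≃ₗ[ℚ] W) u) : u = 0 := by
  have h1 := congrArg (fun L : (W × ℚ) ≃ₗ[ℚ] (W × ℚ) => (L (0, 1)).1) h
  have h2 : ((1 : (W × ℚ) ≃ₗ[ℚ] (W × ℚ)) (0, 1)).1 = 0 := rfl
  simp only [aff_apply, h2, map_zero, one_smul, zero_add] at h1
  exact h1.symm

/-- homomorphism to the integers with the same kernel -/
private theorem exists_lam_f6 {G Q : Type} [Group G] [Group Q] (f : G →* Q) {q : Q}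
    (hq : ∀ g, f g ∈ Subgroup.zpowers q) (ho : ¬ IsOfFinOrder q) :
    ∃ lam : G →* Multiplicative ℤ, ∀ g, lam g = 1 ↔ f g = 1 := by
  have hinj : Function.Injective (zpowersHom Q q) := by
    intro a b hab
    have h1 : q ^ (Multiplicative.toAdd a) = q ^ (Multiplicative.toAdd b) := by
      simpa [zpowersHom_apply] using hab
    exact Multiplicative.toAdd.injective
      (injective_zpow_iff_not_isOfFinOrder.2 ho h1)
  let e := MonoidHom.ofInjective hinj
  have hr : ∀ g, f g ∈ (zpowersHom Q q).range := by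
    intro g
    obtain ⟨k, hk⟩ := Subgroup.mem_zpowers_iff.1 (hq g)
    refine ⟨Multiplicative.ofAdd k, ?_⟩
    simpa [zpowersHom_apply] using hk
  refine ⟨e.symm.toMonoidHom.comp (f.codRestrict (zpowersHom Q q).range hr), fun g => ?_⟩
  constructor
  · intro hg
    have h1 : f.codRestrict (zpowersHom Q q).range hr g = 1 := by
      apply e.symm.injective
      rw [map_one]
      exact hg
    exact congrArg Subtype.val h1
  · intro hg
    have h1 : f.codRestrict (zpowersHom Q q).range hr g = 1 := Subtype.ext hg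
    show e.symm (f.codRestrict (zpowersHom Q q).range hr g) = 1
    rw [h1, map_one]

private theorem stab_sub_f6 {M V : Type} [Group M] [MulAction M V] (M' : Subgroup M) (v : V) :
    stabilizer M' v = (stabilizer M v).subgroupOf M' := Subgroup.ext fun _ => Iff.rfl

/-- F6 -/
theorem fi_succ (hP : IsFJClass P) (hGL : ∀ m : ℕ, P (Matrix.GeneralLinearGroup (Fin m) ℚ))
    {n : ℕ} (ih : FIn P n) : FIn P (n + 1) := by
  intro M V _ _ T hT hadj hinv htf hV hadjc
  have hall : ∀ u v : V, (stabilizer M u).relIndex (stabilizer M v) ≠ 0 :=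
    comm_all hT.connected hadjc
  by_cases hex : ∃ v : V, VP n (stabilizer M v)
  · obtain ⟨v, hv⟩ := hex
    exact ih hT hadj hinv htf (fun w => vp_comm_f6 (hall v w) hv) hadjc
  push Not at hex
  obtain ⟨v0⟩ : Nonempty V := hT.connected.nonempty
  have hfd : FiniteDimensional ℚ (Es (stabilizer M v0)) := Es.finiteDimensional (hV v0)
  have hcmd : Cmd (stabilizer M v0) := by
    have := cmd_stab hall ⊤ v0
    rwa [inf_top_eq] at this
  obtain ⟨ρ, ev, hev1, -, hev, ⟨K, hKB, hKi, hKρ, hKa⟩, -⟩ := exists_rep hcmd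
  have hker : ∀ v : V, stabilizer M v ⊓ (1 : M →* Multiplicative ℤ).ker = stabilizer M v := by
    intro v
    rw [MonoidHom.ker_one, inf_top_eq]
  obtain ⟨Φ, hΦ⟩ := exists_Phi hT hadj hinv hev (1 : M →* Multiplicative ℤ) (K := K)
    (fun v => by
      rw [hker]
      exact Subgroup.relIndex_ne_zero_trans hKi (hall v0 v)) hKρ hKa
    (fun v x _ hx => absurd rfl hx)
  -- the kernel of the map kills the virtual homomorphisms
  have hB1 : ∀ v : V, ∀ f ∈ Es (stabilizer M v), ∀ x ∈ stabilizer M v, x ∈ Φ.ker → f x = 0 := by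
    intro v f hf x hx hxΦ
    obtain ⟨K', -, hK2, hK3⟩ := hΦ v
    rw [hker] at hK2
    obtain ⟨m, hm, hxm⟩ := exists_pow_mem_of_relIndex hK2 hx
    have h1 := hK3 (x ^ m) hxm (Subgroup.pow_mem _ hx m) rfl
    have h2 : Φ x = 1 := hxΦ
    rw [map_pow, h2, one_pow] at h1
    have h3 := aff_one_eq_f6 h1
    have hf' : f ∈ Es (stabilizer M v0) := by
      rw [Es.congr (hall v0 v) (hall v v0)]
      exact hf
    have h4 := hev1 (x ^ m) ⟨f, hf'⟩
    rw [h3] at h4
    have h5 : f (x ^ m) = 0 := h4.symm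
    have h6 := hf.2.1 x (m : ℤ)
    rw [zpow_natCast, h5] at h6
    have h7 : ((m : ℤ) : ℚ) ≠ 0 := by
      have : m ≠ 0 := hm.ne'
      exact_mod_cast this
    exact (mul_eq_zero.mp h6.symm).resolve_left h7
  -- nontrivial virtual homomorphisms
  have hne : ∀ v : V, ¬ ∀ f ∈ Es (stabilizer M v), f = 0 := by
    intro v h0
    apply hex v
    refine vp_of_finite_f6 (VP.finite_of_VH (hV v) fun f hf => ?_) n
    obtain ⟨g, hg, hgf⟩ := Es.exists_of_VH f hf
    have h1 := h0 g hg
    funext b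
    rw [← hgf b, h1]
    rfl
  refine hP.extension Φ (linearEquiv_mem hP hGL _) fun q => ?_
  set M' : Subgroup M := (Subgroup.zpowers q).comap Φ with hM'
  have hadj' : TreeCl.Inv M' T := fun g u v h => hadj (g : M) u v h
  have hinv' : TreeCl.NoInv M' T := fun g u v h h1 h2 => hinv (g : M) u v h h1 h2
  have htf' : TorsionFree M' := TorsionFree.of_injective M'.subtype M'.subtype_injective htf
  have hall' : ∀ u v : V, (stabilizer M' u).relIndex (stabilizer M' v) ≠ 0 := by
    intro u v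
    rw [stab_sub_f6, stab_sub_f6, ← Subgroup.inf_subgroupOf_right (stabilizer M u),
      ← Subgroup.inf_subgroupOf_right (stabilizer M v), Subgroup.relIndex_subgroupOf inf_le_right]
    exact relIndex_inf_ne (hall u v) M'
  by_cases hex' : ∃ v : V, VP n (M'.subgroupOf (stabilizer M v))
  · obtain ⟨v, hv⟩ := hex'
    have hv' : VP n (stabilizer M' v) := by
      rw [stab_sub_f6]
      exact vp_swap_f6 hv
    exact ih hT hadj' hinv' htf' (fun w => vp_comm_f6 (hall' v w) hv') (fun u w _ => hall' u w)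
  push Not at hex'
  have hfi : ∀ v : V, M'.relIndex (stabilizer M v) ≠ 0 := by
    intro v
    rcases VP.finiteIndex_or (hV v) (M'.subgroupOf (stabilizer M v)) with h | h
    · exact absurd h (hex' v)
    · exact h.index_ne_zero
  have ho : ¬ IsOfFinOrder q := by
    intro ho
    have h1 : Finite (Subgroup.zpowers q) := ho.finite_zpowers
    have h2 : Φ.ker.relIndex M' ≠ 0 := by
      have h3 : Φ.ker.subgroupOf M' = (Φ.comp M'.subtype).ker := Subgroup.ext fun _ => Iff.rfl
      have h4 : (Φ.comp M'.subtype).range ≤ Subgroup.zpowers q := by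
        rintro _ ⟨g, rfl⟩
        exact g.2
      have h5 : Finite (Φ.comp M'.subtype).range := Finite.of_injective (Subgroup.inclusion h4)
        (Subgroup.inclusion_injective h4)
      have h6 : (Φ.comp M'.subtype).ker.FiniteIndex := inferInstance
      rw [← h3] at h6
      exact h6.index_ne_zero
    refine hne v0 fun f hf => Es.eq_zero hf (K := Φ.ker)
      (Subgroup.relIndex_ne_zero_trans h2 (hfi v0)) fun k hk hk' => ?_
    exact hB1 v0 f hf k hk' hk
  obtain ⟨lam, hlam⟩ := exists_lam_f6 (Φ.comp M'.subtype) (q := q) (fun g => g.2) ho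
  refine fi_bad hP hGL ih hT hadj' hinv' htf' (fun v => ?_) hall' lam (fun v => ?_)
    (fun v f hf x hx hlx => ?_)
  · refine VP.of_injective (H := stabilizer M v)
      { toFun := fun x => ⟨((x : M') : M), x.2⟩
        map_one' := rfl
        map_mul' := fun a b => rfl } ?_ (hV v)
    intro a b hab
    have h1 : ((a : M') : M) = ((b : M') : M) := congrArg (fun z : stabilizer M v => (z : M)) hab
    exact Subtype.ext (Subtype.ext h1)
  · by_contra hcon
    push Not at hcon
    refine hne v fun f hf => Es.eq_zero hf (K := M') (hfi v) fun k hk hk' => ?_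
    exact hB1 v f hf k hk' ((hlam ⟨k, hk⟩).1 (hcon ⟨k, hk⟩ hk'))
  · have h1 : ((x : M') : M) ∈ Φ.ker := (hlam x).1 hlx
    rw [stab_sub_f6] at hf
    exact vanish_subgroupOf (hfi v) (hB1 v) f hf x hx h1

end

theorem fi (hP : IsFJClass P) (hGL : ∀ m : ℕ, P (Matrix.GeneralLinearGroup (Fin m) ℚ)) :
    ∀ n : ℕ, FIn P n := by
  intro n
  induction n with
  | zero => exact fi_zero hP
  | succ n ih => exact fi_succ hP hGL ih

end Pool.Agent.Biset
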