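import Mathlib

/-!
# Virtually polycyclic groups of bounded Hirsch length (task VP)
-/

set_option autoImplicit false

namespace Pool.Agent.Biset

/-- Virtually polycyclic groups of Hirsch length at most `n`. -/
def VP : ℕ → (G : Type) → [Group G] → Prop
  | 0, G, _ => Finite G
  | n + 1, G, _ => ∃ K : Subgroup G, K.FiniteIndex ∧ ∃ lam : K →* Multiplicative ℤ, VP n lam.ker

/-- V1 -/
theorem VP.of_injective {n : ℕ} {G H : Type} [Group G] [Group H] (f : G →* H)
    (hf : Function.Injective f) (h : VP n H) : VP n G := by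
  induction n generalizing G H with
  | zero =>
    have h1 : Finite H := h
    exact Finite.of_injective f hf
  | succ n ih =>
    obtain ⟨K, hK, lam, hl⟩ := h
    have hK' : (K.comap f).FiniteIndex := by
      constructor
      rw [Subgroup.index_comap]
      intro h1
      exact hK.index_ne_zero (Subgroup.index_eq_zero_of_relIndex_eq_zero h1)
    refine ⟨K.comap f, hK', lam.comp (f.subgroupComap K), ?_⟩
    refine ih (((f.subgroupComap K).comp (lam.comp (f.subgroupComap K)).ker.subtype).codRestrict
      lam.ker (fun x => x.2)) ?_ hl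
    intro x y hxy
    have h1 : f.subgroupComap K x = f.subgroupComap K y := congrArg Subtype.val hxy
    have h2 : f (x : K.comap f) = f (y : K.comap f) := congrArg Subtype.val h1
    exact Subtype.ext (Subtype.ext (hf h2))

/-- V2 -/
theorem VP.of_finiteIndex {n : ℕ} {G : Type} [Group G] (K : Subgroup G) (hK : K.FiniteIndex)
    (h : VP n K) : VP n G := by
  cases n with
  | zero =>
    have h1 : Finite K := h
    have h2 : Finite (G ⧸ K) := Subgroup.finiteIndex_iff_finite_quotient.1 hK
    exact Finite.of_equiv _ (Subgroup.groupEquivQuotientProdSubgroup (s := K)).symm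
  | succ n =>
    obtain ⟨K', hK', lam, hl⟩ := h
    let e : K' ≃* K'.map K.subtype := K'.equivMapOfInjective K.subtype K.subtype_injective
    refine ⟨K'.map K.subtype, ⟨?_⟩, lam.comp e.symm.toMonoidHom, ?_⟩
    · rw [Subgroup.index_map_subtype]
      exact mul_ne_zero hK'.index_ne_zero hK.index_ne_zero
    · refine VP.of_injective ((e.symm.toMonoidHom.comp
        (lam.comp e.symm.toMonoidHom).ker.subtype).codRestrict lam.ker (fun x => x.2)) ?_ hl
      intro x y hxy
      have h1 : e.symm x = e.symm y := congrArg Subtype.val hxy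
      exact Subtype.ext (e.symm.injective h1)

/-- V3 -/
theorem VP.succ {n : ℕ} {G : Type} [Group G] (h : VP n G) : VP (n + 1) G := by
  refine ⟨⊤, inferInstance, 1, ?_⟩
  refine VP.of_injective ((⊤ : Subgroup G).subtype.comp
    (1 : (⊤ : Subgroup G) →* Multiplicative ℤ).ker.subtype) ?_ h
  intro x y hxy
  exact Subtype.ext (Subtype.ext hxy)

private theorem rat_pow_eq_one {a : Multiplicative ℚ} {m : ℤ} (hm : m ≠ 0) (h : a ^ m = 1) : a = 1 := by
  have h1 : (m : ℚ) * a.toAdd = 0 := by
    have := congrArg Multiplicative.toAdd h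
    rw [toAdd_zpow, toAdd_one, zsmul_eq_mul] at this
    exact this
  rcases mul_eq_zero.mp h1 with h2 | h2
  · exact absurd (by exact_mod_cast h2) hm
  · rw [← ofAdd_toAdd a, h2, ofAdd_zero]

private theorem vp4_succ_of_hom {m : ℕ} {H : Type} [Group H] (mu : H →* Multiplicative ℤ)
    (h : VP m mu.ker) : VP (m + 1) H := by
  refine ⟨⊤, inferInstance, mu.comp (⊤ : Subgroup H).subtype, ?_⟩
  let f : (mu.comp (⊤ : Subgroup H).subtype).ker →* mu.ker :=
    ((⊤ : Subgroup H).subtype.comp (mu.comp (⊤ : Subgroup H).subtype).ker.subtype).codRestrict mu.ker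
      (fun x => x.2)
  refine VP.of_injective f ?_ h
  intro a b hab
  have h1 : (((a : (⊤ : Subgroup H)) : H)) = ((b : (⊤ : Subgroup H)) : H) :=
    congrArg (fun z => ((z : mu.ker) : H)) hab
  exact Subtype.ext (Subtype.ext h1)

/-- reduction to a subgroup of finite index -/
private theorem vp4_inter {m : ℕ} {G : Type} [Group G] {K : Subgroup G} (hK : K.FiniteIndex)
    (f : G →* Multiplicative ℚ) (h : VP m (f.comp K.subtype).ker) : VP m f.ker := by
  have hfi : (K.subgroupOf f.ker).FiniteIndex := inferInstance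
  refine VP.of_finiteIndex (K.subgroupOf f.ker) hfi ?_
  let φ : (K.subgroupOf f.ker) →* (f.comp K.subtype).ker :=
    { toFun := fun x => ⟨⟨((x : f.ker) : G), x.2⟩, (x : f.ker).2⟩
      map_one' := rfl
      map_mul' := fun a b => rfl }
  refine VP.of_injective φ ?_ h
  intro a b hab
  have h1 : (((a : f.ker)) : G) = ((b : f.ker) : G) :=
    congrArg (fun z => ((z : (f.comp K.subtype).ker).1 : G)) hab
  exact Subtype.ext (Subtype.ext h1)

private theorem vp4_trivial {m : ℕ} {K : Type} [Group K] (lam : K →* Multiplicative ℤ)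
    (hker : VP m lam.ker) (f : K →* Multiplicative ℚ) (hf : f ≠ 1) (hL : ∀ x, lam x = 1 → f x = 1) :
    VP m f.ker := by
  obtain ⟨k, hk⟩ : ∃ k, f k ≠ 1 := by
    by_contra hcon
    push Not at hcon
    exact hf (MonoidHom.ext hcon)
  have hle : f.ker ≤ lam.ker := by
    intro x hx
    rw [MonoidHom.mem_ker] at hx ⊢
    have h1 : lam (x ^ (lam k).toAdd * k ^ (-(lam x).toAdd)) = 1 := by
      rw [map_mul, map_zpow, map_zpow, ← toAdd_eq_zero, toAdd_mul, toAdd_zpow, toAdd_zpow]
      simp only [smul_eq_mul]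
      ring
    have h2 := hL _ h1
    rw [map_mul, map_zpow, map_zpow, hx, one_zpow, one_mul] at h2
    by_contra hne
    have h3 : -(lam x).toAdd ≠ 0 := by
      intro h0
      apply hne
      rw [neg_eq_zero] at h0
      rw [← ofAdd_toAdd (lam x), h0, ofAdd_zero]
    exact hk (rat_pow_eq_one h3 h2)
  exact VP.of_injective (Subgroup.inclusion hle) (Subgroup.inclusion_injective hle) hker

private theorem vp4_ne_one {G : Type} [Group G] {K : Subgroup G} (hK : K.FiniteIndex)
    (f : G →* Multiplicative ℚ) (hf : f ≠ 1) : f.comp K.subtype ≠ 1 := by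
  intro h
  apply hf
  apply MonoidHom.ext
  intro g
  obtain ⟨m, hm0, -, hm⟩ := Subgroup.exists_pow_mem_of_index_ne_zero hK.index_ne_zero g
  have h1 : f (g ^ m) = 1 := by
    have := DFunLike.congr_fun h (⟨g ^ m, hm⟩ : K)
    exact this
  rw [map_pow] at h1
  have h2 : (f g) ^ (m : ℤ) = 1 := by rw [zpow_natCast]; exact h1
  exact rat_pow_eq_one (by exact_mod_cast hm0.ne') h2

/-- V4: the kernel of a nontrivial homomorphism to the rationals. -/
theorem VP.ker {n : ℕ} {G : Type} [Group G] (h : VP (n + 1) G) (f : G →* Multiplicative ℚ)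
    (hf : f ≠ 1) : VP n f.ker := by
  induction n generalizing G with
  | zero =>
    obtain ⟨K, hK, lam, hker⟩ := h
    refine vp4_inter hK f ?_
    refine vp4_trivial lam hker _ (vp4_ne_one hK f hf) ?_
    intro x hx
    have hfin : Finite lam.ker := hker
    have hx' : (⟨x, hx⟩ : lam.ker) ^ Nat.card lam.ker = 1 := pow_card_eq_one'
    have h1 : x ^ Nat.card lam.ker = 1 := congrArg Subtype.val hx'
    have h2 : ((f.comp K.subtype) x) ^ ((Nat.card lam.ker : ℕ) : ℤ) = 1 := by
      rw [zpow_natCast, ← map_pow, h1, map_one]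
    exact rat_pow_eq_one (by exact_mod_cast Nat.card_pos.ne') h2
  | succ m ih =>
    obtain ⟨K, hK, lam, hker⟩ := h
    refine vp4_inter hK f ?_
    by_cases hL : (f.comp K.subtype).comp lam.ker.subtype = 1
    · refine vp4_trivial lam hker _ (vp4_ne_one hK f hf) ?_
      intro x hx
      exact DFunLike.congr_fun hL (⟨x, hx⟩ : lam.ker)
    · have h1 := ih hker ((f.comp K.subtype).comp lam.ker.subtype) hL
      refine vp4_succ_of_hom (lam.comp (f.comp K.subtype).ker.subtype) ?_
      let φ : (lam.comp (f.comp K.subtype).ker.subtype).ker →*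
          ((f.comp K.subtype).comp lam.ker.subtype).ker :=
        { toFun := fun x => ⟨⟨((x : (f.comp K.subtype).ker) : K), x.2⟩, (x : (f.comp K.subtype).ker).2⟩
          map_one' := rfl
          map_mul' := fun a b => rfl }
      refine VP.of_injective φ ?_ h1
      intro a b hab
      have h1 : (((a : (f.comp K.subtype).ker)) : K) = ((b : (f.comp K.subtype).ker) : K) :=
        congrArg (fun z => ((z : ((f.comp K.subtype).comp lam.ker.subtype).ker).1 : K)) hab
      exact Subtype.ext (Subtype.ext h1)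

/-- V5: cyclic extensions. -/
theorem VP.ext_cyclic {n : ℕ} {G Q : Type} [Group G] [Group Q] (f : G →* Q) (q : Q)
    (hq : ∀ g, f g ∈ Subgroup.zpowers q) (h : VP n f.ker) : VP (n + 1) G := by
  by_cases ho : IsOfFinOrder q
  · have h1 : Finite (Subgroup.zpowers q) := ho.finite_zpowers
    have h2 : f.range ≤ Subgroup.zpowers q := by
      rintro _ ⟨g, rfl⟩
      exact hq g
    have h3 : Finite f.range := Finite.of_injective (Subgroup.inclusion h2)
      (Subgroup.inclusion_injective h2)
    exact (VP.of_finiteIndex f.ker inferInstance h).succ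
  · have hinj : Function.Injective (zpowersHom Q q) := by
      intro a b hab
      have h1 : q ^ (Multiplicative.toAdd a) = q ^ (Multiplicative.toAdd b) := by
        simpa [zpowersHom_apply] using hab
      exact Multiplicative.toAdd.injective
        (injective_zpow_iff_not_isOfFinOrder.2 ho h1)
    let e := MonoidHom.ofInjective hinj
    have hr : ∀ g, f g ∈ (zpowersHom Q q).range := by
      intro g
      obtain ⟨k, hk⟩ := Subgroup.mem_zpowers_iff.1 (hq g)
      refine ⟨Multiplicative.ofAdd k, ?_⟩
      simpa [zpowersHom_apply] using hk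
    let lam0 : G →* Multiplicative ℤ :=
      e.symm.toMonoidHom.comp (f.codRestrict (zpowersHom Q q).range hr)
    have hl0 : ∀ g, lam0 g = 1 → f g = 1 := by
      intro g hg
      have h1 : f.codRestrict (zpowersHom Q q).range hr g = 1 := by
        apply e.symm.injective
        rw [map_one]
        exact hg
      exact congrArg Subtype.val h1
    refine ⟨⊤, inferInstance, lam0.comp (⊤ : Subgroup G).subtype, ?_⟩
    refine VP.of_injective (((⊤ : Subgroup G).subtype.comp
      (lam0.comp (⊤ : Subgroup G).subtype).ker.subtype).codRestrict f.ker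
        (fun x => hl0 _ x.2)) ?_ h
    intro x y hxy
    have h1 := congrArg (fun z : f.ker => (z : G)) hxy
    exact Subtype.ext (Subtype.ext h1)

/-- V6a: a subgroup that has finite index in the kernel and in the image. -/
theorem finiteIndex_of_ker {G : Type} [Group G] (lam : G →* Multiplicative ℤ) (D : Subgroup G)
    (h1 : D.relIndex lam.ker ≠ 0) (h2 : ∃ d ∈ D, lam d ≠ 1) : D.FiniteIndex := by
  obtain ⟨d, hd, hdl⟩ := h2
  have hn0 : (lam d).toAdd ≠ 0 := by
    intro h
    exact hdl (by rw [← ofAdd_toAdd (lam d), h, ofAdd_zero])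
  have hfin : Finite (lam.ker ⧸ D.subgroupOf lam.ker) := by
    have : (D.subgroupOf lam.ker).FiniteIndex := ⟨h1⟩
    infer_instance
  classical
  -- representatives
  let g : ℕ → G := fun j => if h : ∃ x : G, (lam x).toAdd = (j : ℤ) then h.choose else 1
  let φ : Fin ((lam d).toAdd.natAbs) × (lam.ker ⧸ D.subgroupOf lam.ker) → G ⧸ D :=
    fun p => QuotientGroup.mk (g p.1 * (p.2.out : lam.ker))
  have hsurj : Function.Surjective φ := by
    intro y
    obtain ⟨x, rfl⟩ := QuotientGroup.mk_surjective y
    -- reduce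
    set q : ℤ := (lam x).toAdd / (lam d).toAdd with hq
    set r : G := x * d ^ (-q) with hr
    have hlr : (lam r).toAdd = (lam x).toAdd % (lam d).toAdd := by
      rw [hr, map_mul, map_zpow, toAdd_mul, toAdd_zpow]
      have := Int.emod_add_mul_ediv (lam x).toAdd (lam d).toAdd
      rw [← hq] at this
      simp only [smul_eq_mul]
      linarith
    have h0 : 0 ≤ (lam r).toAdd := by
      rw [hlr]
      exact Int.emod_nonneg _ hn0
    have h1' : (lam r).toAdd < (lam d).toAdd.natAbs := by
      rw [hlr]
      have := Int.emod_lt_abs (lam x).toAdd hn0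
      rwa [Int.abs_eq_natAbs] at this
    obtain ⟨j, hj⟩ := Int.eq_ofNat_of_zero_le h0
    have hjlt : j < (lam d).toAdd.natAbs := by
      rw [hj] at h1'
      exact_mod_cast h1'
    have hex : ∃ x : G, (lam x).toAdd = (j : ℤ) := ⟨r, hj⟩
    have hg : (lam (g j)).toAdd = (j : ℤ) := by
      have : g j = hex.choose := dif_pos hex
      rw [this]
      exact hex.choose_spec
    have hker : (g j)⁻¹ * r ∈ lam.ker := by
      rw [MonoidHom.mem_ker, map_mul, map_inv, ← ofAdd_toAdd (lam (g j)), ← ofAdd_toAdd (lam r), hg, hj]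
      simp
    refine ⟨(⟨j, hjlt⟩, QuotientGroup.mk ⟨(g j)⁻¹ * r, hker⟩), ?_⟩
    obtain ⟨δ, hδ⟩ := QuotientGroup.mk_out_eq_mul (D.subgroupOf lam.ker) (⟨(g j)⁻¹ * r, hker⟩ : lam.ker)
    have hφ : φ (⟨j, hjlt⟩, QuotientGroup.mk ⟨(g j)⁻¹ * r, hker⟩) =
        QuotientGroup.mk (g j * ((QuotientGroup.mk (⟨(g j)⁻¹ * r, hker⟩ : lam.ker) : lam.ker ⧸ D.subgroupOf lam.ker).out : lam.ker)) := rfl
    rw [hφ, hδ, QuotientGroup.eq]
    have hδD : ((δ : lam.ker) : G) ∈ D := δ.2
    have : (g j * (((⟨(g j)⁻¹ * r, hker⟩ : lam.ker) * (δ : lam.ker) : lam.ker) : G))⁻¹ * x =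
        ((δ : lam.ker) : G)⁻¹ * d ^ q := by
      have e1 : (((⟨(g j)⁻¹ * r, hker⟩ : lam.ker) * (δ : lam.ker) : lam.ker) : G) =
          (g j)⁻¹ * r * ((δ : lam.ker) : G) := rfl
      rw [e1, hr]
      group
    rw [this]
    exact D.mul_mem (D.inv_mem hδD) (D.zpow_mem hd q)
  have : Finite (G ⧸ D) := Finite.of_surjective φ hsurj
  exact Subgroup.finiteIndex_of_finite_quotient

private theorem vp_succ_of_hom {m : ℕ} {H : Type} [Group H] (mu : H →* Multiplicative ℤ)
    (h : VP m mu.ker) : VP (m + 1) H := by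
  refine ⟨⊤, inferInstance, mu.comp (⊤ : Subgroup H).subtype, ?_⟩
  let f : (mu.comp (⊤ : Subgroup H).subtype).ker →* mu.ker :=
    ((⊤ : Subgroup H).subtype.comp (mu.comp (⊤ : Subgroup H).subtype).ker.subtype).codRestrict mu.ker
      (fun x => x.2)
  refine VP.of_injective f ?_ h
  intro a b hab
  have h1 : (((a : (⊤ : Subgroup H)) : H)) = ((b : (⊤ : Subgroup H)) : H) :=
    congrArg (fun z => ((z : mu.ker) : H)) hab
  exact Subtype.ext (Subtype.ext h1)

private theorem vp_of_le {m : ℕ} {G : Type} [Group G] {A B : Subgroup G} (hAB : A ≤ B)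
    (h : VP m B) : VP m A :=
  VP.of_injective (Subgroup.inclusion hAB) (Subgroup.inclusion_injective hAB) h

private theorem vp_inter {m : ℕ} {G : Type} [Group G] {L K : Subgroup G} (hK : K.FiniteIndex)
    (h : VP m (L.subgroupOf K)) : VP m L := by
  have hfi : (K.subgroupOf L).FiniteIndex := inferInstance
  refine VP.of_finiteIndex (K.subgroupOf L) hfi ?_
  let f : (K.subgroupOf L) →* (L.subgroupOf K) :=
    { toFun := fun x => ⟨⟨((x : L) : G), x.2⟩, (x : L).2⟩
      map_one' := rfl
      map_mul' := fun a b => rfl }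
  refine VP.of_injective f ?_ h
  intro a b hab
  have h1 : (((a : L)) : G) = ((b : L) : G) := congrArg (fun z => ((z : L.subgroupOf K).1 : G)) hab
  exact Subtype.ext (Subtype.ext h1)

/-- V6: subgroups of full Hirsch length have finite index. -/
theorem VP.finiteIndex_or {n : ℕ} {G : Type} [Group G] (h : VP (n + 1) G) (L : Subgroup G) :
    VP n L ∨ L.FiniteIndex := by
  induction n generalizing G with
  | zero =>
    obtain ⟨K, hK, lam, hker⟩ := h
    by_cases hB : ∃ d ∈ L.subgroupOf K, lam d ≠ 1
    · right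
      have hfin : Finite lam.ker := hker
      have h1 : (L.subgroupOf K).relIndex lam.ker ≠ 0 := by
        have : ((L.subgroupOf K).subgroupOf lam.ker).FiniteIndex := inferInstance
        exact this.index_ne_zero
      have h2 := finiteIndex_of_ker lam (L.subgroupOf K) h1 hB
      have h3 : L.relIndex K ≠ 0 := h2.index_ne_zero
      have h4 : (L ⊓ K).index ≠ 0 := by
        rw [← Subgroup.relIndex_mul_index (inf_le_right : L ⊓ K ≤ K), Subgroup.inf_relIndex_right]
        exact mul_ne_zero h3 hK.index_ne_zero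
      have : (L ⊓ K).FiniteIndex := ⟨h4⟩
      exact Subgroup.finiteIndex_of_le (inf_le_left : L ⊓ K ≤ L)
    · left
      push Not at hB
      refine vp_inter hK ?_
      exact vp_of_le (fun x hx => hB x hx) hker
  | succ m ih =>
    obtain ⟨K, hK, lam, hker⟩ := h
    by_cases hB : ∃ d ∈ L.subgroupOf K, lam d ≠ 1
    · rcases ih hker ((L.subgroupOf K).subgroupOf lam.ker) with h1 | h1
      · left
        refine vp_inter hK ?_
        refine vp_succ_of_hom (lam.comp (L.subgroupOf K).subtype) ?_
        let f : (lam.comp (L.subgroupOf K).subtype).ker →* ((L.subgroupOf K).subgroupOf lam.ker) :=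
          { toFun := fun x => ⟨⟨((x : L.subgroupOf K) : K), x.2⟩, (x : L.subgroupOf K).2⟩
            map_one' := rfl
            map_mul' := fun a b => rfl }
        refine VP.of_injective f ?_ h1
        intro a b hab
        have h1 : (((a : L.subgroupOf K)) : K) = ((b : L.subgroupOf K) : K) :=
          congrArg (fun z => ((z : (L.subgroupOf K).subgroupOf lam.ker).1 : K)) hab
        exact Subtype.ext (Subtype.ext h1)
      · right
        have h2 := finiteIndex_of_ker lam (L.subgroupOf K) h1.index_ne_zero hB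
        have h3 : L.relIndex K ≠ 0 := h2.index_ne_zero
        have h4 : (L ⊓ K).index ≠ 0 := by
          rw [← Subgroup.relIndex_mul_index (inf_le_right : L ⊓ K ≤ K), Subgroup.inf_relIndex_right]
          exact mul_ne_zero h3 hK.index_ne_zero
        have : (L ⊓ K).FiniteIndex := ⟨h4⟩
        exact Subgroup.finiteIndex_of_le (inf_le_left : L ⊓ K ≤ L)
    · left
      push Not at hB
      refine vp_inter hK ?_
      exact vp_of_le (fun x hx => hB x hx) hker

/-- V7: homogeneous functions that are additive on a subgroup of finite index. -/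
def VH (G : Type) [Group G] : Submodule ℚ (G → ℚ) where
  carrier := {f | (∀ x (m : ℤ), f (x ^ m) = m * f x) ∧
    ∃ K : Subgroup G, K.FiniteIndex ∧ ∀ a ∈ K, ∀ b ∈ K, f (a * b) = f a + f b}
  zero_mem' := by
    refine ⟨fun x m => by simp, ⊤, inferInstance, fun a _ b _ => by simp⟩
  add_mem' := by
    rintro f g ⟨hf, K, hK, hfK⟩ ⟨hg, L, hL, hgL⟩
    refine ⟨fun x m => ?_, K ⊓ L, inferInstance, fun a ha b hb => ?_⟩
    · simp only [Pi.add_apply, hf, hg]
      ring
    · simp only [Pi.add_apply]
      rw [hfK a ha.1 b hb.1, hgL a ha.2 b hb.2]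
      ring
  smul_mem' := by
    rintro c f ⟨hf, K, hK, hfK⟩
    refine ⟨fun x m => ?_, K, hK, fun a ha b hb => ?_⟩
    · simp only [Pi.smul_apply, smul_eq_mul, hf]
      ring
    · simp only [Pi.smul_apply, smul_eq_mul]
      rw [hfK a ha b hb]
      ring

/-- Restriction along a homomorphism. -/
private theorem vh_comp {G H : Type} [Group G] [Group H] (φ : H →* G) {f : G → ℚ}
    (hf : f ∈ VH G) : (fun h => f (φ h)) ∈ VH H := by
  obtain ⟨h1, K, hK, h2⟩ := hf
  refine ⟨fun x m => ?_, K.comap φ, ⟨?_⟩, fun a ha b hb => ?_⟩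
  · change f (φ (x ^ m)) = m * f (φ x)
    rw [map_zpow, h1]
  · rw [Subgroup.index_comap]
    exact mt Subgroup.index_eq_zero_of_relIndex_eq_zero hK.index_ne_zero
  · change f (φ (a * b)) = f (φ a) + f (φ b)
    rw [map_mul]
    exact h2 _ ha _ hb

/-- V7a -/
theorem VP.finiteDimensional {n : ℕ} {G : Type} [Group G] (h : VP n G) :
    FiniteDimensional ℚ (VH G) := by
  induction n generalizing G with
  | zero =>
    have : Finite G := h
    infer_instance
  | succ n ih =>
    obtain ⟨K, hK, lam, hlam⟩ := h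
    have hfd := ih hlam
    -- a point where `lam` is nontrivial, if there is one
    obtain ⟨x0, hx0⟩ : ∃ x0 : K, lam x0 = 1 → lam = 1 := by
      by_cases h1 : lam = 1
      · exact ⟨1, fun _ => h1⟩
      · obtain ⟨x, hx⟩ := DFunLike.ne_iff.1 h1
        exact ⟨x, fun h => absurd h hx⟩
    set φ : lam.ker →* G := K.subtype.comp lam.ker.subtype with hφ
    set R : VH G →ₗ[ℚ] VH lam.ker :=
      (LinearMap.funLeft ℚ ℚ (φ : lam.ker → G)).restrict (fun f hf => vh_comp φ hf) with hR
    set E : VH G →ₗ[ℚ] ℚ := (LinearMap.proj (x0 : G)).comp (VH G).subtype with hE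
    refine Module.Finite.of_injective (R.prod E) ?_
    rw [← LinearMap.ker_eq_bot, LinearMap.ker_eq_bot']
    rintro ⟨f, hf⟩ hf0
    have hL : R ⟨f, hf⟩ = 0 := congrArg Prod.fst hf0
    have hx : E ⟨f, hf⟩ = 0 := congrArg Prod.snd hf0
    have hL' : ∀ l : lam.ker, f (φ l) = 0 := by
      intro l
      have := congrFun (congrArg Subtype.val hL) l
      exact this
    have hx' : f (x0 : G) = 0 := hx
    obtain ⟨h1, K1, hK1, h2⟩ := hf
    apply Subtype.ext
    funext y
    change f y = 0
    obtain ⟨m, hm, -, hmem⟩ := Subgroup.exists_pow_mem_of_index_ne_zero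
      (Subgroup.index_inf_ne_zero hK.index_ne_zero hK1.index_ne_zero) y
    obtain ⟨j, hj, -, hjmem⟩ := Subgroup.exists_pow_mem_of_index_ne_zero hK1.index_ne_zero
      (x0 : G)
    set z : K := ⟨y ^ m, hmem.1⟩ with hz
    set a : ℤ := Multiplicative.toAdd (lam z) with ha
    set b : ℤ := Multiplicative.toAdd (lam x0) with hb
    have hyz : f ((z : K) : G) = m * f y := by
      have := h1 y m
      rw [zpow_natCast] at this
      simpa [hz] using this
    have hzf : f ((z : K) : G) = 0 := by
      by_cases hb0 : b = 0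
      · -- `lam` is trivial
        have hl : lam = 1 := hx0 (by
          apply Multiplicative.toAdd.injective
          exact hb0)
        exact hL' ⟨z, by rw [MonoidHom.mem_ker, hl]; rfl⟩
      · have hu : z ^ ((j : ℤ) * b) * x0 ^ (-((j : ℤ) * a)) ∈ lam.ker := by
          rw [MonoidHom.mem_ker, map_mul, map_zpow, map_zpow]
          apply Multiplicative.toAdd.injective
          rw [toAdd_mul, toAdd_zpow, toAdd_zpow, toAdd_one, ← ha, ← hb]
          simp only [smul_eq_mul]
          ring
        have h3 := hL' ⟨_, hu⟩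
        have h4 : φ ⟨_, hu⟩ = ((z : K) : G) ^ ((j : ℤ) * b) * (x0 : G) ^ (-((j : ℤ) * a)) := by
          simp [hφ]
        rw [h4, h2 _ (Subgroup.zpow_mem _ hmem.2 _) _ (by
          rw [neg_mul_eq_mul_neg, zpow_mul, zpow_natCast]
          exact Subgroup.zpow_mem _ hjmem _), h1, h1, hx', mul_zero, add_zero, mul_eq_zero] at h3
        rcases h3 with h3 | h3
        · exfalso
          have h5 : (j : ℤ) * b ≠ 0 := mul_ne_zero (by omega) hb0
          exact h5 (by exact_mod_cast h3)
        · exact h3
    rw [hzf] at hyz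
    have : (m : ℚ) ≠ 0 := by
      have : m ≠ 0 := by omega
      exact_mod_cast this
    have h6 := hyz.symm
    rw [mul_eq_zero] at h6
    rcases h6 with h6 | h6
    · exact absurd h6 this
    · exact h6

/-- V8a: a group that is not of smaller Hirsch length has a nontrivial virtual homomorphism. -/
theorem VP.exists_VH {n : ℕ} {G : Type} [Group G] (h : VP (n + 1) G) (h' : ¬ VP n G) :
    ∃ f ∈ VH G, f ≠ 0 := by
  obtain ⟨K, hK, lam, hl⟩ := h
  have hN : K.normalCore.FiniteIndex := inferInstance
  set N := K.normalCore with hNdef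
  have hNK : N ≤ K := K.normalCore_le
  set m := N.index with hm
  have hm0 : (m : ℚ) ≠ 0 := by exact_mod_cast hN.index_ne_zero
  have hpow : ∀ x : G, x ^ m ∈ K := fun x => hNK (N.pow_index_mem x)
  let L : G → ℤ := fun x => Multiplicative.toAdd (lam ⟨x ^ m, hpow x⟩)
  have hLN : ∀ a (ha : a ∈ N), L a = m * Multiplicative.toAdd (lam ⟨a, hNK ha⟩) := by
    intro a ha
    have h1 : (⟨a ^ m, hpow a⟩ : K) = ⟨a, hNK ha⟩ ^ m := rfl
    simp only [L]
    rw [h1, map_pow, toAdd_pow, nsmul_eq_mul]
  refine ⟨fun x => (L x : ℚ) / m, ⟨fun x k => ?_, N, hN, fun a ha b hb => ?_⟩, ?_⟩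
  · have h1 : L (x ^ k) = k * L x := by
      have h2 : (⟨(x ^ k) ^ m, hpow (x ^ k)⟩ : K) = ⟨x ^ m, hpow x⟩ ^ k := by
        apply Subtype.ext
        change (x ^ k) ^ m = (x ^ m) ^ k
        rw [← zpow_natCast, ← zpow_mul, ← zpow_natCast, ← zpow_mul, mul_comm]
      simp only [L]
      rw [h2, map_zpow, toAdd_zpow, smul_eq_mul]
    simp only [h1]
    push_cast
    ring
  · simp only [hLN _ ha, hLN _ hb, hLN _ (N.mul_mem ha hb)]
    have h1 : (⟨a * b, hNK (N.mul_mem ha hb)⟩ : K) = ⟨a, hNK ha⟩ * ⟨b, hNK hb⟩ := rfl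
    rw [h1, map_mul, toAdd_mul]
    push_cast
    field_simp
  · intro h0
    apply h'
    have hz : ∀ a (ha : a ∈ N), lam ⟨a, hNK ha⟩ = 1 := by
      intro a ha
      have h1 := congrFun h0 a
      simp only [hLN _ ha, Pi.zero_apply] at h1
      push_cast at h1
      rw [mul_div_assoc, mul_div_cancel₀ _ hm0] at h1
      have h2 : Multiplicative.toAdd (lam ⟨a, hNK ha⟩) = 0 := by exact_mod_cast h1
      exact Multiplicative.toAdd.injective h2
    refine VP.of_finiteIndex N hN ?_
    refine VP.of_injective ((Subgroup.inclusion hNK).codRestrict lam.ker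
      (fun x => hz x.1 x.2)) ?_ hl
    intro x y hxy
    have h1 : Subgroup.inclusion hNK x = Subgroup.inclusion hNK y := congrArg Subtype.val hxy
    exact Subgroup.inclusion_injective hNK h1

/-- V8: an infinite virtually polycyclic group has a nontrivial virtual homomorphism. -/
theorem VP.finite_of_VH {n : ℕ} {G : Type} [Group G] (h : VP n G) (h0 : ∀ f ∈ VH G, f = 0) :
    Finite G := by
  induction n with
  | zero => exact h
  | succ n ih =>
    by_cases h1 : VP n G
    · exact ih h1
    · obtain ⟨f, h2, h3⟩ := h.exists_VH h1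
      exact absurd (h0 f h2) h3

end Pool.Agent.Biset
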