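import Pool.Agent.Lib.MP_98022b_h66.Hull
import Pool.Agent.Lib.MP_98022b_ab.VP

/-!
# The class of groups reached by the closure properties of the L-theoretic assembly isomorphism
-/

set_option autoImplicit false

namespace Pool.Agent.Biset

open Pool.Agent.FJ

/-- The group has no elements of finite order other than `1`. -/
def TorsionFree (G : Type) [Group G] : Prop := ∀ (g : G) (n : ℕ), 0 < n → g ^ n = 1 → g = 1

/-- Let `ψ : H → G` and `φ : H → Γ` be homomorphisms. The map `s : G → Γ` is an embedding of
`H`-bisets with involution: it is injective, agrees with `φ` on `H`, commutes with the left and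
right multiplications by elements of `H`, and with the inversion. -/
structure IsBisetEmb {H G Γ : Type} [Group H] [Group G] [Group Γ] (ψ : H →* G) (φ : H →* Γ)
    (s : G → Γ) : Prop where
  injective : Function.Injective s
  sub : ∀ h, s (ψ h) = φ h
  left : ∀ h g, s (ψ h * g) = φ h * s g
  right : ∀ g h, s (g * ψ h) = s g * φ h
  inv : ∀ g, s g⁻¹ = (s g)⁻¹

/-- Every finitely generated subgroup is virtually polycyclic. -/
def LVP (G : Type) [Group G] : Prop :=
  ∀ s : Finset G, ∃ n : ℕ, VP n (Subgroup.closure (s : Set G))

/-- The smallest class of groups with the following properties.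
* It contains the torsion-free groups of the class `FJHull S`.
* It is closed under directed colimits.
* It is closed under direct products with the infinite cyclic group.
* It contains `G` if `G` acts without inversions on a tree with vertex stabilizers in the class and
  locally virtually polycyclic edge stabilizers and there is a homomorphism from `G` to the
  integers with kernel in the class.
* It contains `G₁ *_H G₂` if it contains `H`, `G₁`, `G₂` and groups `Γ₁, Γ₂ ⊇ H` and `Γ₁ *_H Γ₂`
  such that there are embeddings of `H`-bisets with involution `G₁ → Γ₁` and `G₂ → Γ₂`.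
* It contains the HNN extension `G` (given by an action on a tree without inversions with one orbit
  of vertices and one of edges) if it contains the stabilizers of a vertex and of an edge, say `H`,
  a group `Γ ⊇ H` and `(H × ℤ) *_H Γ`, such that there is an embedding of `H`-bisets with
  involution `G → Γ`. -/
inductive LHull (S : ∀ (G : Type) [Group G], Prop) : (G : Type) → [Group G] → Prop
  /-- torsion-free groups of the class `FJHull S` -/
  | base {G : Type} [Group G] (h : FJHull S G) (ht : TorsionFree G) : LHull S G
  /-- directed colimits: `L` is the colimit of the directed system `(G i, f i j)` with canonical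
  maps `g i` -/
  | colimit {ι : Type} [Preorder ι] [IsDirectedOrder ι] [Nonempty ι]
      (G : ι → Type) [∀ i, Group (G i)] (f : ∀ i j, i ≤ j → G i →* G j)
      {L : Type} [Group L] (g : ∀ i, G i →* L)
      (h1 : ∀ i x, f i i le_rfl x = x)
      (h2 : ∀ i j k (hij : i ≤ j) (hjk : j ≤ k) x,
        f j k hjk (f i j hij x) = f i k (hij.trans hjk) x)
      (h3 : ∀ i j (hij : i ≤ j) x, g j (f i j hij x) = g i x)
      (h4 : ∀ y, ∃ i x, g i x = y)
      (h5 : ∀ i x, g i x = 1 → ∃ j, ∃ hij : i ≤ j, f i j hij x = 1)
      (h : ∀ i, LHull S (G i)) : LHull S L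
  /-- products with the infinite cyclic group -/
  | prodZ {G : Type} [Group G] (h : LHull S G) : LHull S (G × Multiplicative ℤ)
  /-- groups that act on a tree with small edge stabilizers and map to the integers -/
  | tree {G V : Type} [Group G] [MulAction G V] {T : SimpleGraph V} (hT : T.IsTree)
      (hadj : ∀ (g : G) (u v : V), T.Adj u v → T.Adj (g • u) (g • v))
      (hinv : ∀ (g : G) (u v : V), T.Adj u v → g • u = v → g • v = u → False)
      (hV : ∀ v : V, LHull S (MulAction.stabilizer G v))
      (hE : ∀ u v : V, T.Adj u v →
        LVP (MulAction.stabilizer G u ⊓ MulAction.stabilizer G v : Subgroup G))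
      (f : G →* Multiplicative ℤ) (h : LHull S f.ker) : LHull S G
  /-- the biset rule for amalgams -/
  | amalgam {H : Type} [Group H] {G Γ : Bool → Type} [∀ i, Group (G i)] [∀ i, Group (Γ i)]
      (ψ : ∀ i, H →* G i) (φ : ∀ i, H →* Γ i) (s : ∀ i, G i → Γ i)
      (hφ : ∀ i, Function.Injective (φ i)) (hs : ∀ i, IsBisetEmb (ψ i) (φ i) (s i))
      (hH : LHull S H) (hG : ∀ i, LHull S (G i)) (hΓ : ∀ i, LHull S (Γ i))
      (h : LHull S (Monoid.PushoutI φ)) : LHull S (Monoid.PushoutI ψ)
  /-- the biset rule for HNN extensions -/
  | hnn {G V : Type} [Group G] [MulAction G V] {T : SimpleGraph V} (hT : T.IsTree)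
      (hadj : ∀ (g : G) (u v : V), T.Adj u v → T.Adj (g • u) (g • v))
      (hinv : ∀ (g : G) (u v : V), T.Adj u v → g • u = v → g • v = u → False)
      {u w : V} (huw : T.Adj u w) (hk : ∃ k : G, k • u = w)
      (htr : ∀ x y : V, T.Adj x y →
        ∃ g : G, (g • u = x ∧ g • w = y) ∨ (g • u = y ∧ g • w = x))
      (hu : LHull S (MulAction.stabilizer G u))
      (hH : LHull S (MulAction.stabilizer G u ⊓ MulAction.stabilizer G w : Subgroup G))
      {Γ : Bool → Type} [∀ i, Group (Γ i)]
      (φ : ∀ i, (MulAction.stabilizer G u ⊓ MulAction.stabilizer G w : Subgroup G) →* Γ i)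
      (hφ : ∀ i, Function.Injective (φ i)) (s : G → Γ true)
      (hs : IsBisetEmb
        (MulAction.stabilizer G u ⊓ MulAction.stabilizer G w : Subgroup G).subtype (φ true) s)
      (e : Γ false ≃*
        (MulAction.stabilizer G u ⊓ MulAction.stabilizer G w : Subgroup G) × Multiplicative ℤ)
      (he : ∀ x, e (φ false x) = (x, 1))
      (hΓ : LHull S (Γ true)) (h : LHull S (Monoid.PushoutI φ)) : LHull S G

end Pool.Agent.Biset
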