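import Pool.Agent.Lib.MP_98022b_ab.Rep

/-!
# The affine biset map for a torsion-free abelian subgroup of finite rank
-/

set_option autoImplicit false

namespace Pool.Agent.Biset

open Module

section Extend

variable {V : Type} [AddCommGroup V] [Module ℚ V]

/-- The first projection of a relation. -/
def pf (R : Submodule ℚ (V × V)) : R →ₗ[ℚ] V := (LinearMap.fst ℚ V V).comp R.subtype

/-- The second projection of a relation. -/
def ps (R : Submodule ℚ (V × V)) : R →ₗ[ℚ] V := (LinearMap.snd ℚ V V).comp R.subtype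

theorem pf_injective {R : Submodule ℚ (V × V)} (h1 : ∀ v, (0, v) ∈ R → v = 0) :
    Function.Injective (pf R) := by
  rw [← LinearMap.ker_eq_bot, LinearMap.ker_eq_bot']
  rintro ⟨⟨a, b⟩, hm⟩ h
  have h' : a = 0 := h
  subst h'
  apply Subtype.ext
  exact Prod.ext rfl (h1 b hm)

theorem ps_injective {R : Submodule ℚ (V × V)} (h2 : ∀ v, (v, 0) ∈ R → v = 0) :
    Function.Injective (ps R) := by
  rw [← LinearMap.ker_eq_bot, LinearMap.ker_eq_bot']
  rintro ⟨⟨a, b⟩, hm⟩ h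
  have h' : b = 0 := h
  subst h'
  apply Subtype.ext
  exact Prod.ext (h2 a hm) rfl

theorem exists_ext_aux {R : Submodule ℚ (V × V)} (h1 : ∀ v, (0, v) ∈ R → v = 0)
    (h2 : ∀ v, (v, 0) ∈ R → v = 0) {C₁ C₂ : Submodule ℚ V}
    (hC₁ : IsCompl (LinearMap.range (pf R)) C₁) (hC₂ : IsCompl (LinearMap.range (ps R)) C₂)
    (B : C₂ ≃ₗ[ℚ] C₁) : ∃ A : V ≃ₗ[ℚ] V, (∀ v v', (v, v') ∈ R → A v' = v) ∧
      ∀ c : C₂, A (c : V) = B c := by
  let e₁ := LinearEquiv.ofInjective (pf R) (pf_injective h1)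
  let e₂ := LinearEquiv.ofInjective (ps R) (ps_injective h2)
  refine ⟨(Submodule.prodEquivOfIsCompl _ _ hC₂).symm.trans
    (((e₂.symm.trans e₁).prodCongr B).trans (Submodule.prodEquivOfIsCompl _ _ hC₁)), ?_, ?_⟩
  · intro v v' hv
    have h4 : (Submodule.prodEquivOfIsCompl _ _ hC₂).symm v' = (e₂ ⟨(v, v'), hv⟩, 0) :=
      Submodule.prodEquivOfIsCompl_symm_apply_left _ _ hC₂ (e₂ ⟨(v, v'), hv⟩)
    rw [LinearEquiv.trans_apply, LinearEquiv.trans_apply, h4, LinearEquiv.prodCongr_apply,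
      map_zero, LinearEquiv.trans_apply, LinearEquiv.symm_apply_apply,
      Submodule.coe_prodEquivOfIsCompl']
    show (e₁ ⟨(v, v'), hv⟩ : V) + ((0 : C₁) : V) = v
    rw [Submodule.coe_zero, add_zero]
    rfl
  · intro c
    have h4 : (Submodule.prodEquivOfIsCompl _ _ hC₂).symm (c : V) = (0, c) :=
      Submodule.prodEquivOfIsCompl_symm_apply_right _ _ hC₂ c
    rw [LinearEquiv.trans_apply, LinearEquiv.trans_apply, h4, LinearEquiv.prodCongr_apply,
      map_zero, Submodule.coe_prodEquivOfIsCompl', Submodule.coe_zero, zero_add]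

theorem exists_ext [FiniteDimensional ℚ V] {R : Submodule ℚ (V × V)}
    (h1 : ∀ v, (0, v) ∈ R → v = 0) (h2 : ∀ v, (v, 0) ∈ R → v = 0) :
    ∃ A : V ≃ₗ[ℚ] V, ∀ v v', (v, v') ∈ R → A v' = v := by
  obtain ⟨C₁, hC₁⟩ := Submodule.exists_isCompl (LinearMap.range (pf R))
  obtain ⟨C₂, hC₂⟩ := Submodule.exists_isCompl (LinearMap.range (ps R))
  have h3 := Submodule.finrank_add_eq_of_isCompl hC₁
  have h4 := Submodule.finrank_add_eq_of_isCompl hC₂
  rw [LinearMap.finrank_range_of_inj (pf_injective h1)] at h3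
  rw [LinearMap.finrank_range_of_inj (ps_injective h2)] at h4
  obtain ⟨A, hA, -⟩ := exists_ext_aux h1 h2 hC₁ hC₂ (LinearEquiv.ofFinrankEq C₂ C₁ (by omega))
  exact ⟨A, hA⟩

theorem exists_ext_symm {R : Submodule ℚ (V × V)}
    (h1 : ∀ v, (0, v) ∈ R → v = 0) (h3 : ∀ v v', (v, v') ∈ R → (v', v) ∈ R) :
    ∃ A : V ≃ₗ[ℚ] V, (∀ v v', (v, v') ∈ R → A v' = v) ∧ ∀ v, A (A v) = v := by
  have h2 : ∀ v, (v, 0) ∈ R → v = 0 := fun v hv => h1 v (h3 _ _ hv)
  obtain ⟨C, hC⟩ := Submodule.exists_isCompl (LinearMap.range (pf R))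
  have h4 : LinearMap.range (ps R) = LinearMap.range (pf R) := by
    ext x
    constructor
    · rintro ⟨⟨⟨a, b⟩, hm⟩, rfl⟩
      exact ⟨⟨(b, a), h3 _ _ hm⟩, rfl⟩
    · rintro ⟨⟨⟨a, b⟩, hm⟩, rfl⟩
      exact ⟨⟨(b, a), h3 _ _ hm⟩, rfl⟩
  have hC' : IsCompl (LinearMap.range (ps R)) C := by rw [h4]; exact hC
  obtain ⟨A, hA, hB⟩ := exists_ext_aux h1 h2 hC hC' (LinearEquiv.refl ℚ C)
  refine ⟨A, hA, fun v => ?_⟩
  have hv : v ∈ LinearMap.range (ps R) ⊔ C := by rw [hC'.sup_eq_top]; trivial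
  obtain ⟨y, ⟨⟨⟨a, b⟩, hm⟩, hy⟩, c, hc, rfl⟩ := Submodule.mem_sup.1 hv
  have hy' : b = y := hy
  subst hy'
  have h5 : A c = c := hB ⟨c, hc⟩
  rw [map_add, hA _ _ hm, h5, map_add, hA _ _ (h3 _ _ hm), h5]

end Extend

section Aff

variable {V : Type} [AddCommGroup V] [Module ℚ V]

/-- The affine map `w ↦ A w + u`, as a linear map of `V × ℚ`. -/
def aff (A : V ≃ₗ[ℚ] V) (u : V) : (V × ℚ) ≃ₗ[ℚ] (V × ℚ) where
  toFun p := (A p.1 + p.2 • u, p.2)
  invFun p := (A.symm (p.1 - p.2 • u), p.2)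
  map_add' p q := by
    refine Prod.ext ?_ rfl
    show A (p.1 + q.1) + (p.2 + q.2) • u = A p.1 + p.2 • u + (A q.1 + q.2 • u)
    rw [map_add, add_smul]
    abel
  map_smul' c p := by
    refine Prod.ext ?_ rfl
    show A (c • p.1) + (c * p.2) • u = c • (A p.1 + p.2 • u)
    rw [map_smul, smul_add, mul_smul]
  left_inv p := by
    refine Prod.ext ?_ rfl
    show A.symm (A p.1 + p.2 • u - p.2 • u) = p.1
    rw [add_sub_cancel_right, LinearEquiv.symm_apply_apply]
  right_inv p := by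
    refine Prod.ext ?_ rfl
    show A (A.symm (p.1 - p.2 • u)) + p.2 • u = p.1
    rw [LinearEquiv.apply_symm_apply, sub_add_cancel]

theorem aff_apply (A : V ≃ₗ[ℚ] V) (u : V) (p : V × ℚ) : aff A u p = (A p.1 + p.2 • u, p.2) := rfl

theorem aff_mul (A B : V ≃ₗ[ℚ] V) (u v : V) : aff A u * aff B v = aff (A * B) (A v + u) := by
  refine LinearEquiv.ext fun p => ?_
  refine Prod.ext ?_ rfl
  show A (B p.1 + p.2 • v) + p.2 • u = A (B p.1) + p.2 • (A v + u)
  rw [map_add, map_smul, smul_add, add_assoc]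

/-- Translations. -/
def tau (V : Type) [AddCommGroup V] [Module ℚ V] :
    Multiplicative V →* ((V × ℚ) ≃ₗ[ℚ] (V × ℚ)) where
  toFun v := aff 1 (Multiplicative.toAdd v)
  map_one' := by
    refine LinearEquiv.ext fun p => ?_
    refine Prod.ext ?_ rfl
    show p.1 + p.2 • (0 : V) = p.1
    rw [smul_zero, add_zero]
  map_mul' v w := by
    rw [aff_mul, toAdd_mul, mul_one, add_comm]
    rfl

theorem tau_apply (v : Multiplicative V) : tau V v = aff 1 (Multiplicative.toAdd v) := rfl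

theorem tau_injective : Function.Injective (tau V) := by
  intro v w h
  have h1 := congrArg (fun F : (V × ℚ) ≃ₗ[ℚ] (V × ℚ) => (F (0, 1)).1) h
  simp only [tau_apply, aff_apply, map_zero, one_smul, zero_add] at h1
  exact Multiplicative.toAdd.injective h1

end Aff

section Rel

variable {V : Type} [AddCommGroup V] [Module ℚ V] {H : Type} [Group H]

/-- The rational span of a subgroup of `H × H`. -/
def relSub (ι : H →* Multiplicative V) (K : Subgroup (H × H)) : Submodule ℚ (V × V) where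
  carrier := {p | ∃ m : ℕ, 0 < m ∧ ∃ k ∈ K, m • p.1 = Multiplicative.toAdd (ι k.1) ∧
    m • p.2 = Multiplicative.toAdd (ι k.2)}
  zero_mem' := ⟨1, one_pos, 1, K.one_mem, by simp, by simp⟩
  add_mem' := by
    rintro p q ⟨m, hm, k, hk, h1, h2⟩ ⟨n, hn, l, hl, h3, h4⟩
    refine ⟨m * n, mul_pos hm hn, k ^ n * l ^ m, K.mul_mem (K.pow_mem hk n) (K.pow_mem hl m),
      ?_, ?_⟩
    · rw [Prod.fst_mul, Prod.pow_fst, Prod.pow_fst, map_mul, map_pow, map_pow, toAdd_mul,
        toAdd_pow, toAdd_pow, ← h1, ← h3, Prod.fst_add, smul_add, ← mul_smul, ← mul_smul,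
        mul_comm n m]
    · rw [Prod.snd_mul, Prod.pow_snd, Prod.pow_snd, map_mul, map_pow, map_pow, toAdd_mul,
        toAdd_pow, toAdd_pow, ← h2, ← h4, Prod.snd_add, smul_add, ← mul_smul, ← mul_smul,
        mul_comm n m]
  smul_mem' := by
    rintro c p ⟨m, hm, k, hk, h1, h2⟩
    have key : ∀ v : V, (c.den * m) • (c • v) = c.num • (m • v) := by
      intro v
      have h5 : (c.den : ℚ) * c = c.num := by
        rw [mul_comm]
        exact Rat.mul_den_eq_num c
      rw [mul_comm, mul_smul, ← Nat.cast_smul_eq_nsmul ℚ c.den, ← mul_smul, h5,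
        ← Int.cast_smul_eq_zsmul ℚ, smul_comm]
    refine ⟨c.den * m, mul_pos c.pos hm, k ^ c.num, K.zpow_mem hk _, ?_, ?_⟩
    · rw [Prod.smul_fst, key, h1, Prod.pow_fst, map_zpow, toAdd_zpow]
    · rw [Prod.smul_snd, key, h2, Prod.pow_snd, map_zpow, toAdd_zpow]

theorem mem_relSub {ι : H →* Multiplicative V} {K : Subgroup (H × H)} {k k' : H}
    (h : (k, k') ∈ K) :
    (Multiplicative.toAdd (ι k), Multiplicative.toAdd (ι k')) ∈ relSub ι K :=
  ⟨1, one_pos, (k, k'), h, one_smul _ _, one_smul _ _⟩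

theorem relSub_left {ι : H →* Multiplicative V} (hι : Function.Injective ι)
    {K : Subgroup (H × H)} (hK : ∀ k', (1, k') ∈ K → k' = 1) (v : V)
    (hv : (0, v) ∈ relSub ι K) : v = 0 := by
  obtain ⟨m, hm, ⟨k, k'⟩, hk, h1, h2⟩ := hv
  have h3 : k = 1 := by
    apply hι
    rw [map_one]
    apply Multiplicative.toAdd.injective
    rw [toAdd_one]
    exact h1.symm.trans (smul_zero m)
  subst h3
  have h4 := hK _ hk
  subst h4
  rw [map_one, toAdd_one] at h2
  rw [← Nat.cast_smul_eq_nsmul ℚ] at h2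
  exact (smul_eq_zero.1 h2).resolve_left (Nat.cast_ne_zero.2 hm.ne')

theorem relSub_symm {ι : H →* Multiplicative V} {K : Subgroup (H × H)}
    (hK : ∀ k k', (k, k') ∈ K → (k', k) ∈ K) (v v' : V) (hv : (v, v') ∈ relSub ι K) :
    (v', v) ∈ relSub ι K := by
  obtain ⟨m, hm, ⟨k, k'⟩, hk, h1, h2⟩ := hv
  exact ⟨m, hm, (k', k), hK _ _ hk, h2, h1⟩

theorem relSub_right {ι : H →* Multiplicative V} (hι : Function.Injective ι)
    {K : Subgroup (H × H)} (hK : ∀ k, (k, 1) ∈ K → k = 1) (v : V)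
    (hv : (v, 0) ∈ relSub ι K) : v = 0 := by
  obtain ⟨m, hm, ⟨k, k'⟩, hk, h1, h2⟩ := hv
  have h3 : k' = 1 := by
    apply hι
    rw [map_one]
    apply Multiplicative.toAdd.injective
    rw [toAdd_one]
    exact h2.symm.trans (smul_zero m)
  subst h3
  have h4 := hK _ hk
  subst h4
  rw [map_one, toAdd_one] at h1
  rw [← Nat.cast_smul_eq_nsmul ℚ] at h1
  exact (smul_eq_zero.1 h1).resolve_left (Nat.cast_ne_zero.2 hm.ne')

end Rel

section Good

variable {V : Type} [AddCommGroup V] [Module ℚ V] {G H : Type} [Group G] [Group H]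

/-- The pairs `(k, k')` with `k x = x k'`. -/
def conjRel (ψ : H →* G) (x : G) : Subgroup (H × H) where
  carrier := {p | ψ p.1 * x = x * ψ p.2}
  one_mem' := by
    show ψ (1 : H) * x = x * ψ (1 : H)
    rw [map_one, one_mul, mul_one]
  mul_mem' := by
    intro a b ha hb
    have ha : ψ a.1 * x = x * ψ a.2 := ha
    have hb : ψ b.1 * x = x * ψ b.2 := hb
    show ψ (a.1 * b.1) * x = x * ψ (a.2 * b.2)
    rw [map_mul, map_mul, mul_assoc, hb, ← mul_assoc, ha, mul_assoc]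
  inv_mem' := by
    intro a ha
    have ha : ψ a.1 * x = x * ψ a.2 := ha
    show ψ (a.1)⁻¹ * x = x * ψ (a.2)⁻¹
    rw [map_inv, map_inv, inv_mul_eq_iff_eq_mul, ← mul_assoc, ha, mul_inv_cancel_right]

theorem mem_conjRel {ψ : H →* G} {x : G} {k k' : H} :
    (k, k') ∈ conjRel ψ x ↔ ψ k * x = x * ψ k' := Iff.rfl

theorem aff_good_aux {ψ : H →* G} {ι : H →* Multiplicative V} {x : G} {A : V ≃ₗ[ℚ] V}
    (hA : ∀ v v', (v, v') ∈ relSub ι (conjRel ψ x) → A v' = v) (u : V) (k k' : H)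
    (hk : ψ k * x = x * ψ k') :
    (tau V).comp ι k * aff A u = aff A u * (tau V).comp ι k' := by
  have h1 := hA _ _ (mem_relSub (mem_conjRel.2 hk))
  rw [MonoidHom.comp_apply, MonoidHom.comp_apply, tau_apply, tau_apply, aff_mul, aff_mul, h1,
    one_mul, mul_one, add_comm]
  rfl

theorem exists_good [FiniteDimensional ℚ V] {ψ : H →* G} (hψ : Function.Injective ψ)
    {ι : H →* Multiplicative V} (hι : Function.Injective ι) (g : G) :
    ∃ (x : G) (F : (V × ℚ) ≃ₗ[ℚ] (V × ℚ)), (∃ a b, x = ψ a * g * ψ b) ∧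
      Good ψ ((tau V).comp ι) x F := by
  have hleft : ∀ x : G, ∀ v, (0, v) ∈ relSub ι (conjRel ψ x) → v = 0 := by
    intro x
    refine relSub_left hι fun k' hk => ?_
    rw [mem_conjRel, map_one, one_mul] at hk
    apply hψ
    rw [map_one]
    exact (mul_eq_left (a := x)).1 hk.symm
  have hright : ∀ x : G, ∀ v, (v, 0) ∈ relSub ι (conjRel ψ x) → v = 0 := by
    intro x
    refine relSub_right hι fun k hk => ?_
    rw [mem_conjRel, map_one, mul_one] at hk
    apply hψ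
    rw [map_one]
    exact (mul_eq_right (b := x)).1 hk
  by_cases hs : ∃ a b : H, g⁻¹ = ψ a * g * ψ b
  · obtain ⟨a, b, hab⟩ := hs
    have hcomm : ∀ s t : H, s * t = t * s := fun s t => hι (by
      rw [map_mul, map_mul, mul_comm])
    set d : G := g * ψ a with hd
    obtain ⟨c, hc⟩ : ∃ c : H, d * d = ψ c := by
      refine ⟨b⁻¹ * a, ?_⟩
      have h1 : ψ a * g = g⁻¹ * (ψ b)⁻¹ := by rw [hab]; group
      calc d * d = g * (ψ a * g) * ψ a := by rw [hd]; group
        _ = ψ (b⁻¹ * a) := by rw [h1, map_mul, map_inv]; group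
    have hsym : ∀ k k' : H, (k, k') ∈ conjRel ψ d → (k', k) ∈ conjRel ψ d := by
      intro k k' hk
      rw [mem_conjRel] at hk ⊢
      have h1 : ψ k' = d⁻¹ * (ψ k * d) := by rw [hk]; group
      calc ψ k' * d = d⁻¹ * (ψ k * (d * d)) := by rw [h1]; group
        _ = d⁻¹ * (ψ c * ψ k) := by rw [hc, ← map_mul, ← map_mul, hcomm]
        _ = d * ψ k := by rw [← hc]; group
    obtain ⟨A, hA, hAA⟩ := exists_ext_symm (hleft d) (relSub_symm hsym)
    let u : V := (1 / 2 : ℚ) • Multiplicative.toAdd (ι c)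
    have hcc : A (Multiplicative.toAdd (ι c)) = Multiplicative.toAdd (ι c) := by
      refine hA _ _ (mem_relSub ?_)
      rw [mem_conjRel, ← hc, mul_assoc]
    have hFF : aff A u * aff A u = (tau V).comp ι c := by
      rw [aff_mul, MonoidHom.comp_apply, tau_apply]
      have h1 : A * A = 1 := LinearEquiv.ext hAA
      have h2 : A u + u = Multiplicative.toAdd (ι c) := by
        show A ((1 / 2 : ℚ) • Multiplicative.toAdd (ι c)) +
          (1 / 2 : ℚ) • Multiplicative.toAdd (ι c) = _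
        rw [map_smul, hcc, ← add_smul]
        norm_num
      rw [h1, h2]
    refine ⟨d, aff A u, ⟨1, a, by rw [map_one, one_mul]⟩, aff_good_aux hA u, ?_⟩
    intro s t hst
    have h3 : ψ s * d = d * ψ (t * c)⁻¹ := by
      have h4 : ψ s * d = d⁻¹ * (ψ t)⁻¹ := by rw [hst]; group
      rw [h4, map_inv, map_mul, ← hc]
      group
    have h5 := aff_good_aux hA u _ _ h3
    have h6 : (aff A u)⁻¹ = aff A u * ((tau V).comp ι c)⁻¹ := by
      rw [← hFF]
      group
    rw [h5, h6, map_inv, map_mul]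
    group
  · obtain ⟨A, hA⟩ := exists_ext (hleft g) (hright g)
    refine ⟨g, aff A 0, ⟨1, 1, by rw [map_one, one_mul, mul_one]⟩, aff_good_aux hA 0, ?_⟩
    intro a b hab
    exact absurd ⟨a, b, hab⟩ hs

end Good

end Pool.Agent.Biset
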