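import Pool.Agent.Lib.MP_98022b_ab.Aff
import Pool.Agent.Lib.MP_98022b_ab.Esp

/-!
# Cocycles: existence by averaging, uniqueness, extension, gluing
-/

set_option autoImplicit false

namespace Pool.Agent.Biset

open MulAction

variable {M V W : Type} [Group M] [MulAction M V] [AddCommGroup W] [Module ℚ W]

section

variable {M : Type} [Group M]

/-- L1: cores. -/
theorem exists_core {K N : Subgroup M} (h : K.relIndex N ≠ 0) :
    ∃ K' : Subgroup M, K' ≤ K ⊓ N ∧ K'.relIndex N ≠ 0 ∧ ∀ g ∈ N, ∀ k ∈ K', g * k * g⁻¹ ∈ K' := by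
  have hfi : (K.subgroupOf N).FiniteIndex := ⟨h⟩
  refine ⟨(K.subgroupOf N).normalCore.map N.subtype, ?_, ?_, ?_⟩
  · rintro x ⟨y, hy, rfl⟩
    exact ⟨Subgroup.mem_subgroupOf.1 (Subgroup.normalCore_le _ hy), y.2⟩
  · have h1 : ((K.subgroupOf N).normalCore.map N.subtype).subgroupOf N =
        (K.subgroupOf N).normalCore := Subgroup.comap_map_eq_self_of_injective N.subtype_injective _
    rw [Subgroup.relIndex, h1]
    exact (Subgroup.finiteIndex_normalCore (K.subgroupOf N)).index_ne_zero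
  · rintro g hg _ ⟨y, hy, rfl⟩
    exact ⟨⟨g, hg⟩ * y * (⟨g, hg⟩ : N)⁻¹,
      (Subgroup.normalCore_normal (K.subgroupOf N)).conj_mem y hy ⟨g, hg⟩, rfl⟩

end

section

open MulAction Pool.Agent.Biset

variable {M V W : Type} [Group M] [MulAction M V] [AddCommGroup W] [Module ℚ W]

/-- L2: existence by averaging. -/
theorem exists_coc {ρ : M →* (W ≃ₗ[ℚ] W)} {ev : M → W}
    (hev : ∀ g x, ev (g * x * g⁻¹) = ρ g (ev x)) {K N : Subgroup M} (h : K.relIndex N ≠ 0)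
    (hρ : ∀ k ∈ K, ρ k = 1) (hK : ∀ a ∈ K, ∀ b ∈ K, ev (a * b) = ev a + ev b) :
    ∃ b : M → W, Coc ρ N b ∧ ∃ K' : Subgroup M, K' ≤ K ⊓ N ∧ K'.relIndex N ≠ 0 ∧
      ∀ k ∈ K', b k = ev k := by
  classical
  obtain ⟨K', hK', hrel, hconj⟩ := exists_core h
  have hfin : (K'.subgroupOf N).FiniteIndex := ⟨hrel⟩
  have hQ : Finite (N ⧸ K'.subgroupOf N) := Subgroup.finite_quotient_of_finiteIndex
  have hF : Fintype (N ⧸ K'.subgroupOf N) := Fintype.ofFinite _
  -- representatives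
  obtain ⟨r, hr⟩ : ∃ r : (N ⧸ K'.subgroupOf N) → N, ∀ q, (QuotientGroup.mk (r q) :
      N ⧸ K'.subgroupOf N) = q := ⟨Quotient.out, fun q => QuotientGroup.out_eq' q⟩
  obtain ⟨a, ha⟩ : ∃ a : N → W, ∀ y : N, a y = ρ ((r (QuotientGroup.mk y) : N) : M)
      (ev (((r (QuotientGroup.mk y))⁻¹ * y : N) : M)) := ⟨_, fun y => rfl⟩
  have hmem : ∀ y : N, (((r (QuotientGroup.mk y))⁻¹ * y : N) : M) ∈ K' := by
    intro y
    have h1 : (QuotientGroup.mk (r (QuotientGroup.mk y)) : N ⧸ K'.subgroupOf N) =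
        QuotientGroup.mk y := hr _
    rw [QuotientGroup.eq] at h1
    exact Subgroup.mem_subgroupOf.1 h1
  have hρ' : ∀ k ∈ K', ρ k = 1 := fun k hk => hρ k (hK' hk).1
  have hρa : ∀ y : N, ρ (y : M) = ρ ((r (QuotientGroup.mk y) : N) : M) := by
    intro y
    have h1 : (y : M) = ((r (QuotientGroup.mk y) : N) : M) *
        (((r (QuotientGroup.mk y))⁻¹ * y : N) : M) := by
      rw [Subgroup.coe_mul, Subgroup.coe_inv]; group
    conv_lhs => rw [h1, map_mul, hρ' _ (hmem y), mul_one]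
  have h1 : ∀ (y k : N), (k : M) ∈ K' → a (y * k) = a y + ρ (y : M) (ev (k : M)) := by
    intro y k hk
    have e1 : (QuotientGroup.mk (y * k) : N ⧸ K'.subgroupOf N) = QuotientGroup.mk y := by
      rw [eq_comm, QuotientGroup.eq]
      rw [inv_mul_cancel_left]
      exact Subgroup.mem_subgroupOf.2 hk
    rw [ha (y * k), e1, ha y, ← mul_assoc, Subgroup.coe_mul,
      hK _ (hK' (hmem y)).1 _ (hK' hk).1, map_add, hρa y]
  have h2 : ∀ (g y k : N), (k : M) ∈ K' →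
      a (g * (y * k)) - ρ (g : M) (a (y * k)) = a (g * y) - ρ (g : M) (a y) := by
    intro g y k hk
    rw [← mul_assoc, h1 (g * y) k hk, h1 y k hk, map_add, Subgroup.coe_mul, map_mul]
    change _ + (ρ (g : M)) ((ρ (y : M)) (ev (k : M))) - _ = _
    abel
  have h3 : ∀ g y : N, a (g * y) - ρ (g : M) (a y) =
      a (g * r (QuotientGroup.mk y)) - ρ (g : M) (a (r (QuotientGroup.mk y))) := by
    intro g y
    have e1 : y = r (QuotientGroup.mk y) * ((r (QuotientGroup.mk y))⁻¹ * y) := by group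
    have e2 := h2 g (r (QuotientGroup.mk y)) ((r (QuotientGroup.mk y))⁻¹ * y) (hmem y)
    rw [← e1] at e2
    exact e2
  obtain ⟨n, hn⟩ : ∃ n : ℕ, n = Fintype.card (N ⧸ K'.subgroupOf N) := ⟨_, rfl⟩
  have hn0 : (n : ℚ) ≠ 0 := by
    rw [hn]
    exact_mod_cast Fintype.card_ne_zero
  obtain ⟨B, hB⟩ : ∃ B : N → W, ∀ g : N, B g = (n : ℚ)⁻¹ •
      ∑ q : N ⧸ K'.subgroupOf N, (a (g * r q) - ρ (g : M) (a (r q))) := ⟨_, fun g => rfl⟩
  have hBmul : ∀ g y : N, B (g * y) = B g + ρ (g : M) (B y) := by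
    intro g y
    rw [hB (g * y), hB g, hB y, map_smul, ← smul_add, map_sum]
    congr 1
    have e1 : ∑ q : N ⧸ K'.subgroupOf N, (a (g * r q) - ρ (g : M) (a (r q))) =
        ∑ q : N ⧸ K'.subgroupOf N, (a (g * r (y • q)) - ρ (g : M) (a (r (y • q)))) :=
      (Equiv.sum_comp (MulAction.toPerm y)
        (fun q : N ⧸ K'.subgroupOf N => a (g * r q) - ρ (g : M) (a (r q)))).symm
    rw [e1, ← Finset.sum_add_distrib]
    refine Finset.sum_congr rfl fun q _ => ?_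
    have e2 : (QuotientGroup.mk (y * r q) : N ⧸ K'.subgroupOf N) = y • q := by
      conv_rhs => rw [← hr q]
      rfl
    have e3 := h3 g (y * r q)
    rw [e2] at e3
    rw [← e3, map_sub, ← mul_assoc, Subgroup.coe_mul, map_mul]
    change _ - (ρ (g : M)) ((ρ (y : M)) (a (r q))) = _
    abel
  have hBk : ∀ k : N, (k : M) ∈ K' → B k = ev (k : M) := by
    intro k hk
    have e1 : ∀ q : N ⧸ K'.subgroupOf N, a (k * r q) - ρ (k : M) (a (r q)) = ev (k : M) := by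
      intro q
      have e2 : k * r q = r q * ((r q)⁻¹ * k * r q) := by group
      have e3 : (((r q)⁻¹ * k * r q : N) : M) ∈ K' := by
        have := hconj _ (N.inv_mem (r q).2) _ hk
        rw [inv_inv] at this
        exact this
      rw [e2, h1 _ _ e3, hρ' _ hk, ← hev]
      have e4 : ((r q : N) : M) * (((r q)⁻¹ * k * r q : N) : M) * ((r q : N) : M)⁻¹ = (k : M) := by
        simp only [Subgroup.coe_mul, Subgroup.coe_inv]
        group
      rw [e4]
      change a (r q) + ev (k : M) - a (r q) = _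
      abel
    rw [hB k, Finset.sum_congr rfl fun q _ => e1 q, Finset.sum_const, Finset.card_univ, ← hn,
      ← Nat.cast_smul_eq_nsmul ℚ, smul_smul, inv_mul_cancel₀ hn0, one_smul]
  refine ⟨fun g => if hg : g ∈ N then B ⟨g, hg⟩ else 0, ?_, K', hK', hrel, ?_⟩
  · intro x hx y hy
    simp only [dif_pos hx, dif_pos hy, dif_pos (N.mul_mem hx hy)]
    exact hBmul ⟨x, hx⟩ ⟨y, hy⟩
  · intro k hk
    have hkN : k ∈ N := (hK' hk).2
    simp only [dif_pos hkN]
    exact hBk ⟨k, hkN⟩ hk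

end

/-- L3: uniqueness by averaging. -/
theorem Coc.coboundary {ρ : M →* (W ≃ₗ[ℚ] W)} {D : Subgroup M} {δ : M → W} (h : Coc ρ D δ)
    {K : Subgroup M} (hK : K.relIndex D ≠ 0) (h0 : ∀ k ∈ K, k ∈ D → δ k = 0) :
    ∃ w, ∀ g ∈ D, δ g = w - ρ g w := by
  classical
  have hfi : (K.subgroupOf D).FiniteIndex := ⟨hK⟩
  have : Finite (D ⧸ K.subgroupOf D) := Subgroup.finite_quotient_of_finiteIndex
  have := Fintype.ofFinite (D ⧸ K.subgroupOf D)
  let f : D ⧸ K.subgroupOf D → W := Quotient.lift (fun d : D => δ d) (by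
    intro a b hab
    have h1 : a⁻¹ * b ∈ K.subgroupOf D := QuotientGroup.leftRel_apply.1 hab
    have h2 : δ ((a : M) * ((a⁻¹ * b : D) : M)) = δ a + ρ a (δ ((a⁻¹ * b : D) : M)) :=
      h a a.2 _ (a⁻¹ * b).2
    have h9 : δ ((a⁻¹ * b : D) : M) = 0 := h0 _ h1 (a⁻¹ * b).2
    rw [h9, map_zero, add_zero] at h2
    have h3 : (a : M) * ((a⁻¹ * b : D) : M) = b := by
      rw [← Subgroup.coe_mul, mul_inv_cancel_left]
    rw [h3] at h2
    exact h2.symm)
  have hf : ∀ (g : D) (q : D ⧸ K.subgroupOf D), f (g • q) = δ g + ρ g (f q) := by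
    intro g q
    induction q using QuotientGroup.induction_on with
    | H d => exact h g g.2 d d.2
  let N : ℚ := Fintype.card (D ⧸ K.subgroupOf D)
  have hN : N ≠ 0 := by
    exact Nat.cast_ne_zero.2 Fintype.card_ne_zero
  refine ⟨N⁻¹ • ∑ q, f q, fun g hg => ?_⟩
  have h1 : ∑ q, f q = ∑ q, f ((⟨g, hg⟩ : D) • q) :=
    (Equiv.sum_comp (MulAction.toPerm (⟨g, hg⟩ : D)) f).symm
  have h2 : ∑ q, f q = N • δ g + ρ g (∑ q, f q) := by
    conv_lhs => rw [h1]
    simp only [hf]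
    rw [Finset.sum_add_distrib, Finset.sum_const, map_sum, Finset.card_univ,
      ← Nat.cast_smul_eq_nsmul ℚ]
  rw [map_smul, ← smul_sub]
  nth_rw 1 [h2]
  rw [add_sub_cancel_right, smul_smul, inv_mul_cancel₀ hN, one_smul]

section

open MulAction

variable {M V W : Type} [Group M] [MulAction M V] [AddCommGroup W] [Module ℚ W]

private theorem coc_sub_l4 {ρ : M →* (W ≃ₗ[ℚ] W)} {D : Subgroup M} {δ : M → W} (h : Coc ρ D δ)
    (w : W) : Coc ρ D fun g => δ g - (w - ρ g w) := by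
  intro x hx y hy
  show δ (x * y) - (w - ρ (x * y) w) = δ x - (w - ρ x w) + ρ x (δ y - (w - ρ y w))
  rw [h x hx y hy, rho_mul, map_sub, map_sub]
  abel

/-- L4: uniqueness, relative to a homomorphism to the integers. -/
theorem Coc.coboundary_rel [FiniteDimensional ℚ W] {ρ : M →* (W ≃ₗ[ℚ] W)} {D : Subgroup M}
    {δ : M → W} (h : Coc ρ D δ) (lam : M →* Multiplicative ℤ) {K : Subgroup M}
    (hK : K.relIndex (D ⊓ lam.ker) ≠ 0) (h0 : ∀ k ∈ K, k ∈ D → lam k = 1 → δ k = 0)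
    (hfix : ∀ x ∈ D, lam x ≠ 1 → ∀ w, ρ x w = w → w = 0) :
    ∃ w, ∀ g ∈ D, δ g = w - ρ g w := by
  have hN : Coc ρ (D ⊓ lam.ker) δ := fun x hx y hy => h x hx.1 y hy.1
  obtain ⟨w0, hw0⟩ := hN.coboundary hK fun k hk hk' => h0 k hk hk'.1 hk'.2
  have hc := coc_sub_l4 h w0
  set δ' : M → W := fun g => δ g - (w0 - ρ g w0) with hδ'
  have hn0 : ∀ n ∈ D, lam n = 1 → δ' n = 0 := fun n hn hl => by
    show δ n - (w0 - ρ n w0) = 0
    rw [hw0 n ⟨hn, hl⟩, sub_self]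
  by_cases hl : ∀ x ∈ D, lam x = 1
  · refine ⟨w0, fun g hg => hw0 g ⟨hg, hl g hg⟩⟩
  · simp only [not_forall] at hl
    obtain ⟨x, hx, hlx⟩ := hl
    let WN : Submodule ℚ W :=
      { carrier := {w | ∀ n ∈ D, lam n = 1 → ρ n w = w}
        zero_mem' := fun n _ _ => map_zero _
        add_mem' := fun {a b} ha hb n hn hl => by rw [map_add, ha n hn hl, hb n hn hl]
        smul_mem' := fun c a ha n hn hl => by rw [map_smul, ha n hn hl] }
    have hconj : ∀ g ∈ D, ∀ n ∈ D, lam n = 1 → g⁻¹ * n * g ∈ D ∧ lam (g⁻¹ * n * g) = 1 := by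
      intro g hg n hn hl
      refine ⟨D.mul_mem (D.mul_mem (D.inv_mem hg) hn) hg, ?_⟩
      rw [map_mul, map_mul, map_inv, hl, mul_one, inv_mul_cancel]
    have hstab : ∀ g ∈ D, ∀ w ∈ WN, ρ g w ∈ WN := by
      intro g hg w hw n hn hl
      obtain ⟨h1, h2⟩ := hconj g hg n hn hl
      have h3 : n * g = g * (g⁻¹ * n * g) := by group
      rw [← rho_mul, h3, rho_mul, hw _ h1 h2]
    have hmem : ∀ g ∈ D, δ' g ∈ WN := by
      intro g hg n hn hl
      obtain ⟨h1, h2⟩ := hconj g hg n hn hl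
      have h3 : n * g = g * (g⁻¹ * n * g) := by group
      have e1 : δ' (n * g) = ρ n (δ' g) := by
        rw [hc n hn g hg, hn0 n hn hl, zero_add]
      have e2 : δ' (n * g) = δ' g := by
        rw [h3, hc g hg _ h1, hn0 _ h1 h2, map_zero, add_zero]
      rw [← e1, e2]
    let L : WN →ₗ[ℚ] WN :=
      { toFun := fun w => ⟨w.1 - ρ x w.1, WN.sub_mem w.2 (hstab x hx _ w.2)⟩
        map_add' := fun a b => by
          apply Subtype.ext
          show a.1 + b.1 - ρ x (a.1 + b.1) = a.1 - ρ x a.1 + (b.1 - ρ x b.1)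
          rw [map_add]
          abel
        map_smul' := fun c a => by
          apply Subtype.ext
          show c • a.1 - ρ x (c • a.1) = c • (a.1 - ρ x a.1)
          rw [map_smul, smul_sub] }
    have hinj : Function.Injective L := by
      rw [← LinearMap.ker_eq_bot, LinearMap.ker_eq_bot']
      intro w hw
      have h1 : w.1 - ρ x w.1 = 0 := congrArg Subtype.val hw
      exact Subtype.ext (hfix x hx hlx _ (sub_eq_zero.1 h1).symm)
    obtain ⟨w1, hw1⟩ := LinearMap.surjective_of_injective hinj ⟨δ' x, hmem x hx⟩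
    have hw1' : w1.1 - ρ x w1.1 = δ' x := congrArg Subtype.val hw1
    have key : ∀ g ∈ D, δ' g = w1.1 - ρ g w1.1 := by
      intro g hg
      have hxg := D.mul_mem hx hg
      have hn : g * x * g⁻¹ * x⁻¹ ∈ D :=
        D.mul_mem (D.mul_mem (D.mul_mem hg hx) (D.inv_mem hg)) (D.inv_mem hx)
      have hl : lam (g * x * g⁻¹ * x⁻¹) = 1 := by
        rw [map_mul, map_mul, map_mul, map_inv, map_inv, mul_comm (lam g) (lam x),
          mul_inv_cancel_right, mul_inv_cancel]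
      have e0 : g * x = (g * x * g⁻¹ * x⁻¹) * (x * g) := by group
      have E1 : δ' g + ρ g (δ' x) = δ' x + ρ x (δ' g) := by
        rw [← hc g hg x hx, ← hc x hx g hg]
        conv_lhs => rw [e0]
        rw [hc _ hn _ hxg, hn0 _ hn hl, zero_add]
        exact hmem _ hxg _ hn hl
      have E2 : ρ g (ρ x w1.1) = ρ x (ρ g w1.1) := by
        rw [← rho_mul, ← rho_mul]
        conv_lhs => rw [e0]
        rw [rho_mul]
        exact hstab _ hxg _ w1.2 _ hn hl
      have hz : ρ x (ρ g w1.1 + δ' g - w1.1) = ρ g w1.1 + δ' g - w1.1 := by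
        have h1 : ρ x w1.1 = w1.1 - δ' x := by rw [← hw1']; abel
        have h2 : ρ x (δ' g) = δ' g + ρ g (δ' x) - δ' x := by rw [E1]; abel
        rw [map_sub, map_add, ← E2, h1, h2, map_sub]
        abel
      have h3 := hfix x hx hlx _ hz
      have h4 : δ' g = w1.1 - ρ g w1.1 + (ρ g w1.1 + δ' g - w1.1) := by abel
      rw [h4, h3, add_zero]
    refine ⟨w0 + w1.1, fun g hg => ?_⟩
    have h5 : δ g = δ' g + (w0 - ρ g w0) := by
      show δ g = δ g - (w0 - ρ g w0) + (w0 - ρ g w0)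
      abel
    rw [h5, key g hg, map_add]
    abel

end

section

open MulAction

variable {M V W : Type} [Group M] [MulAction M V] [AddCommGroup W] [Module ℚ W]

private theorem aff_trans_l5 {A B : W ≃ₗ[ℚ] W} {u v : W} (h : aff A u = aff B v) : u = v := by
  have h1 := congrArg (fun F : (W × ℚ) ≃ₗ[ℚ] (W × ℚ) => (F (0, 1)).1) h
  simpa only [aff_apply, map_zero, one_smul, zero_add] using h1

/-- Pairs of an element of `D` and an affine map over it that normalise the cocycle on `N`. -/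
private def Gr_l5 (ρ : M →* (W ≃ₗ[ℚ] W)) (lam : M →* Multiplicative ℤ) (D : Subgroup M)
    (b₀ : M → W) : Subgroup (M × ((W × ℚ) ≃ₗ[ℚ] (W × ℚ))) where
  carrier := {p | p.1 ∈ D ∧ (∃ c, p.2 = aff (ρ p.1) c) ∧ ∀ n ∈ D, lam n = 1 →
    p.2 * aff (ρ n) (b₀ n) = aff (ρ (p.1 * n * p.1⁻¹)) (b₀ (p.1 * n * p.1⁻¹)) * p.2}
  one_mem' := by
    refine ⟨D.one_mem, ⟨0, ?_⟩, fun n _ _ => ?_⟩
    · refine LinearEquiv.ext fun p => Prod.ext ?_ rfl
      show p.1 = ρ 1 p.1 + p.2 • (0 : W)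
      rw [rho_one, smul_zero, add_zero]
    · show (1 : (W × ℚ) ≃ₗ[ℚ] (W × ℚ)) * aff (ρ n) (b₀ n) =
        aff (ρ (1 * n * 1⁻¹)) (b₀ (1 * n * 1⁻¹)) * 1
      rw [inv_one, mul_one, mul_one, one_mul, one_mul]
  mul_mem' := by
    rintro ⟨u, A⟩ ⟨v, B⟩ ⟨hu, ⟨c, hc⟩, hA⟩ ⟨hv, ⟨d, hd⟩, hB⟩
    refine ⟨D.mul_mem hu hv, ⟨ρ u d + c, ?_⟩, fun n hn hl => ?_⟩
    · show A * B = aff (ρ (u * v)) (ρ u d + c)
      have hc' : A = aff (ρ u) c := hc
      have hd' : B = aff (ρ v) d := hd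
      rw [hc', hd', aff_mul, map_mul]
    · show A * B * aff (ρ n) (b₀ n) =
        aff (ρ (u * v * n * (u * v)⁻¹)) (b₀ (u * v * n * (u * v)⁻¹)) * (A * B)
      have h1 : v * n * v⁻¹ ∈ D := D.mul_mem (D.mul_mem hv hn) (D.inv_mem hv)
      have h2 : lam (v * n * v⁻¹) = 1 := by
        rw [map_mul, map_mul, map_inv, hl, mul_one, mul_inv_cancel]
      have h3 : B * aff (ρ n) (b₀ n) = aff (ρ (v * n * v⁻¹)) (b₀ (v * n * v⁻¹)) * B := hB n hn hl
      have h4 : A * aff (ρ (v * n * v⁻¹)) (b₀ (v * n * v⁻¹)) =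
        aff (ρ (u * (v * n * v⁻¹) * u⁻¹)) (b₀ (u * (v * n * v⁻¹) * u⁻¹)) * A := hA _ h1 h2
      have h5 : u * v * n * (u * v)⁻¹ = u * (v * n * v⁻¹) * u⁻¹ := by group
      rw [mul_assoc, h3, ← mul_assoc, h4, h5, mul_assoc]
  inv_mem' := by
    rintro ⟨u, A⟩ ⟨hu, ⟨c, hc⟩, hA⟩
    have hc' : A = aff (ρ u) c := hc
    refine ⟨D.inv_mem hu, ⟨-(ρ u⁻¹ c), ?_⟩, fun n hn hl => ?_⟩
    · show A⁻¹ = aff (ρ u⁻¹) (-(ρ u⁻¹ c))
      rw [inv_eq_iff_mul_eq_one, hc', aff_mul]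
      refine LinearEquiv.ext fun p => Prod.ext ?_ rfl
      show (ρ u * ρ u⁻¹) p.1 + p.2 • (ρ u (-(ρ u⁻¹ c)) + c) = p.1
      rw [map_neg, rho_cancel_inv, neg_add_cancel, smul_zero, add_zero]
      show ρ u (ρ u⁻¹ p.1) = p.1
      rw [rho_cancel_inv]
    · show A⁻¹ * aff (ρ n) (b₀ n) = aff (ρ (u⁻¹ * n * u⁻¹⁻¹)) (b₀ (u⁻¹ * n * u⁻¹⁻¹)) * A⁻¹
      rw [inv_inv]
      have h1 : u⁻¹ * n * u ∈ D := D.mul_mem (D.mul_mem (D.inv_mem hu) hn) hu
      have h2 : lam (u⁻¹ * n * u) = 1 := by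
        rw [map_mul, map_mul, map_inv, hl, mul_one, inv_mul_cancel]
      have h4 : A * aff (ρ (u⁻¹ * n * u)) (b₀ (u⁻¹ * n * u)) =
        aff (ρ (u * (u⁻¹ * n * u) * u⁻¹)) (b₀ (u * (u⁻¹ * n * u) * u⁻¹)) * A := hA _ h1 h2
      have h5 : u * (u⁻¹ * n * u) * u⁻¹ = n := by group
      rw [h5] at h4
      rw [inv_mul_eq_iff_eq_mul, ← mul_assoc, h4, mul_inv_cancel_right]

/-- L5: extension from the kernel. -/
theorem Coc.ext {ρ : M →* (W ≃ₗ[ℚ] W)} (lam : M →* Multiplicative ℤ) {D : Subgroup M} {b₀ : M → W}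
    (h0 : Coc ρ (D ⊓ lam.ker) b₀)
    (hx : ∀ x ∈ D, ∃ y : W, ∀ n ∈ D, lam n = 1 →
      b₀ (x * n * x⁻¹) = y + ρ x (b₀ n) - ρ (x * n * x⁻¹) y) :
    ∃ b : M → W, Coc ρ D b ∧ ∀ n ∈ D, lam n = 1 → b n = b₀ n := by
  by_cases hl : ∀ x ∈ D, lam x = 1
  · exact ⟨b₀, fun x hx y hy => h0 x ⟨hx, hl x hx⟩ y ⟨hy, hl y hy⟩, fun _ _ _ => rfl⟩
  · -- a generator of the image
    obtain ⟨z, hz⟩ : ∃ z : Multiplicative ℤ, D.map lam = Subgroup.zpowers z := by
      have h1 : IsCyclic (D.map lam) := inferInstance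
      obtain ⟨⟨z, hz⟩, h2⟩ := h1.exists_generator
      refine ⟨z, le_antisymm (fun y hy => ?_) ?_⟩
      · obtain ⟨k, hk⟩ := Subgroup.mem_zpowers_iff.1 (h2 ⟨y, hy⟩)
        exact Subgroup.mem_zpowers_iff.2 ⟨k, congrArg Subtype.val hk⟩
      · rw [Subgroup.zpowers_le]
        exact hz
    obtain ⟨x, hxD, hxz⟩ : z ∈ D.map lam := by rw [hz]; exact Subgroup.mem_zpowers z
    have hgen : ∀ g ∈ D, ∃ j : ℤ, lam g = lam x ^ j := by
      intro g hg
      have h1 : lam g ∈ D.map lam := ⟨g, hg, rfl⟩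
      rw [hz, ← hxz] at h1
      obtain ⟨j, hj⟩ := Subgroup.mem_zpowers_iff.1 h1
      exact ⟨j, hj.symm⟩
    have hx1 : lam x ≠ 1 := by
      intro h1
      apply hl
      intro g hg
      obtain ⟨j, hj⟩ := hgen g hg
      rw [hj, h1, one_zpow]
    have huniq : ∀ i j : ℤ, lam x ^ i = lam x ^ j → i = j := by
      intro i j hij
      have h1 : i * Multiplicative.toAdd (lam x) = j * Multiplicative.toAdd (lam x) := by
        have h2 := congrArg Multiplicative.toAdd hij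
        rwa [toAdd_zpow, toAdd_zpow, smul_eq_mul, smul_eq_mul] at h2
      refine mul_right_cancel₀ ?_ h1
      intro h2
      exact hx1 (Multiplicative.toAdd.injective (h2.trans toAdd_one.symm))
    obtain ⟨y, hy⟩ := hx x hxD
    set F : (W × ℚ) ≃ₗ[ℚ] (W × ℚ) := aff (ρ x) y with hF
    have hFm : (x, F) ∈ Gr_l5 ρ lam D b₀ := by
      refine ⟨hxD, ⟨y, rfl⟩, fun n hn hln => ?_⟩
      show F * aff (ρ n) (b₀ n) = aff (ρ (x * n * x⁻¹)) (b₀ (x * n * x⁻¹)) * F
      rw [hF, aff_mul, aff_mul, ← map_mul, ← map_mul]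
      have e1 : x * n * x⁻¹ * x = x * n := by group
      have e2 : ρ (x * n * x⁻¹) y + b₀ (x * n * x⁻¹) = ρ x (b₀ n) + y := by
        rw [hy n hn hln]
        abel
      rw [e1, e2]
    have hFj : ∀ j : ℤ, (x ^ j, F ^ j) ∈ Gr_l5 ρ lam D b₀ := by
      intro j
      have h1 := (Gr_l5 ρ lam D b₀).zpow_mem hFm j
      rwa [Prod.pow_mk] at h1
    classical
    let j : M → ℤ := fun g => if hg : ∃ j : ℤ, lam g = lam x ^ j then hg.choose else 0
    have hj : ∀ g ∈ D, lam g = lam x ^ j g := by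
      intro g hg
      have h1 := hgen g hg
      show lam g = lam x ^ (if hg : ∃ j : ℤ, lam g = lam x ^ j then hg.choose else 0)
      rw [dif_pos h1]
      exact h1.choose_spec
    have hjmul : ∀ g ∈ D, ∀ g' ∈ D, j (g * g') = j g + j g' := by
      intro g hg g' hg'
      apply huniq
      rw [← hj _ (D.mul_mem hg hg'), map_mul, zpow_add, ← hj g hg, ← hj g' hg']
    have hj0 : ∀ n ∈ D, lam n = 1 → j n = 0 := by
      intro n hn hln
      apply huniq
      rw [← hj n hn, hln, zpow_zero]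
    let th : M → (W × ℚ) ≃ₗ[ℚ] (W × ℚ) := fun n => aff (ρ n) (b₀ n)
    have hth : ∀ n ∈ D, lam n = 1 → ∀ n' ∈ D, lam n' = 1 → th (n * n') = th n * th n' := by
      intro n hn hln n' hn' hln'
      show aff (ρ (n * n')) (b₀ (n * n')) = aff (ρ n) (b₀ n) * aff (ρ n') (b₀ n')
      rw [aff_mul, h0 n ⟨hn, hln⟩ n' ⟨hn', hln'⟩, map_mul, add_comm]
    let f : M → (W × ℚ) ≃ₗ[ℚ] (W × ℚ) := fun g => th (g * x ^ (-j g)) * F ^ j g
    have hk : ∀ g ∈ D, g * x ^ (-j g) ∈ D ∧ lam (g * x ^ (-j g)) = 1 := by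
      intro g hg
      refine ⟨D.mul_mem hg (D.zpow_mem hxD _), ?_⟩
      rw [map_mul, map_zpow, hj g hg, ← zpow_add, add_neg_cancel, zpow_zero]
    have hfmul : ∀ g ∈ D, ∀ g' ∈ D, f (g * g') = f g * f g' := by
      intro g hg g' hg'
      show th (g * g' * x ^ (-j (g * g'))) * F ^ j (g * g') =
        th (g * x ^ (-j g)) * F ^ j g * (th (g' * x ^ (-j g')) * F ^ j g')
      obtain ⟨k1, k2⟩ := hk g hg
      obtain ⟨k3, k4⟩ := hk g' hg'
      have h1 : F ^ j g * th (g' * x ^ (-j g')) =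
          th (x ^ j g * (g' * x ^ (-j g')) * (x ^ j g)⁻¹) * F ^ j g :=
        (hFj (j g)).2.2 _ k3 k4
      have k5 : x ^ j g * (g' * x ^ (-j g')) * (x ^ j g)⁻¹ ∈ D :=
        D.mul_mem (D.mul_mem (D.zpow_mem hxD _) k3) (D.inv_mem (D.zpow_mem hxD _))
      have k6 : lam (x ^ j g * (g' * x ^ (-j g')) * (x ^ j g)⁻¹) = 1 := by
        rw [map_mul, map_mul, map_inv, k4, mul_one, mul_inv_cancel]
      have h2 : g * g' * x ^ (-j (g * g')) =
          g * x ^ (-j g) * (x ^ j g * (g' * x ^ (-j g')) * (x ^ j g)⁻¹) := by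
        rw [hjmul g hg g' hg', neg_add, zpow_add, zpow_neg, zpow_neg]
        have h3 : (x ^ j g)⁻¹ * (x ^ j g')⁻¹ = (x ^ j g')⁻¹ * (x ^ j g)⁻¹ := by
          rw [← mul_inv_rev, ← mul_inv_rev, ← zpow_add, ← zpow_add, add_comm]
        rw [h3]
        group
      rw [h2, hth _ k1 k2 _ k5 k6, hjmul g hg g' hg', zpow_add]
      calc th (g * x ^ (-j g)) * th (x ^ j g * (g' * x ^ (-j g')) * (x ^ j g)⁻¹) *
            (F ^ j g * F ^ j g')
          = th (g * x ^ (-j g)) * (th (x ^ j g * (g' * x ^ (-j g')) * (x ^ j g)⁻¹) * F ^ j g) *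
            F ^ j g' := by simp only [mul_assoc]
        _ = _ := by rw [← h1]; simp only [mul_assoc]
    have hfaff : ∀ g ∈ D, ∃ c, f g = aff (ρ g) c := by
      intro g hg
      obtain ⟨c, hc⟩ := (hFj (j g)).2.1
      have hc' : F ^ j g = aff (ρ (x ^ j g)) c := hc
      refine ⟨ρ (g * x ^ (-j g)) c + b₀ (g * x ^ (-j g)), ?_⟩
      show aff (ρ (g * x ^ (-j g))) (b₀ (g * x ^ (-j g))) * F ^ j g = _
      rw [hc', aff_mul, ← map_mul, mul_assoc, ← zpow_add, neg_add_cancel, zpow_zero, mul_one]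
    let b : M → W := fun g => ((f g) (0, 1)).1
    have hfb : ∀ g ∈ D, f g = aff (ρ g) (b g) := by
      intro g hg
      obtain ⟨c, hc⟩ := hfaff g hg
      have h1 : b g = c := by
        show ((f g) (0, 1)).1 = c
        rw [hc, aff_apply, map_zero, one_smul, zero_add]
      rw [h1, hc]
    refine ⟨b, fun g hg g' hg' => ?_, fun n hn hln => ?_⟩
    · have h1 := hfmul g hg g' hg'
      rw [hfb _ (D.mul_mem hg hg'), hfb g hg, hfb g' hg', aff_mul] at h1
      rw [aff_trans_l5 h1, add_comm]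
    · have h1 : f n = th n := by
        show th (n * x ^ (-j n)) * F ^ j n = th n
        rw [hj0 n hn hln, neg_zero, zpow_zero, zpow_zero, mul_one, mul_one]
      have h2 : aff (ρ n) (b n) = aff (ρ n) (b₀ n) := by
        rw [← hfb n hn, h1]
      exact aff_trans_l5 h2

end

section

open MulAction

variable {M V W : Type} [Group M] [MulAction M V] [AddCommGroup W] [Module ℚ W]

private theorem map_conj_eq_l6 {D : Subgroup M} (lam : M →* Multiplicative ℤ) {x : M} (hx : x ∈ D) :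
    (D ⊓ lam.ker).map (MulAut.conj x).toMonoidHom = D ⊓ lam.ker := by
  ext g
  constructor
  · rintro ⟨n, ⟨hn1, hn2⟩, rfl⟩
    refine ⟨D.mul_mem (D.mul_mem hx hn1) (D.inv_mem hx), ?_⟩
    show lam (x * n * x⁻¹) = 1
    have h1 : lam n = 1 := hn2
    rw [map_mul, map_mul, h1, mul_one, ← map_mul, mul_inv_cancel, map_one]
  · rintro ⟨hg1, hg2⟩
    refine ⟨x⁻¹ * g * x, ⟨D.mul_mem (D.mul_mem (D.inv_mem hx) hg1) hx, ?_⟩, ?_⟩
    · show lam (x⁻¹ * g * x) = 1
      have h1 : lam g = 1 := hg2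
      rw [map_mul, map_mul, h1, mul_one, ← map_mul, inv_mul_cancel, map_one]
    · show x * (x⁻¹ * g * x) * x⁻¹ = g
      group

/-- L6: existence, relative to a homomorphism to the integers. -/
theorem exists_coc_rel {ρ : M →* (W ≃ₗ[ℚ] W)} {ev : M → W}
    (hev : ∀ g x, ev (g * x * g⁻¹) = ρ g (ev x)) (lam : M →* Multiplicative ℤ) {K D : Subgroup M}
    (h : K.relIndex (D ⊓ lam.ker) ≠ 0) (hρ : ∀ k ∈ K, ρ k = 1)
    (hK : ∀ a ∈ K, ∀ b ∈ K, ev (a * b) = ev a + ev b) :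
    ∃ b : M → W, Coc ρ D b ∧ ∃ K' : Subgroup M, K' ≤ K ∧ K'.relIndex (D ⊓ lam.ker) ≠ 0 ∧
      ∀ k ∈ K', k ∈ D → lam k = 1 → b k = ev k := by
  obtain ⟨b₀, hb₀, K₁, hK₁, hK₁i, hK₁e⟩ := exists_coc hev h hρ hK
  have hmul : ∀ (a c : M) (w : W), ρ (a * c) w = ρ a (ρ c w) := fun a c w => by
    rw [map_mul]
    rfl
  obtain ⟨b, hb, hbe⟩ := Coc.ext lam hb₀ (by
    intro x hx
    have hNx : ∀ n ∈ D ⊓ lam.ker, x⁻¹ * n * x ∈ D ⊓ lam.ker := by
      rintro n ⟨hn1, hn2⟩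
      refine ⟨D.mul_mem (D.mul_mem (D.inv_mem hx) hn1) hx, ?_⟩
      show lam (x⁻¹ * n * x) = 1
      have h1 : lam n = 1 := hn2
      rw [map_mul, map_mul, h1, mul_one, ← map_mul, inv_mul_cancel, map_one]
    have hδ : Coc ρ (D ⊓ lam.ker) (fun n => b₀ n - ρ x (b₀ (x⁻¹ * n * x))) := by
      intro a ha c hc
      have h1 := hb₀ a ha c hc
      have h2 := hb₀ _ (hNx a ha) _ (hNx c hc)
      have h3 : x⁻¹ * a * x * (x⁻¹ * c * x) = x⁻¹ * (a * c) * x := by group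
      rw [h3] at h2
      have h4 : ρ x (ρ (x⁻¹ * a * x) (b₀ (x⁻¹ * c * x))) = ρ a (ρ x (b₀ (x⁻¹ * c * x))) := by
        rw [← hmul, ← hmul]
        congr 2
        group
      show b₀ (a * c) - ρ x (b₀ (x⁻¹ * (a * c) * x)) =
        b₀ a - ρ x (b₀ (x⁻¹ * a * x)) + ρ a (b₀ c - ρ x (b₀ (x⁻¹ * c * x)))
      rw [h1, h2, map_add, h4, map_sub]
      abel
    have hidx : (K₁ ⊓ K₁.map (MulAut.conj x).toMonoidHom).relIndex (D ⊓ lam.ker) ≠ 0 := by
      refine Subgroup.relIndex_inf_ne_zero hK₁i ?_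
      have h1 := Subgroup.relIndex_map_map_of_injective K₁ (D ⊓ lam.ker)
        (f := (MulAut.conj x).toMonoidHom) (MulAut.conj x).injective
      rw [map_conj_eq_l6 lam hx] at h1
      rw [h1]
      exact hK₁i
    obtain ⟨w, hw⟩ := hδ.coboundary hidx (by
      rintro k ⟨hk1, k', hk', rfl⟩ -
      have e1 : (MulAut.conj x).toMonoidHom k' = x * k' * x⁻¹ := rfl
      rw [e1] at hk1
      show b₀ ((MulAut.conj x).toMonoidHom k') -
        ρ x (b₀ (x⁻¹ * (MulAut.conj x).toMonoidHom k' * x)) = 0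
      rw [e1]
      have h2 : x⁻¹ * (x * k' * x⁻¹) * x = k' := by group
      rw [h2, hK₁e _ hk1, hK₁e _ hk', hev, sub_self])
    refine ⟨w, fun n hn hn1 => ?_⟩
    have hn' : x * n * x⁻¹ ∈ D ⊓ lam.ker := by
      refine ⟨D.mul_mem (D.mul_mem hx hn) (D.inv_mem hx), ?_⟩
      show lam (x * n * x⁻¹) = 1
      rw [map_mul, map_mul, hn1, mul_one, ← map_mul, mul_inv_cancel, map_one]
    have h1 : b₀ (x * n * x⁻¹) - ρ x (b₀ (x⁻¹ * (x * n * x⁻¹) * x)) =
        w - ρ (x * n * x⁻¹) w := hw _ hn'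
    have h2 : x⁻¹ * (x * n * x⁻¹) * x = n := by group
    rw [h2, sub_eq_iff_eq_add] at h1
    rw [h1]
    abel)
  refine ⟨b, hb, K₁, hK₁.trans inf_le_left, hK₁i, fun k hk hkD hk1 => ?_⟩
  rw [hbe k hkD hk1, hK₁e k hk]

end

section

open MulAction Pool.Agent.Biset

variable {M V W : Type} [Group M] [MulAction M V] [AddCommGroup W] [Module ℚ W]

private theorem relIndex_conj_l7 {K N N' : Subgroup M} (g : M) (h : K.relIndex N ≠ 0)
    (hN : ∀ x, x ∈ N' ↔ g⁻¹ * x * g ∈ N) :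
    (K.map (MulAut.conj g).toMonoidHom).relIndex N' ≠ 0 := by
  have h1 : N' = N.map (MulAut.conj g).toMonoidHom := by
    ext x
    rw [hN, Subgroup.mem_map]
    constructor
    · intro hx
      refine ⟨_, hx, ?_⟩
      simp [mul_assoc]
    · rintro ⟨y, hy, rfl⟩
      simpa [mul_assoc] using hy
  rw [h1, Subgroup.relIndex_map_map_of_injective _ _ (MulAut.conj g).injective]
  exact h

/-- L7: gluing over the tree. -/
theorem exists_Phi [FiniteDimensional ℚ W] {T : SimpleGraph V} (hT : T.IsTree)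
    (hadj : TreeCl.Inv M T) (hinv : TreeCl.NoInv M T) {ρ : M →* (W ≃ₗ[ℚ] W)} {ev : M → W}
    (hev : ∀ g x, ev (g * x * g⁻¹) = ρ g (ev x)) (lam : M →* Multiplicative ℤ) {K : Subgroup M}
    (h : ∀ v : V, K.relIndex (stabilizer M v ⊓ lam.ker) ≠ 0) (hρ : ∀ k ∈ K, ρ k = 1)
    (hK : ∀ a ∈ K, ∀ b ∈ K, ev (a * b) = ev a + ev b)
    (hfix : ∀ v : V, ∀ x ∈ stabilizer M v, lam x ≠ 1 → ∀ w, ρ x w = w → w = 0) :
    ∃ Φ : M →* ((W × ℚ) ≃ₗ[ℚ] (W × ℚ)), ∀ v : V, ∃ K' : Subgroup M, K' ≤ K ∧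
      K'.relIndex (stabilizer M v ⊓ lam.ker) ≠ 0 ∧
      ∀ k ∈ K', k ∈ stabilizer M v → lam k = 1 → Φ k = aff 1 (ev k) := by
  obtain ⟨Φ, hΦ⟩ := exists_aff (M := M) (V := V) (W := W) hT hadj hinv ρ
    (fun v b => Coc ρ (stabilizer M v) b ∧ ∃ K' : Subgroup M, K' ≤ K ∧
      K'.relIndex (stabilizer M v ⊓ lam.ker) ≠ 0 ∧
      ∀ k ∈ K', k ∈ stabilizer M v → lam k = 1 → b k = ev k)
    (fun v b hb => hb.1)
    (fun v => exists_coc_rel hev lam (h v) hρ hK)
    (by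
      rintro v b g ⟨hb, K', hK'K, hK', hbe⟩
      refine ⟨?_, K ⊓ K'.map (MulAut.conj g).toMonoidHom, inf_le_left,
        Subgroup.relIndex_inf_ne_zero (h (g • v)) (relIndex_conj_l7 g hK' ?_), ?_⟩
      · intro x hx y hy
        have hc : ∀ z ∈ stabilizer M (g • v), g⁻¹ * z * g ∈ stabilizer M v := by
          intro z hz
          rw [mem_stabilizer_iff] at hz ⊢
          rw [mul_smul, mul_smul, hz, inv_smul_smul]
        show ρ g (b (g⁻¹ * (x * y) * g)) =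
          ρ g (b (g⁻¹ * x * g)) + ρ x (ρ g (b (g⁻¹ * y * g)))
        have h1 : g⁻¹ * (x * y) * g = (g⁻¹ * x * g) * (g⁻¹ * y * g) := by group
        rw [h1, hb _ (hc x hx) _ (hc y hy), map_add, ← rho_mul, ← rho_mul]
        congr 3
        group
      · intro x
        rw [Subgroup.mem_inf, Subgroup.mem_inf, mem_stabilizer_iff, mem_stabilizer_iff,
          MonoidHom.mem_ker, MonoidHom.mem_ker, mul_smul, mul_smul, inv_smul_eq_iff, map_mul,
          map_mul, map_inv]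
        have h1 : (lam g)⁻¹ * lam x * lam g = lam x := by
          rw [mul_comm (lam g)⁻¹, inv_mul_cancel_right]
        rw [h1]
      · rintro k ⟨hk, hk'⟩ hkv hl
        obtain ⟨k₀, hk₀, rfl⟩ := hk'
        have h1 : g⁻¹ * ((MulAut.conj g).toMonoidHom k₀) * g = k₀ := by
          simp [mul_assoc]
        have h2 : k₀ ∈ stabilizer M v := by
          rw [← h1]
          rw [mem_stabilizer_iff] at hkv ⊢
          rw [mul_smul, mul_smul, hkv, inv_smul_smul]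
        have h3 : lam k₀ = 1 := by
          have h4 : (MulAut.conj g).toMonoidHom k₀ = g * k₀ * g⁻¹ := rfl
          rw [h4, map_mul, map_mul, map_inv, mul_comm (lam g), mul_inv_cancel_right] at hl
          exact hl
        show ρ g (b (g⁻¹ * ((MulAut.conj g).toMonoidHom k₀) * g)) = _
        rw [h1, hbe k₀ hk₀ h2 h3, ← hev]
        rfl)
    (by
      rintro u v - b b' ⟨hb, Ku, -, hKu, hbe⟩ ⟨hb', Kv, -, hKv, hbe'⟩
      have hD : Coc ρ (stabilizer M u ⊓ stabilizer M v) (fun g => b g - b' g) := by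
        rintro x ⟨hxu, hxv⟩ y ⟨hyu, hyv⟩
        show b (x * y) - b' (x * y) = b x - b' x + ρ x (b y - b' y)
        rw [hb x hxu y hyu, hb' x hxv y hyv, map_sub]
        abel
      have hle1 : stabilizer M u ⊓ stabilizer M v ⊓ lam.ker ≤ stabilizer M u ⊓ lam.ker :=
        inf_le_inf_right _ inf_le_left
      have hle2 : stabilizer M u ⊓ stabilizer M v ⊓ lam.ker ≤ stabilizer M v ⊓ lam.ker :=
        inf_le_inf_right _ inf_le_right
      obtain ⟨w, hw⟩ := hD.coboundary_rel lam (K := Ku ⊓ Kv)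
        (Subgroup.relIndex_inf_ne_zero
          (fun h0 => hKu (Subgroup.relIndex_eq_zero_of_le_right hle1 h0))
          (fun h0 => hKv (Subgroup.relIndex_eq_zero_of_le_right hle2 h0)))
        (by
          rintro k ⟨hku, hkv⟩ ⟨h1, h2⟩ hl
          show b k - b' k = 0
          rw [hbe k hku h1 hl, hbe' k hkv h2 hl, sub_self])
        (fun x hx hl => hfix u x hx.1 hl)
      exact ⟨w, fun g h1 h2 => hw g ⟨h1, h2⟩⟩)
  refine ⟨Φ, fun v => ?_⟩
  obtain ⟨b, p, ⟨-, K', hK'K, hK', hbe⟩, hg⟩ := hΦ v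
  refine ⟨K', hK'K, hK', fun k hk hkv hl => ?_⟩
  rw [hg k hkv, hbe k hk hkv hl, hρ k (hK'K hk)]
  congr 1
  show ev k + p - p = ev k
  rw [add_sub_cancel_right]

end

end Pool.Agent.Biset
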