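import Pool.Agent.Lib.MP_98022b_ab.Envelope

/-!
# Biset maps from representatives of double cosets
-/

set_option autoImplicit false

namespace Pool.Agent.Biset

variable {G H Q : Type} [Group G] [Group H] [Group Q]

/-- `F` is a possible value of a biset map at `x`. -/
def Good (ψ : H →* G) (ι : H →* Q) (x : G) (F : Q) : Prop :=
  (∀ k k' : H, ψ k * x = x * ψ k' → ι k * F = F * ι k') ∧
    ∀ a b : H, x⁻¹ = ψ a * x * ψ b → F⁻¹ = ι a * F * ι b

/-- `v` is the value at `g` of the biset map with the value `F` at `x`. -/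
def Val (ψ : H →* G) (ι : H →* Q) (x : G) (F : Q) (g : G) (v : Q) : Prop :=
  ∃ a b : H, (g = ψ a * x * ψ b ∧ v = ι a * F * ι b) ∨ (g = ψ a * x⁻¹ * ψ b ∧ v = ι a * F⁻¹ * ι b)

variable {ψ : H →* G} {ι : H →* Q} {x g : G} {F v w : Q}

theorem Good.inv_left (h : Good ψ ι x F) {k k' : H} (hk : ψ k * x⁻¹ = x⁻¹ * ψ k') :
    ι k * F⁻¹ = F⁻¹ * ι k' := by
  have h1 : ψ k' * x = x * ψ k := by
    have h2 : ψ k' = x * (x⁻¹ * ψ k') := by group
    rw [h2, ← hk]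
    group
  have h3 := h.1 _ _ h1
  have h4 : ι k = F⁻¹ * (F * ι k) := by group
  rw [h4, ← h3]
  group

theorem conj_of_eq {x : G} {a b c d : H} (h : ψ a * x * ψ b = ψ c * x * ψ d) :
    ψ (c⁻¹ * a) * x = x * ψ (d * b⁻¹) := by
  rw [map_mul, map_mul, map_inv, map_inv]
  have h1 : (ψ c)⁻¹ * ψ a * x = (ψ c)⁻¹ * (ψ a * x * ψ b) * (ψ b)⁻¹ := by group
  rw [h1, h]
  group

theorem eq_of_conj {F : Q} {a b c d : H} (h : ι (c⁻¹ * a) * F = F * ι (d * b⁻¹)) :
    ι a * F * ι b = ι c * F * ι d := by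
  have h1 : ι a * F = ι c * (ι (c⁻¹ * a) * F) := by
    rw [map_mul, map_inv]
    group
  rw [h1, h, map_mul, map_inv]
  group

theorem Val.unique_aux (h : Good ψ ι x F) {a b c d : H}
    (h1 : ψ a * x * ψ b = ψ c * x⁻¹ * ψ d) : ι a * F * ι b = ι c * F⁻¹ * ι d := by
  have h2 : x⁻¹ = ψ (c⁻¹ * a) * x * ψ (b * d⁻¹) := by
    have h3 : x⁻¹ = (ψ c)⁻¹ * (ψ c * x⁻¹ * ψ d) * (ψ d)⁻¹ := by group
    nth_rw 1 [h3]
    rw [← h1, map_mul, map_mul, map_inv, map_inv]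
    group
  rw [h.2 _ _ h2, map_mul, map_mul, map_inv, map_inv]
  group

theorem Val.unique (h : Good ψ ι x F) (hv : Val ψ ι x F g v) (hw : Val ψ ι x F g w) : v = w := by
  obtain ⟨a, b, hv⟩ := hv
  obtain ⟨c, d, hw⟩ := hw
  rcases hv with ⟨h1, h2⟩ | ⟨h1, h2⟩ <;> rcases hw with ⟨h3, h4⟩ | ⟨h3, h4⟩ <;> rw [h2, h4]
  · exact eq_of_conj (h.1 _ _ (conj_of_eq (h1.symm.trans h3)))
  · exact Val.unique_aux h (h1.symm.trans h3)
  · exact (Val.unique_aux h (h3.symm.trans h1)).symm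
  · exact eq_of_conj (h.inv_left (conj_of_eq (h1.symm.trans h3)))

theorem Val.mul_left (hv : Val ψ ι x F g v) (h : H) : Val ψ ι x F (ψ h * g) (ι h * v) := by
  obtain ⟨a, b, hv⟩ := hv
  refine ⟨h * a, b, ?_⟩
  rcases hv with ⟨h1, h2⟩ | ⟨h1, h2⟩
  · left
    rw [h1, h2, map_mul, map_mul]
    simp only [mul_assoc, and_self]
  · right
    rw [h1, h2, map_mul, map_mul]
    simp only [mul_assoc, and_self]

theorem Val.mul_right (hv : Val ψ ι x F g v) (h : H) : Val ψ ι x F (g * ψ h) (v * ι h) := by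
  obtain ⟨a, b, hv⟩ := hv
  refine ⟨a, b * h, ?_⟩
  rcases hv with ⟨h1, h2⟩ | ⟨h1, h2⟩
  · left
    rw [h1, h2, map_mul, map_mul]
    simp only [mul_assoc, and_self]
  · right
    rw [h1, h2, map_mul, map_mul]
    simp only [mul_assoc, and_self]

theorem Val.inv (hv : Val ψ ι x F g v) : Val ψ ι x F g⁻¹ v⁻¹ := by
  obtain ⟨a, b, hv⟩ := hv
  refine ⟨b⁻¹, a⁻¹, ?_⟩
  rcases hv with ⟨h1, h2⟩ | ⟨h1, h2⟩
  · right
    rw [h1, h2, map_inv, map_inv, map_inv, map_inv]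
    constructor <;> group
  · left
    rw [h1, h2, map_inv, map_inv, map_inv, map_inv]
    constructor <;> group

/-- The classes `H g H ∪ H g⁻¹ H`. -/
def dcSetoid (ψ : H →* G) : Setoid G where
  r g g' := ∃ a b : H, g' = ψ a * g * ψ b ∨ g' = ψ a * g⁻¹ * ψ b
  iseqv :=
    { refl := fun g => ⟨1, 1, Or.inl (by simp)⟩
      symm := by
        rintro g g' ⟨a, b, h | h⟩
        · exact ⟨a⁻¹, b⁻¹, Or.inl (by rw [h, map_inv, map_inv]; group)⟩
        · exact ⟨b, a, Or.inr (by rw [h]; group)⟩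
      trans := by
        rintro g g' g'' ⟨a, b, h⟩ ⟨c, d, h'⟩
        rcases h with h | h <;> rcases h' with h' | h'
        · exact ⟨c * a, b * d, Or.inl (by rw [h', h, map_mul, map_mul]; group)⟩
        · exact ⟨c * b⁻¹, a⁻¹ * d, Or.inr (by
            rw [h', h, map_mul, map_mul, map_inv, map_inv]; group)⟩
        · exact ⟨c * a, b * d, Or.inr (by rw [h', h, map_mul, map_mul]; group)⟩
        · exact ⟨c * b⁻¹, a⁻¹ * d, Or.inl (by
            rw [h', h, map_mul, map_mul, map_inv, map_inv]; group)⟩ }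

theorem exists_bisetMap (hψ : Function.Injective ψ)
    (hgood : ∀ g : G, ∃ (x : G) (F : Q), (∃ a b, x = ψ a * g * ψ b) ∧ Good ψ ι x F) :
    ∃ f : G → Q, IsBisetMap ψ ι f := by
  classical
  have h1 : ∀ q : Quotient (dcSetoid ψ), ∃ p : G × Q, Quotient.mk (dcSetoid ψ) p.1 = q ∧
      Good ψ ι p.1 p.2 ∧ (q = Quotient.mk (dcSetoid ψ) 1 → p = (1, 1)) := by
    intro q
    by_cases hq : q = Quotient.mk (dcSetoid ψ) 1
    · refine ⟨(1, 1), hq.symm, ⟨?_, ?_⟩, fun _ => rfl⟩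
      · intro k k' h
        rw [mul_one, one_mul] at h
        rw [hψ h, mul_one, one_mul]
      · intro a b h
        rw [mul_one, inv_one, ← map_mul] at h
        have h2 : a * b = 1 := hψ (by rw [← h, map_one])
        rw [mul_one, ← map_mul, h2, map_one, inv_one]
    · induction q using Quotient.inductionOn with
      | h g =>
        obtain ⟨x, F, ⟨a, b, hx⟩, hF⟩ := hgood g
        exact ⟨(x, F), Quotient.sound ((dcSetoid ψ).symm ⟨a, b, Or.inl hx⟩), hF,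
          fun h => absurd h hq⟩
  choose p hp1 hp2 hp3 using h1
  have h2 : ∀ g : G, ∃ v : Q, Val ψ ι (p (Quotient.mk (dcSetoid ψ) g)).1
      (p (Quotient.mk (dcSetoid ψ) g)).2 g v := by
    intro g
    obtain ⟨a, b, h⟩ := Quotient.exact (hp1 (Quotient.mk (dcSetoid ψ) g))
    rcases h with h | h
    · exact ⟨_, a, b, Or.inl ⟨h, rfl⟩⟩
    · exact ⟨_, a, b, Or.inr ⟨h, rfl⟩⟩
  choose f hf using h2
  refine ⟨f, ?_, ?_, ?_, ?_⟩
  · intro h
    have h3 : Quotient.mk (dcSetoid ψ) (ψ h) = Quotient.mk (dcSetoid ψ) 1 :=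
      Quotient.sound ((dcSetoid ψ).symm ⟨h, 1, Or.inl (by simp)⟩)
    refine Val.unique (hp2 _) (hf (ψ h)) ?_
    rw [hp3 _ h3]
    exact ⟨h, 1, Or.inl ⟨by simp, by simp⟩⟩
  · intro h g
    have h3 : Quotient.mk (dcSetoid ψ) (ψ h * g) = Quotient.mk (dcSetoid ψ) g :=
      Quotient.sound ((dcSetoid ψ).symm ⟨h, 1, Or.inl (by simp)⟩)
    refine Val.unique (hp2 _) (hf (ψ h * g)) ?_
    rw [h3]
    exact (hf g).mul_left h
  · intro g h
    have h3 : Quotient.mk (dcSetoid ψ) (g * ψ h) = Quotient.mk (dcSetoid ψ) g :=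
      Quotient.sound ((dcSetoid ψ).symm ⟨1, h, Or.inl (by simp)⟩)
    refine Val.unique (hp2 _) (hf (g * ψ h)) ?_
    rw [h3]
    exact (hf g).mul_right h
  · intro g
    have h3 : Quotient.mk (dcSetoid ψ) g⁻¹ = Quotient.mk (dcSetoid ψ) g :=
      Quotient.sound ((dcSetoid ψ).symm ⟨1, 1, Or.inr (by simp)⟩)
    refine Val.unique (hp2 _) (hf g⁻¹) ?_
    rw [h3]
    exact (hf g).inv

end Pool.Agent.Biset
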